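import Pool.Agent.QGC.Fin
import Pool.Agent.TGF.Fin
import Pool.Agent.GD3.BInj

set_option autoImplicit false

/-!
# Classes fixed by the automorphisms of a normal extension of `ℚ`
-/

namespace QGC

open Helper14.Loc (HC HT)

theorem fix_top {L : Type} [Field L] [Algebra ℚ L] [Normal ℚ L] {n : ℕ}
    (h : Subsingleton (HT ℚ n)) (c : HT L n)
    (hc : ∀ σ : L ≃ₐ[ℚ] L, TGF.hmt n (σ : L →+* L) c = c) : c = 0 := by
  obtain ⟨x, rfl⟩ := (GD3.descNT ℚ L n c).2 hc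
  rw [h.elim x 0, map_zero]

theorem fix_mid {L : Type} [Field L] [Algebra ℚ L] [Normal ℚ L] {j : ℕ}
    (h : Subsingleton (HC ℚ 0 j)) (c : HC L 0 j)
    (hc : ∀ σ : L ≃ₐ[ℚ] L, TGF.hm 0 j (σ : L →+* L) c = c) : c = 0 := by
  obtain ⟨x, rfl⟩ := (GD3.descN0 ℚ L j c).2 hc
  rw [h.elim x 0, map_zero]

end QGC
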