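import Mathlib

/-!
# Averaging the five-term relation over a finite field

A function on a finite field which vanishes at `0` and `1`, is antisymmetric under `x ↦ x⁻¹` and
`x ↦ 1 - x` and satisfies the five-term relation is zero: the sum of the relation over the second
variable is `(q + 1) be x`.
-/

namespace Pool.Agent.QGC

private lemma A2_sum {K : Type} [Field K] [Fintype K] [DecidableEq K] (g : K → ℚ) {a : K}
    (ha0 : a ≠ 0) (ha1 : a ≠ 1) :
    ∑ y ∈ ((Finset.univ.erase (0 : K)).erase 1).erase a, g y = ∑ y, g y - g 0 - g 1 - g a := by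
  have h1 : a ∈ (Finset.univ.erase (0 : K)).erase 1 := by
    simp [ha0, ha1]
  have h2 : (1 : K) ∈ Finset.univ.erase (0 : K) := by simp
  have h3 : (0 : K) ∈ (Finset.univ : Finset K) := Finset.mem_univ _
  rw [Finset.sum_erase_eq_sub h1, Finset.sum_erase_eq_sub h2, Finset.sum_erase_eq_sub h3]

theorem avg_field {K : Type} [Field K] [Finite K] (be : K → ℚ) (h0 : be 0 = 0) (h1 : be 1 = 0)
    (hi : ∀ x, x ≠ 0 → x ≠ 1 → be x⁻¹ = - be x) (hc : ∀ x, x ≠ 0 → x ≠ 1 → be (1 - x) = - be x)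
    (h5 : ∀ x y, x ≠ 0 → x ≠ 1 → y ≠ 0 → y ≠ 1 → x ≠ y →
      be x - be y + be (y / x) - be ((1 - x⁻¹) / (1 - y⁻¹)) + be ((1 - x) / (1 - y)) = 0) :
    ∀ x, be x = 0 := by
  classical
  have := Fintype.ofFinite K
  intro x
  by_cases hx0 : x = 0
  · rw [hx0, h0]
  by_cases hx1 : x = 1
  · rw [hx1, h1]
  have hxi0 : x⁻¹ ≠ 0 := inv_ne_zero hx0
  have hxi1 : x⁻¹ ≠ 1 := fun h => hx1 (inv_eq_one.1 h)
  have hA0 : 1 - x⁻¹ ≠ 0 := sub_ne_zero.2 (Ne.symm hxi1)
  have hA1 : 1 - x⁻¹ ≠ 1 := fun h => hxi0 (by linear_combination -h)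
  have hB0 : 1 - x ≠ 0 := sub_ne_zero.2 (Ne.symm hx1)
  have hB1 : 1 - x ≠ 1 := fun h => hx0 (by linear_combination -h)
  have hmem : ∀ a y : K, y ∈ ((Finset.univ.erase (0 : K)).erase 1).erase a ↔
      y ≠ a ∧ y ≠ 1 ∧ y ≠ 0 := by
    intro a y
    simp
  -- the sum of the relation
  have hs : ∑ y ∈ ((Finset.univ.erase (0 : K)).erase 1).erase x,
      (be x - be y + be (y / x) - be ((1 - x⁻¹) / (1 - y⁻¹)) + be ((1 - x) / (1 - y))) = 0 := by
    apply Finset.sum_eq_zero
    intro y hy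
    rw [hmem] at hy
    exact h5 x y hx0 hx1 hy.2.2 hy.2.1 (Ne.symm hy.1)
  rw [Finset.sum_add_distrib, Finset.sum_sub_distrib, Finset.sum_add_distrib,
    Finset.sum_sub_distrib] at hs
  -- constant term
  have e1 : ∑ y ∈ ((Finset.univ.erase (0 : K)).erase 1).erase x, be x
      = (Fintype.card K : ℚ) * be x - 3 * be x := by
    rw [A2_sum (fun _ => be x) hx0 hx1, Finset.sum_const, Finset.card_univ, nsmul_eq_mul]
    ring
  have e2 := A2_sum be hx0 hx1
  have e3 : ∑ y ∈ ((Finset.univ.erase (0 : K)).erase 1).erase x, be (y / x)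
      = ∑ y ∈ ((Finset.univ.erase (0 : K)).erase 1).erase x⁻¹, be y := by
    refine Finset.sum_nbij' (fun y => y / x) (fun z => z * x) ?_ ?_ ?_ ?_ ?_
    · intro y hy
      rw [hmem] at hy ⊢
      refine ⟨fun h => hy.2.1 ?_, fun h => hy.1 ?_, div_ne_zero hy.2.2 hx0⟩
      · field_simp at h
        exact h
      · rw [div_eq_one_iff_eq hx0] at h
        exact h
    · intro z hz
      rw [hmem] at hz ⊢
      refine ⟨fun h => hz.2.1 ?_, fun h => hz.1 ?_, mul_ne_zero hz.2.2 hx0⟩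
      · exact mul_right_cancel₀ hx0 (by rw [h, one_mul])
      · exact eq_inv_of_mul_eq_one_left h
    · intro y _
      exact div_mul_cancel₀ y hx0
    · intro z _
      exact mul_div_cancel_right₀ z hx0
    · intro y _
      rfl
  have e4 : ∑ y ∈ ((Finset.univ.erase (0 : K)).erase 1).erase x, be ((1 - x⁻¹) / (1 - y⁻¹))
      = ∑ y ∈ ((Finset.univ.erase (0 : K)).erase 1).erase (1 - x⁻¹), be y := by
    refine Finset.sum_nbij' (fun y => (1 - x⁻¹) / (1 - y⁻¹))
      (fun z => (1 - (1 - x⁻¹) / z)⁻¹) ?_ ?_ ?_ ?_ ?_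
    · intro y hy
      rw [hmem] at hy ⊢
      obtain ⟨hyx, hy1, hy0⟩ := hy
      have hy2 : 1 - y⁻¹ ≠ 0 := sub_ne_zero.2 (fun h => hy1 (inv_eq_one.1 h.symm))
      refine ⟨fun h => hy0 ?_, fun h => hyx ?_, div_ne_zero hA0 hy2⟩
      · rw [div_eq_iff hy2] at h
        have h3 : (1 - x⁻¹) * y⁻¹ = 0 := by linear_combination h
        rcases mul_eq_zero.1 h3 with h4 | h4
        · exact absurd h4 hA0
        · exact inv_eq_zero.1 h4
      · rw [div_eq_one_iff_eq hy2] at h
        have h3 : x⁻¹ = y⁻¹ := by linear_combination -h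
        exact (inv_inj.1 h3).symm
    · intro z hz
      rw [hmem] at hz ⊢
      obtain ⟨hzx, hz1, hz0⟩ := hz
      have h2 : 1 - (1 - x⁻¹) / z ≠ 0 := by
        intro h
        have h3 : (1 - x⁻¹) / z = 1 := by linear_combination -h
        rw [div_eq_one_iff_eq hz0] at h3
        exact hzx h3.symm
      refine ⟨fun h => hz1 ?_, fun h => ?_, inv_ne_zero h2⟩
      · have h3 : 1 - (1 - x⁻¹) / z = x⁻¹ := inv_eq_iff_eq_inv.1 h
        have h4 : (1 - x⁻¹) / z = 1 - x⁻¹ := by linear_combination -h3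
        rw [div_eq_iff hz0] at h4
        have h5 : (1 - x⁻¹) * z = (1 - x⁻¹) * 1 := by linear_combination -h4
        exact mul_left_cancel₀ hA0 h5
      · rw [inv_eq_one] at h
        have h3 : (1 - x⁻¹) / z = 0 := by linear_combination -h
        exact (div_ne_zero hA0 hz0) h3
    · intro y hy
      rw [hmem] at hy
      obtain ⟨hyx, hy1, hy0⟩ := hy
      have hy2 : 1 - y⁻¹ ≠ 0 := sub_ne_zero.2 (fun h => hy1 (inv_eq_one.1 h.symm))
      have h3 : (1 - x⁻¹) / ((1 - x⁻¹) / (1 - y⁻¹)) = 1 - y⁻¹ := by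
        rw [div_div_eq_mul_div, mul_div_cancel_left₀ _ hA0]
      show (1 - (1 - x⁻¹) / ((1 - x⁻¹) / (1 - y⁻¹)))⁻¹ = y
      rw [h3, sub_sub_cancel, inv_inv]
    · intro z hz
      rw [hmem] at hz
      obtain ⟨hzx, hz1, hz0⟩ := hz
      show (1 - x⁻¹) / (1 - ((1 - (1 - x⁻¹) / z)⁻¹)⁻¹) = z
      rw [inv_inv, sub_sub_cancel, div_div_eq_mul_div, mul_div_cancel_left₀ _ hA0]
    · intro y _
      rfl
  have e5 : ∑ y ∈ ((Finset.univ.erase (0 : K)).erase 1).erase x, be ((1 - x) / (1 - y))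
      = ∑ y ∈ ((Finset.univ.erase (0 : K)).erase 1).erase (1 - x), be y := by
    refine Finset.sum_nbij' (fun y => (1 - x) / (1 - y))
      (fun z => 1 - (1 - x) / z) ?_ ?_ ?_ ?_ ?_
    · intro y hy
      rw [hmem] at hy ⊢
      obtain ⟨hyx, hy1, hy0⟩ := hy
      have hy2 : 1 - y ≠ 0 := sub_ne_zero.2 (Ne.symm hy1)
      refine ⟨fun h => hy0 ?_, fun h => hyx ?_, div_ne_zero hB0 hy2⟩
      · rw [div_eq_iff hy2] at h
        have h3 : (1 - x) * y = 0 := by linear_combination h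
        exact (mul_eq_zero.1 h3).resolve_left hB0
      · rw [div_eq_one_iff_eq hy2] at h
        linear_combination h
    · intro z hz
      rw [hmem] at hz ⊢
      obtain ⟨hzx, hz1, hz0⟩ := hz
      refine ⟨fun h => hz1 ?_, fun h => ?_, fun h => hzx ?_⟩
      · have h4 : (1 - x) / z = 1 - x := by linear_combination -h
        rw [div_eq_iff hz0] at h4
        have h5 : (1 - x) * z = (1 - x) * 1 := by linear_combination -h4
        exact mul_left_cancel₀ hB0 h5
      · have h3 : (1 - x) / z = 0 := by linear_combination -h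
        exact (div_ne_zero hB0 hz0) h3
      · have h3 : (1 - x) / z = 1 := by linear_combination -h
        rw [div_eq_one_iff_eq hz0] at h3
        exact h3.symm
    · intro y hy
      show 1 - (1 - x) / ((1 - x) / (1 - y)) = y
      rw [div_div_eq_mul_div, mul_div_cancel_left₀ _ hB0, sub_sub_cancel]
    · intro z hz
      show (1 - x) / (1 - (1 - (1 - x) / z)) = z
      rw [sub_sub_cancel, div_div_eq_mul_div, mul_div_cancel_left₀ _ hB0]
    · intro y _
      rfl
  have f3 := A2_sum be hxi0 hxi1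
  have f4 := A2_sum be hA0 hA1
  have f5 := A2_sum be hB0 hB1
  rw [e1, e2, e3, f3, e4, f4, e5, f5, h0, h1, hi x hx0 hx1, hc x⁻¹ hxi0 hxi1, hi x hx0 hx1,
    hc x hx0 hx1] at hs
  have hq : (0 : ℚ) ≤ (Fintype.card K : ℚ) := Nat.cast_nonneg _
  have hfin : ((Fintype.card K : ℚ) + 1) * be x = 0 := by linear_combination hs
  rcases mul_eq_zero.1 hfin with h | h
  · linarith
  · exact h

end Pool.Agent.QGC
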