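import Pool.Agent.QGC.Defs
import Pool.Agent.Helper14.Gon.Fpt
import Pool.Agent.Helper11.Gon.Five
import Pool.Agent.Helper91.Gon.Glue

set_option autoImplicit false

/-!
# The five-term relation in `B_2(F) ⊗ ℚ`

Goncharov's group `B_2(F)` is defined by the specialisations at `t = 0, 1` of the elements of the kernel of `δ_2` over
`F(t)`. The five-term elements over `F(t)` are in this kernel up to torsion; with `y (1 - t)` in place of `y` the value
at `t = 1` is `{x} + {1 - x} = 0`, that at `t = 0` is the five-term element of `x`, `y`. The same for the inversion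
relations, with `x (1 - t)` in place of `x`.
-/

noncomputable section

open Polynomial TensorProduct
open scoped Classical

namespace Pool.Agent.QGC

universe u

open Helper14.Gon (P1 ZP br BB clb RR R A specZ spec delta2 d2 toQ Tx)

/-- the alternating form `v, w ↦ 1 ⊗ (v ∧ w)` -/
private def flib_A (K : Type u) [Field K] : Helper11.Gon.AF K (Tx 2 K) where
  O := Helper14.Gon.tw
  alt v := by rw [Helper14.Gon.tw_apply, Helper14.Gon.wdg_self, toQ, tmul_zero]

/-- `α ↦ 1 ⊗ δ_2(α)` -/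
private def flib_G (K : Type u) [Field K] : ZP K →+ Tx 2 K :=
  (TensorProduct.mk ℤ ℚ (Helper14.Gon.L2 K) 1).toAddMonoidHom.comp (delta2 K)

private lemma flib_G_br {K : Type u} [Field K] (x : K) :
    flib_G K (br (some x)) = - (flib_A K).St x := by
  rw [Helper11.Gon.AF.St, (flib_A K).swap, neg_neg]
  change toQ (delta2 K (br (some x))) = _
  rw [delta2, Helper14.Gon.ext_br]
  rfl

section key

variable {F : Type u} [Field F] {χ : ZP F →+ ℚ} (h : ∀ ξ ∈ RR 0 F, χ ξ = 0)

include h

private lemma flib_key (α : ZP (RatFunc F)) (hα : flib_G _ α = 0) :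
    χ (specZ 0 α) = χ (specZ 1 α) := by
  obtain ⟨N, hN, h1⟩ := (Helper14.Gon.toQ_eq_zero (delta2 _ α)).1 hα
  have h2 : N • α ∈ A 2 (RatFunc F) := by
    rw [Helper14.Gon.A_two, AddMonoidHom.mem_ker, map_zsmul, h1]
  have h3 : specZ 0 (N • α) - specZ 1 (N • α) ∈ R 2 F := Helper14.Gon.rel_mem (n := 0) h2
  have h4 : χ (specZ 0 (N • α) - specZ 1 (N • α)) = 0 := h _ h3
  rw [map_sub, map_zsmul, map_zsmul, map_zsmul, map_zsmul, zsmul_eq_mul, zsmul_eq_mul,
    ← mul_sub] at h4
  rcases mul_eq_zero.1 h4 with h5 | h5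
  · exact absurd h5 (by exact_mod_cast hN)
  · exact sub_eq_zero.1 h5

private lemma flib_zero : χ (br (some 0)) = 0 := h _ (Helper14.Gon.br_zero_mem 1)

private lemma flib_inf : χ (br none) = 0 := h _ (Helper14.Gon.br_inf_mem 1)

private lemma flib_one : χ (br (some 1)) = 0 := by
  have h0 : flib_G (RatFunc F) (br (some (algebraMap F[X] (RatFunc F) X)) +
      br (some (algebraMap F[X] (RatFunc F) X)⁻¹)) = 0 := by
    rw [map_add, flib_G_br, flib_G_br, (flib_A _).St_inv]
    abel
  have h1 := flib_key h _ h0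
  simp only [map_add, Helper14.Gon.specZ_single] at h1
  have e1 : ∀ c : F, spec c (some (algebraMap F[X] (RatFunc F) X)) = some c := fun c => by
    rw [Helper14.Gon.spec_poly, eval_X]
  have e2 : ∀ c : F, spec c (some (algebraMap F[X] (RatFunc F) X)⁻¹) =
      if c = 0 then none else some (1 / c) := fun c => by
    have := Helper14.Gon.spec_div c (1 : F[X]) X X_ne_zero (by simp)
    rw [map_one, one_div, eval_X, eval_one] at this
    exact this
  rw [e1, e1, e2, e2, if_pos rfl, if_neg one_ne_zero, div_one, flib_zero h, flib_inf h] at h1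
  linarith

private lemma flib_sub (x : F) : χ (br (some x)) + χ (br (some (1 - x))) = 0 := by
  have h0 : flib_G (RatFunc F) (br (some (algebraMap F[X] (RatFunc F) (C x * (1 - X)))) +
      br (some (1 - algebraMap F[X] (RatFunc F) (C x * (1 - X))))) = 0 := by
    rw [map_add, flib_G_br, flib_G_br]
    simp only [Helper11.Gon.AF.St]
    rw [sub_sub_cancel, (flib_A _).swap (Helper11.Gon.lg (1 - _))]
    abel
  have h1 := flib_key h _ h0
  simp only [map_add, Helper14.Gon.specZ_single] at h1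
  have e1 : (1 : RatFunc F) - algebraMap F[X] (RatFunc F) (C x * (1 - X)) =
      algebraMap F[X] (RatFunc F) (1 - C x * (1 - X)) := by
    rw [map_sub, map_one]
  rw [e1, Helper14.Gon.spec_poly, Helper14.Gon.spec_poly, Helper14.Gon.spec_poly,
    Helper14.Gon.spec_poly] at h1
  simp only [eval_mul, eval_C, eval_sub, eval_one, eval_X, sub_zero, mul_one, sub_self,
    mul_zero] at h1
  rw [flib_zero h, flib_one h] at h1
  linarith

private lemma flib_inv {x : F} (hx : x ≠ 0) : χ (br (some x)) + χ (br (some x⁻¹)) = 0 := by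
  have h0 : flib_G (RatFunc F) (br (some (algebraMap F[X] (RatFunc F) (C x * (1 - X)))) +
      br (some (algebraMap F[X] (RatFunc F) (C x * (1 - X)))⁻¹)) = 0 := by
    rw [map_add, flib_G_br, flib_G_br, (flib_A _).St_inv]
    abel
  have h1 := flib_key h _ h0
  simp only [map_add, Helper14.Gon.specZ_single] at h1
  have hP : (C x * (1 - X) : F[X]) ≠ 0 := by
    intro h2
    have h3 := congrArg (eval 0) h2
    simp only [eval_mul, eval_C, eval_sub, eval_one, eval_X, sub_zero, mul_one, eval_zero] at h3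
    exact hx h3
  have e2 : ∀ c : F, spec c (some (algebraMap F[X] (RatFunc F) (C x * (1 - X)))⁻¹) =
      if x * (1 - c) = 0 then none else some (1 / (x * (1 - c))) := fun c => by
    have := Helper14.Gon.spec_div c (1 : F[X]) (C x * (1 - X)) hP (by simp)
    rw [map_one, one_div, eval_one] at this
    simpa only [eval_mul, eval_C, eval_sub, eval_one, eval_X] using this
  rw [e2, e2, Helper14.Gon.spec_poly, Helper14.Gon.spec_poly] at h1
  simp only [eval_mul, eval_C, eval_sub, eval_one, eval_X, sub_zero, mul_one, sub_self,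
    mul_zero, if_true, if_neg hx, one_div] at h1
  rw [flib_zero h, flib_inf h] at h1
  linarith

private lemma flib_five {x y : F} (hx : x ≠ 0) (hx1 : x ≠ 1) (hy : y ≠ 0) (hy1 : y ≠ 1) :
    χ (br (some x)) - χ (br (some y)) + χ (br (some (y / x))) -
      χ (br (some ((1 - x⁻¹) / (1 - y⁻¹)))) + χ (br (some ((1 - x) / (1 - y)))) = 0 := by
  set P : F[X] := C y * (1 - X) with hP
  have p0 : P.eval 0 = y := by simp [hP]
  have p1 : P.eval 1 = 0 := by simp [hP]
  set a : RatFunc F := algebraMap F[X] (RatFunc F) (C x) with ha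
  set b : RatFunc F := algebraMap F[X] (RatFunc F) P with hb
  have inj := RatFunc.algebraMap_injective F
  have a0 : a ≠ 0 := by
    rw [ha, Ne, map_eq_zero_iff _ inj, C_eq_zero]
    exact hx
  have a1 : a ≠ 1 := by
    intro h2
    rw [ha, ← map_one (algebraMap F[X] (RatFunc F))] at h2
    have h3 := congrArg (eval 0) (inj h2)
    rw [eval_C, eval_one] at h3
    exact hx1 h3
  have b0 : b ≠ 0 := by
    intro h2
    rw [hb, map_eq_zero_iff _ inj] at h2
    have h3 := congrArg (eval 0) h2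
    rw [p0, eval_zero] at h3
    exact hy h3
  have b1 : b ≠ 1 := by
    intro h2
    rw [hb, ← map_one (algebraMap F[X] (RatFunc F))] at h2
    have h3 := congrArg (eval 0) (inj h2)
    rw [p0, eval_one] at h3
    exact hy1 h3
  have ab : a ≠ b := by
    intro h2
    have h3 := congrArg (eval 1) (inj h2)
    rw [p1, eval_C] at h3
    exact hx h3
  have h0 : flib_G (RatFunc F) (br (some a) - br (some b) + br (some (b / a)) -
      br (some ((1 - a⁻¹) / (1 - b⁻¹))) + br (some ((1 - a) / (1 - b)))) = 0 := by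
    have h5 := (flib_A (RatFunc F)).five a0 a1 b0 b1 ab
    rw [map_add, map_sub, map_add, map_sub, flib_G_br, flib_G_br, flib_G_br, flib_G_br, flib_G_br]
    rw [← neg_eq_zero, ← h5]
    abel
  have h1 := flib_key h _ h0
  simp only [map_add, map_sub, Helper14.Gon.specZ_single] at h1
  have e1 : b / a = algebraMap F[X] (RatFunc F) P / algebraMap F[X] (RatFunc F) (C x) := rfl
  have hy' : y - 1 ≠ 0 := sub_ne_zero.2 hy1
  have hb1 : b - 1 ≠ 0 := sub_ne_zero.2 b1
  have ha1 : a - 1 ≠ 0 := sub_ne_zero.2 a1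
  have e2 : (1 - a⁻¹) / (1 - b⁻¹) = algebraMap F[X] (RatFunc F) (P * (C x - 1)) /
      algebraMap F[X] (RatFunc F) (C x * (P - 1)) := by
    rw [map_mul _ P (C x - 1), map_mul _ (C x) (P - 1), map_sub _ (C x) 1, map_sub _ P 1,
      map_one, ← ha, ← hb]
    have hz : 1 - b⁻¹ = (b - 1) / b := by field_simp
    have hz' : 1 - a⁻¹ = (a - 1) / a := by field_simp
    rw [hz, hz', div_div_div_eq]
    ring
  have e3 : (1 - a) / (1 - b) = algebraMap F[X] (RatFunc F) (1 - C x) /
      algebraMap F[X] (RatFunc F) (1 - P) := by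
    rw [map_sub _ 1 (C x), map_sub _ 1 P, map_one]
  have q1 : (C x : F[X]) ≠ 0 := by rw [Ne, C_eq_zero]; exact hx
  have q2 : (C x * (P - 1) : F[X]) ≠ 0 := by
    intro h2
    have h3 := congrArg (eval 0) h2
    rw [eval_mul, eval_sub, p0, eval_C, eval_one, eval_zero] at h3
    exact mul_ne_zero hx hy' h3
  have q3 : (1 - P : F[X]) ≠ 0 := by
    intro h2
    have h3 := congrArg (eval 1) h2
    rw [eval_sub, p1, eval_one, eval_zero, sub_zero] at h3
    exact one_ne_zero h3
  have s1 : ∀ c : F, spec c (some (b / a)) = some (P.eval c / x) := fun c => by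
    rw [e1, Helper14.Gon.spec_div c _ _ q1 (Or.inr (by rw [eval_C]; exact hx)), eval_C,
      if_neg hx]
  have s2 : ∀ c : F, P.eval c - 1 ≠ 0 → spec c (some ((1 - a⁻¹) / (1 - b⁻¹))) =
      some (P.eval c * (x - 1) / (x * (P.eval c - 1))) := fun c hc => by
    have h4 : eval c (C x * (P - 1)) ≠ 0 := by
      rw [eval_mul, eval_sub, eval_C, eval_one]
      exact mul_ne_zero hx hc
    rw [e2, Helper14.Gon.spec_div c _ _ q2 (Or.inr h4), if_neg h4]
    simp only [eval_mul, eval_sub, eval_C, eval_one]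
  have s3 : ∀ c : F, P.eval c - 1 ≠ 0 → spec c (some ((1 - a) / (1 - b))) =
      some ((1 - x) / (1 - P.eval c)) := fun c hc => by
    have h4 : eval c (1 - P) ≠ 0 := by
      rw [eval_sub, eval_one, ← neg_sub, neg_ne_zero]
      exact hc
    rw [e3, Helper14.Gon.spec_div c _ _ q3 (Or.inr h4), if_neg h4]
    simp only [eval_sub, eval_C, eval_one]
  have n0 : P.eval 0 - 1 ≠ 0 := by rw [p0]; exact hy'
  have n1 : P.eval 1 - 1 ≠ 0 := by rw [p1]; simp
  rw [s1, s1, s2 0 n0, s2 1 n1, s3 0 n0, s3 1 n1, ha, hb, Helper14.Gon.spec_poly,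
    Helper14.Gon.spec_poly, Helper14.Gon.spec_poly, Helper14.Gon.spec_poly, p0, p1, eval_C,
    eval_C] at h1
  have e4 : (1 - x⁻¹) / (1 - y⁻¹) = y * (x - 1) / (x * (y - 1)) := by
    have hz : 1 - y⁻¹ = (y - 1) / y := by field_simp
    have hz' : 1 - x⁻¹ = (x - 1) / x := by field_simp
    rw [hz, hz', div_div_div_eq]
    ring
  rw [e4]
  simp only [zero_mul, zero_div, sub_zero, div_one] at h1
  have h6 := flib_sub h x
  have h7 := flib_zero h
  linarith

end key

/-- the additive map `ℤ[P¹(F)] → ℚ` given by a functional on `B_2(F) ⊗ ℚ` -/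
private def flib_chi {F : Type u} [Field F]
    (φ : Pool.Agent.Helper91.Gon.Glue.Bq 0 F →ₗ[ℚ] ℚ) : ZP F →+ ℚ :=
  φ.toAddMonoidHom.comp ((TensorProduct.mk ℤ ℚ (BB 0 F) 1).toAddMonoidHom.comp
    (QuotientAddGroup.mk' (RR 0 F)))

private lemma flib_chi_kill {F : Type u} [Field F]
    (φ : Pool.Agent.Helper91.Gon.Glue.Bq 0 F →ₗ[ℚ] ℚ) (ξ : ZP F) (hξ : ξ ∈ RR 0 F) :
    flib_chi φ ξ = 0 := by
  have h1 : QuotientAddGroup.mk' (RR 0 F) ξ = 0 := by
    rw [QuotientAddGroup.mk'_apply, QuotientAddGroup.eq_zero_iff]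
    exact hξ
  rw [flib_chi, AddMonoidHom.comp_apply, AddMonoidHom.comp_apply, h1, map_zero, map_zero]

/-- **the five-term relation**, for all fields -/
theorem flib_field {F : Type u} [Field F]
    (φ : Pool.Agent.Helper91.Gon.Glue.Bq 0 F →ₗ[ℚ] ℚ) :
    φ (Pool.Agent.Helper91.Gon.Glue.sq 0 (some 0)) = 0 ∧
    φ (Pool.Agent.Helper91.Gon.Glue.sq 0 none) = 0 ∧
    φ (Pool.Agent.Helper91.Gon.Glue.sq 0 (some 1)) = 0 ∧
    (∀ x : F, x ≠ 0 → φ (Pool.Agent.Helper91.Gon.Glue.sq 0 (some (1 - x))) =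
      - φ (Pool.Agent.Helper91.Gon.Glue.sq 0 (some x))) ∧
    (∀ x : F, x ≠ 0 → φ (Pool.Agent.Helper91.Gon.Glue.sq 0 (some x⁻¹)) =
      - φ (Pool.Agent.Helper91.Gon.Glue.sq 0 (some x))) ∧
    ∀ x y : F, x ≠ 0 → x ≠ 1 → y ≠ 0 → y ≠ 1 →
      φ (Pool.Agent.Helper91.Gon.Glue.sq 0 (some x)) -
        φ (Pool.Agent.Helper91.Gon.Glue.sq 0 (some y)) +
        φ (Pool.Agent.Helper91.Gon.Glue.sq 0 (some (y / x))) -
        φ (Pool.Agent.Helper91.Gon.Glue.sq 0 (some ((1 - x⁻¹) / (1 - y⁻¹)))) +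
        φ (Pool.Agent.Helper91.Gon.Glue.sq 0 (some ((1 - x) / (1 - y)))) = 0 := by
  have hk := flib_chi_kill φ
  refine ⟨flib_zero hk, flib_inf hk, flib_one hk, fun x hx => ?_, fun x hx => ?_,
    fun x y hx hx1 hy hy1 => flib_five hk hx hx1 hy hy1⟩
  · exact (neg_eq_of_add_eq_zero_right (flib_sub hk x)).symm
  · exact (neg_eq_of_add_eq_zero_right (flib_inv hk hx)).symm

/-- **the five-term relation** over `ℚ` -/
theorem flib (φ : Pool.Agent.Helper91.Gon.Glue.Bq 0 ℚ →ₗ[ℚ] ℚ) :
    Five (fun x => φ (Pool.Agent.Helper91.Gon.Glue.sq 0 (some x))) := by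
  obtain ⟨_, _, h1, h2, h3, h4⟩ := flib_field φ
  exact ⟨h1, fun x hx _ => h2 x hx, fun x hx _ => h3 x hx,
    fun x y hx hx1 hy hy1 _ => h4 x y hx hx1 hy hy1⟩

end Pool.Agent.QGC
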