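import Mathlib

/-!
# QGC-A1: averaging over a finite commutative group (paper A.1)

For `s m k` let `B s m k = b m k + b m (s / k) + b (s / m) k + b (s / m) (s / k)`. The hypothesis for `(m, s / m, k, s / k)` gives
`B s m m + B s k k = 2 * B s m k`, so `B s m k - B s m l - B s m' k + B s m' l = 0`. Sum over `s`: the mixed terms
`∑ s, b m (s / k) = ∑ r, b m r` do not depend on `k`, and `∑ s, b (s / m) (s / k) = c (m / k)`, `c r = ∑ s, b s (s * r)`.
With `D m m' k l = b m k - b m l - b m' k + b m' l` and `E = c (m / k) - c (m / l) - c (m' / k) + c (m' / l)`: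
`card G * D m m' k l + E = 0`, also for the translates of `m, m', k, l`. Sum over the translates: `card G * E + card G * E = 0` as
`c r⁻¹ = c r` by `hs`. So `E = 0`, `D = 0`, and `D m 1 k 1 = b m k` (`h1`, `hs`).
-/

namespace Pool.Agent.QGC

theorem avg_group {G : Type} [CommGroup G] [Finite G] (b : G → G → ℚ)
    (hs : ∀ m n, b m n = b n m) (h1 : ∀ m, b 1 m = 0)
    (h : ∀ m n m' n' : G, m * n = m' * n' → b m m + b n n + b m' m' + b n' n' + 2 * b m n +
      2 * b m' n' - 2 * b m m' - 2 * b m n' - 2 * b n m' - 2 * b n n' = 0) :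
    ∀ m n, b m n = 0 := by
  classical
  have := Fintype.ofFinite G
  obtain ⟨c, hc⟩ : ∃ c : G → ℚ, ∀ r, c r = ∑ s, b s (s * r) := ⟨_, fun _ => rfl⟩
  have hcinv : ∀ r, c r⁻¹ = c r := by
    intro r
    rw [hc, hc]
    refine Fintype.sum_equiv (Equiv.mulRight r⁻¹) _ _ fun s => ?_
    rw [Equiv.coe_mulRight, inv_mul_cancel_right]
    exact hs _ _
  have hmix : ∀ m k, ∑ s, b (s / m) (s / k) = c (m / k) := by
    intro m k
    rw [hc]
    refine Fintype.sum_equiv (Equiv.divRight m) _ _ fun s => ?_
    rw [Equiv.divRight_apply, div_mul_div_cancel]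
  have htr : ∀ m k, ∑ s, b (s * m) (s * k) = c (k / m) := by
    intro m k
    rw [hc]
    refine Fintype.sum_equiv (Equiv.mulRight m) _ _ fun s => ?_
    rw [Equiv.coe_mulRight, mul_assoc, mul_div_cancel]
  have hR : ∀ m k, ∑ s, b m (s / k) = ∑ r, b m r := fun m k =>
    Fintype.sum_equiv (Equiv.divRight k) _ _ fun s => rfl
  have hR' : ∀ m k, ∑ s, b (s / m) k = ∑ r, b r k := fun m k =>
    Fintype.sum_equiv (Equiv.divRight m) _ _ fun s => rfl
  have hB : ∀ s m k, (b m m + b m (s / m) + b (s / m) m + b (s / m) (s / m)) +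
      (b k k + b k (s / k) + b (s / k) k + b (s / k) (s / k)) =
      2 * (b m k + b m (s / k) + b (s / m) k + b (s / m) (s / k)) := by
    intro s m k
    have h2 := h m (s / m) k (s / k) (by rw [mul_div_cancel, mul_div_cancel])
    rw [hs (s / m) m, hs (s / k) k]
    linarith
  have hS : ∀ m k, ∑ s, (b m k + b m (s / k) + b (s / m) k + b (s / m) (s / k)) =
      (Fintype.card G : ℚ) * b m k + ∑ r, b m r + ∑ r, b r k + c (m / k) := by
    intro m k
    rw [Finset.sum_add_distrib, Finset.sum_add_distrib, Finset.sum_add_distrib, hmix, hR, hR',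
      Finset.sum_const, Finset.card_univ, nsmul_eq_mul]
  have hE : ∀ m m' k l, (Fintype.card G : ℚ) * (b m k - b m l - b m' k + b m' l) +
      (c (m / k) - c (m / l) - c (m' / k) + c (m' / l)) = 0 := by
    intro m m' k l
    have h2 : ∑ s, ((b m k + b m (s / k) + b (s / m) k + b (s / m) (s / k)) -
        (b m l + b m (s / l) + b (s / m) l + b (s / m) (s / l)) -
        (b m' k + b m' (s / k) + b (s / m') k + b (s / m') (s / k)) +
        (b m' l + b m' (s / l) + b (s / m') l + b (s / m') (s / l))) = 0 := by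
      refine Finset.sum_eq_zero fun s _ => ?_
      have e1 := hB s m k
      have e2 := hB s m l
      have e3 := hB s m' k
      have e4 := hB s m' l
      linarith
    rw [Finset.sum_add_distrib, Finset.sum_sub_distrib, Finset.sum_sub_distrib, hS, hS, hS, hS]
      at h2
    linarith
  have hcard : (0 : ℚ) < Fintype.card G := by exact_mod_cast Fintype.card_pos
  have hE0 : ∀ m m' k l, c (m / k) - c (m / l) - c (m' / k) + c (m' / l) = 0 := by
    intro m m' k l
    have h2 : ∑ s : G, ((Fintype.card G : ℚ) * (b (s * m) (s * k) - b (s * m) (s * l) -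
        b (s * m') (s * k) + b (s * m') (s * l)) +
        (c (m / k) - c (m / l) - c (m' / k) + c (m' / l))) = 0 := by
      refine Finset.sum_eq_zero fun s _ => ?_
      have e1 := hE (s * m) (s * m') (s * k) (s * l)
      rwa [mul_div_mul_left_eq_div, mul_div_mul_left_eq_div, mul_div_mul_left_eq_div,
        mul_div_mul_left_eq_div] at e1
    rw [Finset.sum_add_distrib, ← Finset.mul_sum, Finset.sum_add_distrib, Finset.sum_sub_distrib,
      Finset.sum_sub_distrib, htr, htr, htr, htr, Finset.sum_const, Finset.card_univ,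
      nsmul_eq_mul, ← inv_div m k, ← inv_div m l, ← inv_div m' k, ← inv_div m' l, hcinv, hcinv,
      hcinv, hcinv, ← mul_add] at h2
    have h3 := (mul_eq_zero.1 h2).resolve_left hcard.ne'
    linarith
  intro m k
  have h2 := hE m 1 k 1
  rw [hE0, add_zero] at h2
  have h3 := (mul_eq_zero.1 h2).resolve_left hcard.ne'
  rw [hs m 1, h1, h1, h1] at h3
  linarith

end Pool.Agent.QGC
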