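import Mathlib

/-!
# QGC-A3: homomorphisms from `(ℤ/p)ˣ` to `ℚ` (paper A.3)

A function on `[1, p - 1]` which turns products modulo `p` into sums is zero (Fermat).
-/

namespace Pool.Agent.QGC

private theorem a3_mod {p : ℕ} (hp : p.Prime) {m : ℕ} (h1 : 1 ≤ m) (h2 : m < p) (k : ℕ) :
    1 ≤ m ^ k % p ∧ m ^ k % p < p := by
  refine ⟨?_, Nat.mod_lt _ hp.pos⟩
  by_contra hc
  have h3 : m ^ k % p = 0 := by omega
  have h4 : p ∣ m := hp.dvd_of_dvd_pow (Nat.dvd_of_mod_eq_zero h3)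
  have h5 := Nat.le_of_dvd (by omega) h4
  omega

theorem hom_zero {p : ℕ} (hp : p.Prime) (f : ℕ → ℚ)
    (h : ∀ m n, 1 ≤ m → m < p → 1 ≤ n → n < p → f m + f n = f (m * n % p)) :
    ∀ m, 1 ≤ m → m < p → f m = 0 := by
  have hp2 := hp.two_le
  have h11 : f 1 = 0 := by
    have h1 := h 1 1 le_rfl (by omega) le_rfl (by omega)
    rw [Nat.mul_one, Nat.mod_eq_of_lt (by omega : 1 < p)] at h1
    linarith
  intro m hm1 hm2
  have hpow : ∀ k : ℕ, f (m ^ k % p) = k * f m := by
    intro k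
    induction k with
    | zero =>
      rw [pow_zero, Nat.mod_eq_of_lt (by omega : 1 < p), h11]
      simp
    | succ k ih =>
      obtain ⟨h3, h4⟩ := a3_mod hp hm1 hm2 k
      have h5 := h (m ^ k % p) m h3 h4 hm1 hm2
      have h6 : m ^ k % p * m % p = m ^ (k + 1) % p := by
        rw [Nat.mod_mul_mod, pow_succ]
      rw [h6, ih] at h5
      rw [← h5]
      push_cast
      ring
  have hF : m ^ (p - 1) % p = 1 := by
    haveI := Fact.mk hp
    have h7 : ((m : ℕ) : ZMod p) ≠ 0 := by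
      intro h0
      rw [ZMod.natCast_eq_zero_iff] at h0
      have h5 := Nat.le_of_dvd (by omega) h0
      omega
    have h8 := ZMod.pow_card_sub_one_eq_one h7
    have h9 : ((m ^ (p - 1) : ℕ) : ZMod p) = ((1 : ℕ) : ZMod p) := by
      push_cast
      exact h8
    rw [ZMod.natCast_eq_natCast_iff'] at h9
    rw [h9, Nat.mod_eq_of_lt (by omega : 1 < p)]
  have h10 := hpow (p - 1)
  rw [hF, h11] at h10
  have h12 : ((p - 1 : ℕ) : ℚ) ≠ 0 := by
    have : (p - 1 : ℕ) ≠ 0 := by omega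
    exact_mod_cast this
  rcases mul_eq_zero.1 h10.symm with h13 | h13
  · exact absurd h13 h12
  · exact h13

end Pool.Agent.QGC
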