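import Pool.Agent.QGC.AS

/-!
# QGC-A4: the function `A t (1 - t)` is locally constant (paper A.4)

PLAN. `x = t / s`: `1 - x = p * (-(w / s))`; `y = (1 - t) / (1 - s)`: `1 - y = p * (w / (1 - s))`; `z = x / y`: `1 - z = p * (-(w / (s * (1 - t))))`. By `h.st`:
`P x = - A x (w / s)`, `P y = - A y (w / (1 - s))`, `P z = - A z (w / (s * (1 - t)))` (`IsLog.neg`), and `P z = P x - P y`. Expand everything with `h.alt.left`, `h.alt.right`
(`IsLog.mul`, `IsLog.div`), in terms of `A t .., A s .., A (1 - t) .., A (1 - s) ..` at `w, s, 1 - t, 1 - s`; use `AltOn.swap` and `self`; the terms with `w` cancel; what remains is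
`- A t (1 - t) - A (1 - s) s = 0`. (Introduce names for the values and use `linarith`.)
-/

namespace Pool.Agent.QGC

theorem loc_const {p : ℕ} (hp : p ≠ 0) {A : ℚ → ℚ → ℚ} {P : ℚ → ℚ} (h : Star p A P) {t s w : ℚ}
    (ht : Sm p t) (hs : Sm p s) (h1t : Sm p (1 - t)) (h1s : Sm p (1 - s)) (hw : Sm p w)
    (he : t - s = p * w) : dd A t = dd A s := by
  have t0 := ht.1
  have s0 := hs.1
  have t1 := h1t.1
  have s1 := h1s.1
  have w0 := hw.1
  have hst0 : s * (1 - t) ≠ 0 := mul_ne_zero s0 t1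
  -- the three relations
  have ex : 1 - t / s = p * (-(w / s)) := by
    have h1 : (p : ℚ) * (-(w / s)) = -((p * w) / s) := by ring
    rw [h1, ← he]
    field_simp
    ring
  have ey : 1 - (1 - t) / (1 - s) = p * (w / (1 - s)) := by
    have h1 : (p : ℚ) * (w / (1 - s)) = (p * w) / (1 - s) := by ring
    rw [h1, ← he]
    field_simp
    ring
  have ez : 1 - t / s / ((1 - t) / (1 - s)) = p * (-(w / (s * (1 - t)))) := by
    have h1 : (p : ℚ) * (-(w / (s * (1 - t)))) = -((p * w) / (s * (1 - t))) := by ring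
    rw [h1, ← he]
    field_simp
    ring
  have x0 : t / s ≠ 0 := div_ne_zero t0 s0
  have y0 : (1 - t) / (1 - s) ≠ 0 := div_ne_zero t1 s1
  have hPx := h.st (t / s) (-(w / s)) (ht.div hs) (hw.div hs).neg ex
  have hPy := h.st ((1 - t) / (1 - s)) (w / (1 - s)) (h1t.div h1s) (hw.div h1s) ey
  have hPz := h.st (t / s / ((1 - t) / (1 - s))) (-(w / (s * (1 - t))))
    ((ht.div hs).div (h1t.div h1s)) (hw.div (hs.mul h1t)).neg ez
  rw [h.log.div x0 y0, hPx, hPy] at hPz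
  -- expansions
  have L : ∀ a b g : ℚ, a ≠ 0 → b ≠ 0 → g ≠ 0 → A (a / b) g = A a g - A b g := fun a b g ha hb hg =>
    (h.alt.left g hg).div ha hb
  have R : ∀ a g k : ℚ, a ≠ 0 → g ≠ 0 → k ≠ 0 → A a (g / k) = A a g - A a k := fun a g k ha hg hk =>
    (h.alt.right a ha).div hg hk
  have RM : ∀ a g k : ℚ, a ≠ 0 → g ≠ 0 → k ≠ 0 → A a (g * k) = A a g + A a k := fun a g k ha hg hk =>
    (h.alt.right a ha).mul hg hk
  have N : ∀ a g : ℚ, a ≠ 0 → A a (-g) = A a g := fun a g ha => (h.alt.right a ha).neg g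
  have ws : w / s ≠ 0 := div_ne_zero w0 s0
  have ws1 : w / (1 - s) ≠ 0 := div_ne_zero w0 s1
  have wst : w / (s * (1 - t)) ≠ 0 := div_ne_zero w0 hst0
  rw [N _ _ x0, N _ _ (div_ne_zero x0 y0), L _ _ _ x0 y0 wst, L _ _ _ t0 s0 ws,
    L _ _ _ t1 s1 ws1, L _ _ _ t0 s0 wst, L _ _ _ t1 s1 wst,
    R _ _ _ t0 w0 s0, R _ _ _ s0 w0 s0, R _ _ _ t1 w0 s1, R _ _ _ s1 w0 s1,
    R _ _ _ t0 w0 hst0, R _ _ _ s0 w0 hst0, R _ _ _ t1 w0 hst0, R _ _ _ s1 w0 hst0,
    RM _ _ _ t0 s0 t1, RM _ _ _ s0 s0 t1, RM _ _ _ t1 s0 t1, RM _ _ _ s1 s0 t1,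
    h.alt.self s hs, h.alt.self _ h1t, h.alt.self _ h1s] at hPz
  have sw1 := h.alt.swap hs h1t
  have sw2 := h.alt.swap h1s h1t
  have sw3 := h.alt.swap h1s hs
  unfold dd
  linarith

end Pool.Agent.QGC
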