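import Pool.Agent.QGC.AS

/-!
# QGC-A4B: the five-term relation for `A t (1 - t)`

Expansions of an alternating function which is logarithmic in both variables: inversion and complement for
`dd A t = A t (1 - t)`, and the five-term relation.
-/

namespace Pool.Agent.QGC

private theorem a4b_div {p : ℕ} {A : ℚ → ℚ → ℚ} (h : AltOn p A) {u v w z : ℚ} (hu : u ≠ 0)
    (hv : v ≠ 0) (hw : w ≠ 0) (hz : z ≠ 0) :
    A (u / v) (w / z) = A u w - A u z - A v w + A v z := by
  have h1 := (h.left (w / z) (div_ne_zero hw hz)).div hu hv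
  have h2 := (h.right u hu).div hw hz
  have h3 := (h.right v hv).div hw hz
  rw [h1, h2, h3]
  ring

theorem dd_inv {p : ℕ} {A : ℚ → ℚ → ℚ} (h : AltOn p A) {t : ℚ} (ht : Sm p t)
    (h1t : Sm p (1 - t)) : dd A t⁻¹ = - dd A t := by
  have ht0 := ht.1
  have e1 : 1 - t⁻¹ = -((1 - t) / t) := by
    field_simp
    ring
  unfold dd
  have h1 := (h.left (1 - t⁻¹) (by rw [e1]; exact neg_ne_zero.2 (div_ne_zero h1t.1 ht0))).inv ht0
  have h2 := (h.right t ht0).neg ((1 - t) / t)
  have h3 := (h.right t ht0).div h1t.1 ht0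
  rw [h1, e1, h2, h3, h.self t ht]
  ring

theorem dd_compl {p : ℕ} {A : ℚ → ℚ → ℚ} (h : AltOn p A) {t : ℚ} (ht : Sm p t)
    (h1t : Sm p (1 - t)) : dd A (1 - t) = - dd A t := by
  unfold dd
  rw [sub_sub_cancel]
  exact h.swap ht h1t

theorem five_altOn {p : ℕ} {A : ℚ → ℚ → ℚ} (h : AltOn p A) {x y : ℚ} (hx : Sm p x) (hy : Sm p y)
    (hx1 : Sm p (1 - x)) (hy1 : Sm p (1 - y)) (hxy : Sm p (x - y)) :
    dd A x - dd A y + dd A (y / x) - dd A ((1 - x⁻¹) / (1 - y⁻¹)) +
      dd A ((1 - x) / (1 - y)) = 0 := by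
  obtain ⟨a, ha⟩ : ∃ a, a = 1 - x := ⟨_, rfl⟩
  obtain ⟨b, hb⟩ : ∃ b, b = 1 - y := ⟨_, rfl⟩
  obtain ⟨e, he⟩ : ∃ e, e = x - y := ⟨_, rfl⟩
  have x0 := hx.1
  have y0 := hy.1
  have a0 : a ≠ 0 := by rw [ha]; exact hx1.1
  have b0 : b ≠ 0 := by rw [hb]; exact hy1.1
  have e0 : e ≠ 0 := by rw [he]; exact hxy.1
  have r1 : dd A x = A x a := by unfold dd; rw [ha]
  have r2 : dd A y = A y b := by unfold dd; rw [hb]
  have r3 : dd A (y / x) = A y e - A y x - A x e := by
    unfold dd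
    have h1 : 1 - y / x = e / x := by
      rw [he]; field_simp
    rw [h1, a4b_div h y0 x0 e0 x0, h.self x hx]
    ring
  have r5 : dd A ((1 - x) / (1 - y)) = A a e - A a b - A b e := by
    unfold dd
    rw [← ha, ← hb]
    have h1 : 1 - a / b = e / b := by
      have : e = b - a := by rw [ha, hb, he]; ring
      rw [this]; field_simp
    have hb' : Sm p b := by rw [hb]; exact hy1
    rw [h1, a4b_div h a0 b0 e0 b0, h.self b hb']
    ring
  have r4 : dd A ((1 - x⁻¹) / (1 - y⁻¹)) = A y e + A a e - A x e - A b e - A y x - A y b -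
      A a x - A a b + A x b + A b x := by
    unfold dd
    have h0 : (1 - x⁻¹) / (1 - y⁻¹) = (y * a) / (x * b) := by
      have e1 : 1 - x⁻¹ = -(a / x) := by rw [ha]; field_simp; ring
      have e2 : 1 - y⁻¹ = -(b / y) := by rw [hb]; field_simp; ring
      rw [e1, e2, neg_div_neg_eq]
      field_simp
    have h1 : 1 - (y * a) / (x * b) = e / (x * b) := by
      have e3 : e = x * b - y * a := by rw [ha, hb, he]; ring
      rw [e3]; field_simp
    have xb0 := mul_ne_zero x0 b0
    have ya0 := mul_ne_zero y0 a0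
    have hb' : Sm p b := by rw [hb]; exact hy1
    rw [h0, h1, a4b_div h ya0 xb0 e0 xb0]
    have m1 := (h.left e e0).mul y0 a0
    have m2 := (h.left (x * b) xb0).mul y0 a0
    have m3 := (h.left e e0).mul x0 b0
    have m4 := (h.left (x * b) xb0).mul x0 b0
    have m5 := (h.right y y0).mul x0 b0
    have m6 := (h.right a a0).mul x0 b0
    have m7 := (h.right x x0).mul x0 b0
    have m8 := (h.right b b0).mul x0 b0
    rw [m1, m2, m3, m4, m5, m6, m7, m8, h.self x hx, h.self b hb']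
    ring
  have ha' : Sm p a := by rw [ha]; exact hx1
  have hb' : Sm p b := by rw [hb]; exact hy1
  have s1 := h.swap hx ha'
  have s2 := h.swap hx hb'
  rw [r1, r2, r3, r4, r5]
  linarith

end Pool.Agent.QGC
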