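import Pool.Agent.QGC.A4

/-!
# QGC-A5: the hexagon (paper A.5)

The determinant of two points of the hexagon is less than `p * p` in absolute value, the function `dd A`
depends only on the residue of the ratio modulo `p`, and is therefore given by `be p A`.
-/

namespace Pool.Agent.QGC

private lemma qgcA5_aux {a b x y M c : ℤ} (hx : |x| ≤ M) (hy : |y| ≤ M) (h : |a| + |b| = |c|)
    (hc : |c| ≤ M) (hM : 0 ≤ M) : |a * x + b * y| ≤ M * M := by
  calc |a * x + b * y| ≤ |a * x| + |b * y| := abs_add_le _ _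
    _ = |a| * |x| + |b| * |y| := by rw [abs_mul, abs_mul]
    _ ≤ |a| * M + |b| * M := by gcongr
    _ = |c| * M := by rw [← add_mul, h]
    _ ≤ M * M := by gcongr

theorem hex_det {p : ℕ} {k l k' l' : ℤ} (h : Hex p k l) (h' : Hex p k' l') :
    |k * l' - k' * l| < (p : ℤ) * p := by
  obtain ⟨-, -, -, hk, hl, hkl⟩ := h
  obtain ⟨-, -, -, hk', hl', hkl'⟩ := h'
  have hp : (1 : ℤ) ≤ p := by
    have := abs_nonneg k
    omega
  have hM : (0 : ℤ) ≤ (p : ℤ) - 1 := by omega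
  have key : |k * l' - k' * l| ≤ ((p : ℤ) - 1) * ((p : ℤ) - 1) := by
    have b1 : |k| ≤ (p : ℤ) - 1 := by omega
    have b2 : |l| ≤ (p : ℤ) - 1 := by omega
    have b3 : |k - l| ≤ (p : ℤ) - 1 := by omega
    have b4 : |k'| ≤ (p : ℤ) - 1 := by omega
    have b5 : |l'| ≤ (p : ℤ) - 1 := by omega
    have b6 : |k' - l'| ≤ (p : ℤ) - 1 := by omega
    have b7 : |-k'| ≤ (p : ℤ) - 1 := by rwa [abs_neg]
    have b8 : |l' - k'| ≤ (p : ℤ) - 1 := by rwa [abs_sub_comm]
    have h1 : |k - l| + |l| = |k| ∨ |k - l| + |k| = |l| ∨ |k| + |l| = |k - l| := by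
      simp only [Int.abs_eq_natAbs]
      omega
    rcases h1 with h1 | h1 | h1
    · have := qgcA5_aux b5 b8 h1 b1 hM
      have e : k * l' - k' * l = (k - l) * l' + l * (l' - k') := by ring
      rw [e]
      exact this
    · have := qgcA5_aux b4 b8 h1 b2 hM
      have e : k * l' - k' * l = (k - l) * k' + k * (l' - k') := by ring
      rw [e]
      exact this
    · have := qgcA5_aux b5 b7 h1 b3 hM
      have e : k * l' - k' * l = k * l' + l * (-k') := by ring
      rw [e]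
      exact this
  nlinarith

theorem hex_eq {p : ℕ} (hp : p.Prime) {A : ℚ → ℚ → ℚ} {P : ℚ → ℚ} (h : Star p A P)
    {k l k' l' : ℤ} (hh : Hex p k l) (hh' : Hex p k' l') (hd : (p : ℤ) ∣ k * l' - k' * l) :
    dd A ((k : ℚ) / l) = dd A ((k' : ℚ) / l') := by
  obtain ⟨c, hc⟩ := hd
  have hp0 : (0 : ℤ) < p := by exact_mod_cast hp.pos
  have hl : (l : ℚ) ≠ 0 := by exact_mod_cast hh.l0
  have hl' : (l' : ℚ) ≠ 0 := by exact_mod_cast hh'.l0
  have hcq : (k : ℚ) * l' - k' * l = p * c := by exact_mod_cast hc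
  rcases eq_or_ne c 0 with rfl | hc0
  · have h1 : (k : ℚ) / l = (k' : ℚ) / l' := by
      rw [div_eq_div_iff hl hl']
      rw [Int.cast_zero, mul_zero] at hcq
      linarith
    rw [h1]
  · have hcp : |c| < p := by
      have h1 := hex_det hh hh'
      rw [hc, abs_mul, abs_of_pos hp0] at h1
      exact lt_of_mul_lt_mul_left h1 hp0.le
    have smi : ∀ m : ℤ, m ≠ 0 → |m| < p → Sm p (m : ℚ) := fun m h0 hm => Sm.int h0 (by
      rw [Int.abs_eq_natAbs] at hm
      exact_mod_cast hm)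
    have hw : Sm p ((c : ℚ) / ((l : ℚ) * l')) :=
      (smi c hc0 hcp).div ((smi l hh.l0 hh.hl).mul (smi l' hh'.l0 hh'.hl))
    refine loc_const hp.ne_zero h hh.sm.1 hh'.sm.1 hh.sm.2 hh'.sm.2 hw ?_
    rw [div_sub_div _ _ hl hl', ← mul_div_assoc, ← hcq, mul_comm (l : ℚ) (k' : ℚ)]

theorem hex_be {p : ℕ} [Fact p.Prime] {A : ℚ → ℚ → ℚ} {P : ℚ → ℚ} (h : Star p A P)
    {k l : ℤ} (hh : Hex p k l) :
    dd A ((k : ℚ) / l) = be p A ((k : ZMod p) / (l : ZMod p)) := by
  have hp : p.Prime := Fact.out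
  have nz : ∀ m : ℤ, m ≠ 0 → |m| < p → (m : ZMod p) ≠ 0 := by
    intro m h0 hm h1
    rw [ZMod.intCast_zmod_eq_zero_iff_dvd] at h1
    exact h0 (Int.eq_zero_of_abs_lt_dvd h1 hm)
  have hk := nz k hh.k0 hh.hk
  have hl := nz l hh.l0 hh.hl
  have hkl := nz (k - l) (sub_ne_zero.2 hh.ne) hh.hkl
  set x : ZMod p := (k : ZMod p) / (l : ZMod p) with hx
  have hx0 : x ≠ 0 := div_ne_zero hk hl
  have hx1 : x ≠ 1 := by
    intro h1
    rw [hx, div_eq_one_iff_eq hl] at h1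
    apply hkl
    rw [Int.cast_sub, h1, sub_self]
  have hv : ((x.val : ℕ) : ZMod p) = x := ZMod.natCast_zmod_val x
  have hvp : x.val < p := ZMod.val_lt x
  have hv0 : x.val ≠ 0 := fun h1 => hx0 ((ZMod.val_eq_zero x).1 h1)
  have hv1 : x.val ≠ 1 := by
    intro h1
    rw [h1, Nat.cast_one] at hv
    exact hx1 hv.symm
  have hh' : Hex p (x.val : ℤ) 1 := by
    refine ⟨by exact_mod_cast hv0, one_ne_zero, by exact_mod_cast hv1, ?_, ?_, ?_⟩
    · rw [Int.abs_eq_natAbs]; omega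
    · rw [Int.abs_eq_natAbs]; omega
    · rw [Int.abs_eq_natAbs]; omega
  have hd : (p : ℤ) ∣ k * 1 - (x.val : ℤ) * l := by
    rw [← ZMod.intCast_zmod_eq_zero_iff_dvd]
    push_cast
    rw [hv, hx, mul_one, div_mul_cancel₀ _ hl, sub_self]
  have key := hex_eq hp h hh hh' hd
  rw [key, be, if_neg (by simp [hx0, hx1])]
  norm_num

end Pool.Agent.QGC
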