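import Pool.Agent.QGC.A5

/-!
# QGC-A6: quotients of products of two small integers (paper A.6)

For two products `M`, `N` of two small integers with `0 < |M - N| < p` the value of `dd A` at `M / N` is given by
the function `be p A` on the residues modulo `p`.
-/

namespace Pool.Agent.QGC

private theorem qgcA6_hex {p : ℕ} (hp : 0 < p) {M N : ℕ} (hM : ¬ p ∣ M) (hN : ¬ p ∣ N)
    (hne : M ≠ N) (hlt : |(M : ℤ) - (N : ℤ)| < p) :
    Hex p ((M : ℤ) - p * ((max M N / p : ℕ) : ℤ)) ((N : ℤ) - p * ((max M N / p : ℕ) : ℤ)) := by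
  have hp0 : (0 : ℤ) < p := by exact_mod_cast hp
  set u : ℕ := max M N / p with hu
  have hdm := Nat.div_add_mod (max M N) p
  rw [← hu] at hdm
  have hmod := Nat.mod_lt (max M N) hp
  have hM0 : (M : ℤ) - p * (u : ℤ) ≠ 0 := by
    intro h
    apply hM
    have h1 : (p : ℤ) ∣ (M : ℤ) := ⟨(u : ℤ), by linarith⟩
    exact_mod_cast h1
  have hN0 : (N : ℤ) - p * (u : ℤ) ≠ 0 := by
    intro h
    apply hN
    have h1 : (p : ℤ) ∣ (N : ℤ) := ⟨(u : ℤ), by linarith⟩
    exact_mod_cast h1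
  have hdmZ : (p : ℤ) * (u : ℤ) + ((max M N % p : ℕ) : ℤ) = ((max M N : ℕ) : ℤ) := by
    exact_mod_cast hdm
  have hmodZ : ((max M N % p : ℕ) : ℤ) < p := by exact_mod_cast hmod
  have hmod0 : (0 : ℤ) ≤ ((max M N % p : ℕ) : ℤ) := Int.natCast_nonneg _
  have hneZ : (M : ℤ) ≠ N := by exact_mod_cast hne
  have hl := abs_lt.1 hlt
  generalize ((max M N % p : ℕ) : ℤ) = r at *
  generalize (p : ℤ) * (u : ℤ) = v at *
  refine ⟨hM0, hN0, ?_, ?_, ?_, ?_⟩
  · intro h
    apply hneZ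
    linarith
  · rw [abs_lt]
    rcases le_total M N with h | h
    · rw [max_eq_right h] at hdmZ
      have hZ : (M : ℤ) ≤ N := by exact_mod_cast h
      constructor <;> omega
    · rw [max_eq_left h] at hdmZ
      constructor <;> omega
  · rw [abs_lt]
    rcases le_total M N with h | h
    · rw [max_eq_right h] at hdmZ
      constructor <;> omega
    · rw [max_eq_left h] at hdmZ
      have hZ : (N : ℤ) ≤ M := by exact_mod_cast h
      constructor <;> omega
  · have e : (M : ℤ) - v - (N - v) = M - N := by ring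
    rw [e]
    exact hlt

theorem prod_be {p : ℕ} [Fact p.Prime] {A : ℚ → ℚ → ℚ} {P : ℚ → ℚ} (h : Star p A P)
    {a b c d : ℕ} (ha : 1 ≤ a) (ha' : a < p) (hb : 1 ≤ b) (hb' : b < p) (hc : 1 ≤ c) (hc' : c < p)
    (hd : 1 ≤ d) (hd' : d < p) (hne : a * b ≠ c * d)
    (hlt : |((a * b : ℕ) : ℤ) - ((c * d : ℕ) : ℤ)| < p) :
    dd A (((a * b : ℕ) : ℚ) / ((c * d : ℕ) : ℚ)) =
      be p A (((a * b : ℕ) : ZMod p) / ((c * d : ℕ) : ZMod p)) := by
  have hp : p.Prime := Fact.out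
  have hndvd : ∀ m n : ℕ, 1 ≤ m → m < p → 1 ≤ n → n < p → ¬ p ∣ m * n := by
    intro m n hm hm' hn hn' h1
    rcases (Nat.Prime.dvd_mul hp).1 h1 with h2 | h2
    · exact absurd (Nat.le_of_dvd hm h2) (by omega)
    · exact absurd (Nat.le_of_dvd hn h2) (by omega)
  have hM := hndvd a b ha ha' hb hb'
  have hN := hndvd c d hc hc' hd hd'
  have hMlt : a * b < p * p := Nat.mul_lt_mul'' ha' hb'
  have hNlt : c * d < p * p := Nat.mul_lt_mul'' hc' hd'
  have hSM : Sm p ((a * b : ℕ) : ℚ) := by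
    rw [Nat.cast_mul]
    exact (Sm.nat (by omega) ha').mul (Sm.nat (by omega) hb')
  have hSN : Sm p ((c * d : ℕ) : ℚ) := by
    rw [Nat.cast_mul]
    exact (Sm.nat (by omega) hc').mul (Sm.nat (by omega) hd')
  have hH := qgcA6_hex hp.pos hM hN hne hlt
  generalize hMM : a * b = M at *
  generalize hNN : c * d = N at *
  have hu : max M N / p < p := by
    rw [Nat.div_lt_iff_lt_mul hp.pos]
    exact max_lt hMlt hNlt
  generalize hUU : max M N / p = u at *
  have hbe := hex_be h hH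
  have e1 : (((M : ℤ) - p * (u : ℤ) : ℤ) : ZMod p) = (M : ZMod p) := by
    push_cast
    simp
  have e2 : (((N : ℤ) - p * (u : ℤ) : ℤ) : ZMod p) = (N : ZMod p) := by
    push_cast
    simp
  rw [e1, e2] at hbe
  rw [← hbe]
  rcases Nat.eq_zero_or_pos u with hu0 | hu0
  · rw [hu0]
    simp
  · have hsm := hH.sm
    have hr2 : (((N : ℤ) - p * (u : ℤ) : ℤ) : ℚ) ≠ 0 := by exact_mod_cast hH.l0
    have hN0 : (N : ℚ) ≠ 0 := hSN.1
    have hd1 : Sm p (((N : ℤ) - (M : ℤ) : ℤ) : ℚ) := by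
      refine Sm.int (sub_ne_zero.2 fun h1 => hne (by exact_mod_cast h1.symm)) ?_
      have h1 := hlt
      rw [abs_sub_comm, Int.abs_eq_natAbs] at h1
      exact_mod_cast h1
    have hr2s : Sm p (((N : ℤ) - p * (u : ℤ) : ℤ) : ℚ) := by
      refine Sm.int hH.l0 ?_
      have h1 := hH.hl
      rw [Int.abs_eq_natAbs] at h1
      exact_mod_cast h1
    have hus : Sm p (u : ℚ) := Sm.nat (by omega) hu
    have hw : Sm p ((u : ℚ) * (((N : ℤ) - (M : ℤ) : ℤ) : ℚ) /
        ((N : ℚ) * (((N : ℤ) - p * (u : ℤ) : ℤ) : ℚ))) :=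
      (hus.mul hd1).div (hSN.mul hr2s)
    have h1t : Sm p (1 - (M : ℚ) / (N : ℚ)) := by
      have e : 1 - (M : ℚ) / (N : ℚ) = (((N : ℤ) - (M : ℤ) : ℤ) : ℚ) / (N : ℚ) := by
        push_cast
        field_simp
      rw [e]
      exact hd1.div hSN
    refine loc_const hp.ne_zero h (hSM.div hSN) hsm.1 h1t hsm.2 hw ?_
    push_cast at hr2 ⊢
    field_simp
    ring

end Pool.Agent.QGC
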