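import Pool.Agent.QGC.A2
import Pool.Agent.QGC.A4B
import Pool.Agent.QGC.A6

/-!
# QGC-A7: the function on `ℤ/p` vanishes (paper A.7)

`avg_field` for `K = ZMod p`, `be p A`: the relations follow from the relations for `dd A` at the representatives
`X, Y` in `[2, p - 1]` (`dd_inv`, `dd_compl`, `five_altOn`), by `hex_be` (hexagon) and `prod_be`.
-/

namespace Pool.Agent.QGC

private theorem A7_rep {p : ℕ} [Fact p.Prime] {x : ZMod p} (h0 : x ≠ 0) (h1 : x ≠ 1) :
    2 ≤ x.val ∧ x.val < p := by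
  refine ⟨?_, ZMod.val_lt x⟩
  have h2 : x.val ≠ 0 := fun h => h0 ((ZMod.val_eq_zero x).1 h)
  have h3 : x.val ≠ 1 := by
    intro h
    apply h1
    have := ZMod.natCast_zmod_val x
    rw [h] at this
    rw [← this, Nat.cast_one]
  omega

private theorem A7_be {p : ℕ} {A : ℚ → ℚ → ℚ} {x : ZMod p} (h0 : x ≠ 0)
    (h1 : x ≠ 1) : be p A x = dd A (x.val : ℚ) := by
  unfold be
  rw [if_neg]
  rintro (h | h)
  · exact h0 h
  · exact h1 h

private theorem A7_hex {p : ℕ} {k l : ℤ} (k0 : k ≠ 0) (l0 : l ≠ 0) (ne : k ≠ l)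
    (hk : -(p : ℤ) < k ∧ k < p) (hl : -(p : ℤ) < l ∧ l < p)
    (hkl : -(p : ℤ) < k - l ∧ k - l < p) : Hex p k l :=
  ⟨k0, l0, ne, abs_lt.2 hk, abs_lt.2 hl, abs_lt.2 hkl⟩

private theorem A7_sm {p : ℕ} {m : ℤ} (h0 : m ≠ 0) (h : -(p : ℤ) < m ∧ m < p) :
    Sm p (m : ℚ) := Sm.int h0 (by omega)

theorem be_zero {p : ℕ} [Fact p.Prime] {A : ℚ → ℚ → ℚ} {P : ℚ → ℚ} (h : Star p A P)
    (x : ZMod p) : be p A x = 0 := by
  refine avg_field (be p A) (by simp [be]) (by simp [be]) ?_ ?_ ?_ x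
  · intro x h0 h1
    obtain ⟨hx, hx'⟩ := A7_rep h0 h1
    have hc : ((x.val : ℕ) : ZMod p) = x := ZMod.natCast_zmod_val x
    rw [A7_be h0 h1]
    generalize hX : x.val = X at *
    have h2 : Hex p 1 (X : ℤ) :=
      A7_hex (by omega) (by omega) (by omega) (by omega) (by omega) (by omega)
    have h3 := hex_be h h2
    have h4 : ((1 : ℤ) : ZMod p) / (((X : ℕ) : ℤ) : ZMod p) = x⁻¹ := by
      rw [Int.cast_natCast, hc, Int.cast_one, one_div]
    rw [h4] at h3
    rw [← h3, Int.cast_one, Int.cast_natCast, one_div]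
    refine dd_inv h.alt ?_ ?_
    · exact A7_sm (m := (X : ℤ)) (by omega) (by omega)
    · have := A7_sm (p := p) (m := 1 - (X : ℤ)) (by omega) (by omega)
      push_cast at this
      exact this
  · intro x h0 h1
    obtain ⟨hx, hx'⟩ := A7_rep h0 h1
    have hc : ((x.val : ℕ) : ZMod p) = x := ZMod.natCast_zmod_val x
    rw [A7_be h0 h1]
    generalize hX : x.val = X at *
    have h2 : Hex p (1 - (X : ℤ)) 1 :=
      A7_hex (by omega) (by omega) (by omega) (by omega) (by omega) (by omega)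
    have h3 := hex_be h h2
    have h4 : ((1 - ((X : ℕ) : ℤ) : ℤ) : ZMod p) / ((1 : ℤ) : ZMod p) = 1 - x := by
      rw [Int.cast_sub, Int.cast_natCast, hc, Int.cast_one, div_one]
    rw [h4] at h3
    rw [← h3, Int.cast_sub, Int.cast_one, Int.cast_natCast, div_one]
    refine dd_compl h.alt ?_ ?_
    · exact A7_sm (m := (X : ℤ)) (by omega) (by omega)
    · have := A7_sm (p := p) (m := 1 - (X : ℤ)) (by omega) (by omega)
      push_cast at this
      exact this
  · intro x y h0 h1 k0 k1 hxy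
    obtain ⟨hx, hx'⟩ := A7_rep h0 h1
    obtain ⟨hy, hy'⟩ := A7_rep k0 k1
    have hcx : ((x.val : ℕ) : ZMod p) = x := ZMod.natCast_zmod_val x
    have hcy : ((y.val : ℕ) : ZMod p) = y := ZMod.natCast_zmod_val y
    rw [A7_be h0 h1, A7_be k0 k1]
    have hne : x.val ≠ y.val := by
      intro e
      apply hxy
      rw [← hcx, e, hcy]
    generalize hX : x.val = X at *
    generalize hY : y.val = Y at *
    -- the hexagon `(Y, X)`
    have a1 := hex_be h (A7_hex (p := p) (k := (Y : ℤ)) (l := (X : ℤ)) (by omega) (by omega)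
      (by omega) (by omega) (by omega) (by omega))
    rw [Int.cast_natCast, Int.cast_natCast, Int.cast_natCast, Int.cast_natCast, hcx, hcy] at a1
    -- the hexagon `(1 - X, 1 - Y)`
    have a2 := hex_be h (A7_hex (p := p) (k := 1 - (X : ℤ)) (l := 1 - (Y : ℤ)) (by omega)
      (by omega) (by omega) (by omega) (by omega) (by omega))
    rw [Int.cast_sub, Int.cast_sub, Int.cast_sub, Int.cast_sub, Int.cast_natCast,
      Int.cast_natCast, Int.cast_natCast, Int.cast_natCast, hcx, hcy, Int.cast_one,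
      Int.cast_one] at a2
    -- the product
    obtain ⟨X', rfl⟩ : ∃ X', X = X' + 1 := ⟨X - 1, by omega⟩
    obtain ⟨Y', rfl⟩ : ∃ Y', Y = Y' + 1 := ⟨Y - 1, by omega⟩
    have e1 : (((Y' + 1) * X' : ℕ) : ℤ) - (((X' + 1) * Y' : ℕ) : ℤ) = (X' : ℤ) - Y' := by
      push_cast; ring
    have a3 := prod_be h (a := Y' + 1) (b := X') (c := X' + 1) (d := Y') (by omega) (by omega)
      (by omega) (by omega) (by omega) (by omega) (by omega) (by omega)
      (by
        intro e
        have e2 := congrArg (fun n : ℕ => (n : ℤ)) e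
        rw [← sub_eq_zero, e1] at e2
        omega)
      (by rw [e1, abs_lt]; omega)
    have e3 : ((((Y' + 1) * X' : ℕ) : ZMod p) / (((X' + 1) * Y' : ℕ) : ZMod p)) =
        (1 - x⁻¹) / (1 - y⁻¹) := by
      have hx1 : (X' : ZMod p) = x - 1 := by
        rw [← hcx]; push_cast; ring
      have hy1 : (Y' : ZMod p) = y - 1 := by
        rw [← hcy]; push_cast; ring
      have hy2 : y - 1 ≠ 0 := sub_ne_zero.2 k1
      have hy3 : 1 - y⁻¹ ≠ 0 := sub_ne_zero.2 fun e => k1 (inv_eq_one.1 e.symm)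
      rw [Nat.cast_mul, Nat.cast_mul, hcx, hcy, hx1, hy1, div_eq_div_iff (mul_ne_zero h0 hy2) hy3]
      field_simp
    have e4 : ((((Y' + 1) * X' : ℕ) : ℚ) / (((X' + 1) * Y' : ℕ) : ℚ)) =
        (1 - (((X' + 1 : ℕ) : ℚ))⁻¹) / (1 - (((Y' + 1 : ℕ) : ℚ))⁻¹) := by
      have hX0 : ((X' + 1 : ℕ) : ℚ) ≠ 0 := by positivity
      have hY0 : ((Y' + 1 : ℕ) : ℚ) ≠ 0 := by positivity
      have hY1 : (Y' : ℚ) ≠ 0 := by
        have : Y' ≠ 0 := by omega
        exact_mod_cast this
      have hY2 : 1 - (((Y' + 1 : ℕ) : ℚ))⁻¹ ≠ 0 := by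
        have : 1 - (((Y' + 1 : ℕ) : ℚ))⁻¹ = Y' / ((Y' + 1 : ℕ) : ℚ) := by
          field_simp
          push_cast
          ring
        rw [this]
        exact div_ne_zero hY1 hY0
      rw [Nat.cast_mul, Nat.cast_mul, div_eq_div_iff (mul_ne_zero hX0 hY1) hY2]
      field_simp
      push_cast
      ring
    rw [e3, e4] at a3
    have hf := five_altOn h.alt (x := ((X' + 1 : ℕ) : ℚ)) (y := ((Y' + 1 : ℕ) : ℚ))
      (Sm.nat (by omega) (by omega)) (Sm.nat (by omega) (by omega))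
      (by
        have := A7_sm (p := p) (m := 1 - ((X' + 1 : ℕ) : ℤ)) (by omega) (by omega)
        rw [Int.cast_sub, Int.cast_one, Int.cast_natCast] at this
        exact this)
      (by
        have := A7_sm (p := p) (m := 1 - ((Y' + 1 : ℕ) : ℤ)) (by omega) (by omega)
        rw [Int.cast_sub, Int.cast_one, Int.cast_natCast] at this
        exact this)
      (by
        have := A7_sm (p := p) (m := ((X' + 1 : ℕ) : ℤ) - ((Y' + 1 : ℕ) : ℤ)) (by omega)
          (by omega)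
        rw [Int.cast_sub, Int.cast_natCast, Int.cast_natCast] at this
        exact this)
    rw [a1, a2, a3] at hf
    exact hf

theorem hex_zero {p : ℕ} (hp : p.Prime) {A : ℚ → ℚ → ℚ} {P : ℚ → ℚ} (h : Star p A P) {k l : ℤ}
    (hh : Hex p k l) : dd A ((k : ℚ) / l) = 0 := by
  haveI : Fact p.Prime := ⟨hp⟩
  rw [hex_be h hh, be_zero h]

end Pool.Agent.QGC
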