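import Pool.Agent.QGC.ADefs

/-!
# QGC-AS: small lemmas

PLAN. `of_not_prime`: a prime `q ≥ n` is `≥ n + 1`. `exists_sm`: all primes of `num` and `den` are at most `max` (for `q > num.natAbs` and `q > den` the valuation is `0`).
`log_zero`: `IsLog.sm_eq_zero`. `AltOn.swap`: `A (x * y) (x * y) = 0` expanded (compare `IsAlt.swap` in Defs). `Trl.swap`: the same.
-/

namespace Pool.Agent.QGC

theorem Sm.of_not_prime {n : ℕ} {x : ℚ} (hn : ¬ n.Prime) (hx : Sm (n + 1) x) : Sm n x := by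
  refine ⟨hx.1, fun q hq hn' => hx.2 q hq ?_⟩
  rcases Nat.lt_or_ge n q with h | h
  · exact h
  · exact absurd (le_antisymm hn' h ▸ hq) hn

theorem exists_sm {x : ℚ} (hx : x ≠ 0) : ∃ n, Sm n x := by
  refine ⟨max x.num.natAbs x.den + 1, ?_⟩
  rw [← Rat.num_div_den x]
  have h1 : Sm (max x.num.natAbs x.den + 1) (x.num : ℚ) :=
    Sm.int (Rat.num_ne_zero.2 hx) (by omega)
  have h2 : Sm (max x.num.natAbs x.den + 1) (x.den : ℚ) := Sm.nat x.den_nz (by omega)
  rw [Rat.num_div_den x]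
  have h3 := h1.div h2
  rwa [Rat.num_div_den x] at h3

theorem exists_sm2 {x y : ℚ} (hx : x ≠ 0) (hy : y ≠ 0) : ∃ n, Sm n x ∧ Sm n y := by
  obtain ⟨n, hn⟩ := exists_sm hx
  obtain ⟨m, hm⟩ := exists_sm hy
  exact ⟨max n m, hn.mono (le_max_left _ _), hm.mono (le_max_right _ _)⟩

theorem log_zero {f : ℚ → ℚ} (h : IsLog f) {p : ℕ} (hf : ∀ m : ℕ, 1 ≤ m → m < p → f m = 0)
    {x : ℚ} (hx : Sm p x) : f x = 0 :=
  h.sm_eq_zero (fun q hq hlt => hf q hq.one_lt.le hlt) hx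

/-- a function which is logarithmic in both variables and vanishes at the integers in `[1, p - 1]` -/
theorem log_zero2 {f : ℚ → ℚ → ℚ} (h1 : ∀ y, y ≠ 0 → IsLog fun x => f x y)
    (h2 : ∀ x, x ≠ 0 → IsLog (f x)) {p : ℕ}
    (hf : ∀ m n : ℕ, 1 ≤ m → m < p → 1 ≤ n → n < p → f m n = 0)
    {x y : ℚ} (hx : Sm p x) (hy : Sm p y) : f x y = 0 := by
  refine log_zero (h2 x hx.1) (fun n hn hn' => ?_) hy
  exact log_zero (h1 n (by positivity)) (fun m hm hm' => hf m n hm hm' hn hn') hx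

theorem AltOn.swap {p : ℕ} {A : ℚ → ℚ → ℚ} (h : AltOn p A) {x y : ℚ} (hx : Sm p x) (hy : Sm p y) :
    A y x = - A x y := by
  have hxy := hx.mul hy
  have h1 := h.self (x * y) hxy
  have h2 := h.left (x * y) hxy.1 x y hx.1 hy.1
  have h3 := h.right x hx.1 x y hx.1 hy.1
  have h4 := h.right y hy.1 x y hx.1 hy.1
  simp only at h2
  rw [h.self x hx] at h3
  rw [h.self y hy] at h4
  rw [h2, h3, h4] at h1
  linarith

theorem Trl.swap {T : ℚ → ℚ → ℚ → ℚ} (h : Trl T) {x y z : ℚ} (hx : x ≠ 0) (hy : y ≠ 0)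
    (hz : z ≠ 0) : T y x z = - T x y z := by
  have hxy := mul_ne_zero hx hy
  have h1 := h.self (x * y) z hxy hz
  have h2 := h.log1 (x * y) z hxy hz x y hx hy
  have h3 := h.log2 x z hx hz x y hx hy
  have h4 := h.log2 y z hy hz x y hx hy
  simp only at h2 h3 h4
  rw [h.self x z hx hz] at h3
  rw [h.self y z hy hz] at h4
  rw [h2, h3, h4] at h1
  linarith

/-- the hook relation for `v = w` -/
theorem Hk.self {p : ℕ} {T : ℚ → ℚ → ℚ → ℚ} (h : Hk p T) {u v : ℚ} (hu : Sm p u) (hv : Sm p v) :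
    T u v v = 0 := by
  have h1 := h u v v hu hv hv
  linarith

/-- the points of the hexagon -/
theorem Hex.sm {p : ℕ} {k l : ℤ} (h : Hex p k l) :
    Sm p ((k : ℚ) / l) ∧ Sm p (1 - (k : ℚ) / l) := by
  have hk : Sm p (k : ℚ) := Sm.int h.k0 (by
    have := h.hk
    rw [Int.abs_eq_natAbs] at this
    exact_mod_cast this)
  have hl : Sm p (l : ℚ) := Sm.int h.l0 (by
    have := h.hl
    rw [Int.abs_eq_natAbs] at this
    exact_mod_cast this)
  have hkl : Sm p ((k - l : ℤ) : ℚ) := Sm.int (sub_ne_zero.2 h.ne) (by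
    have := h.hkl
    rw [Int.abs_eq_natAbs] at this
    exact_mod_cast this)
  refine ⟨hk.div hl, ?_⟩
  have h1 : 1 - (k : ℚ) / l = -(((k - l : ℤ) : ℚ) / l) := by
    have := hl.1
    push_cast
    field_simp
    ring
  rw [h1]
  exact (hkl.div hl).neg

end Pool.Agent.QGC
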