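import Pool.Agent.QGC.A3
import Pool.Agent.QGC.AS

/-!
# QGC-A8: induction over the primes (paper A.8)

`step_q`: `hom_zero` for `f m = A m q`: for `m, n ∈ [1, q - 1]`, `r = m * n % q ≥ 1` (`q` prime), `c = m * n / q < q`, `m * n = r + q * c`. If `c = 0`: `A (m * n) q = A r q` with `left`. If `c ≥ 1`: by `hd`
`0 = A (r / (m * n)) (1 - r / (m * n))`, `1 - r / (m * n) = q * c / (m * n)`; expand in the second variable: `A x q + A x c - A x m - A x n`, `x = r / (m * n)`; the last three vanish by `ih` (expand the first variable: `r, m, n, c ∈ [1, q - 1]`), and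
`A x q = A r q - A m q - A n q`.
`alt_ind`: by induction on `k`: `∀ m n ∈ [1, k]`, `k < N → A m n = 0`. Step: it is enough to have `A m k = 0` for `1 ≤ m < k` (`hsw`; `A k k = 0` by `hsw`). `k` not prime, `k = a * b` with `a, b < k`: `right`. `k` prime: `step_q`.
-/

namespace Pool.Agent.QGC

theorem step_q {q : ℕ} (hq : q.Prime) {A : ℚ → ℚ → ℚ} (hl : ∀ y, y ≠ 0 → IsLog fun x => A x y)
    (hr : ∀ x, x ≠ 0 → IsLog (A x))
    (ih : ∀ m n : ℕ, 1 ≤ m → m < q → 1 ≤ n → n < q → A m n = 0)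
    (hd : ∀ m n r c : ℕ, 1 ≤ m → m < q → 1 ≤ n → n < q → 1 ≤ r → r < q → 1 ≤ c → c < q →
      m * n = r + q * c → dd A ((r : ℚ) / ((m : ℚ) * n)) = 0) :
    ∀ m : ℕ, 1 ≤ m → m < q → A m q = 0 := by
  refine hom_zero hq (fun m => A m q) ?_
  intro m n hm hm' hn hn'
  change A m q + A n q = A ((m * n % q : ℕ) : ℚ) q
  have hq0 : (q : ℚ) ≠ 0 := by exact_mod_cast hq.ne_zero
  have hm0 : (m : ℚ) ≠ 0 := by exact_mod_cast (show m ≠ 0 by omega)
  have hn0 : (n : ℚ) ≠ 0 := by exact_mod_cast (show n ≠ 0 by omega)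
  have hmn : m * n = m * n % q + q * (m * n / q) := (Nat.mod_add_div _ _).symm
  have hr1 : 1 ≤ m * n % q := by
    rw [Nat.one_le_iff_ne_zero]
    intro h0
    rcases (hq.dvd_mul.1 (Nat.dvd_of_mod_eq_zero h0)) with h | h
    · exact absurd (Nat.le_of_dvd (by omega) h) (by omega)
    · exact absurd (Nat.le_of_dvd (by omega) h) (by omega)
  have hr2 : m * n % q < q := Nat.mod_lt _ hq.pos
  have hc2 : m * n / q < q :=
    Nat.div_lt_of_lt_mul (Nat.mul_lt_mul'' hm' hn')
  generalize m * n % q = r at hmn hr1 hr2 ⊢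
  generalize m * n / q = c at hmn hc2
  have hr0 : (r : ℚ) ≠ 0 := by exact_mod_cast (show r ≠ 0 by omega)
  rcases Nat.eq_zero_or_pos c with hc | hc
  · rw [hc, mul_zero, add_zero] at hmn
    rw [← hmn, Nat.cast_mul]
    exact (hl q hq0 m n hm0 hn0).symm
  · have hc0 : (c : ℚ) ≠ 0 := by exact_mod_cast hc.ne'
    have hmn0 : (m : ℚ) * n ≠ 0 := mul_ne_zero hm0 hn0
    have hx0 : (r : ℚ) / ((m : ℚ) * n) ≠ 0 := div_ne_zero hr0 hmn0
    have h1 := hd m n r c hm hm' hn hn' hr1 hr2 hc hc2 hmn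
    have h2 : 1 - (r : ℚ) / ((m : ℚ) * n) = ((q : ℚ) * c) / ((m : ℚ) * n) := by
      have h3 : (m : ℚ) * n = r + q * c := by exact_mod_cast hmn
      field_simp
      linear_combination h3
    unfold dd at h1
    rw [h2] at h1
    have hR := hr _ hx0
    rw [hR.div (mul_ne_zero hq0 hc0) hmn0, hR.mul hq0 hc0, hR.mul hm0 hn0] at h1
    have key : ∀ y : ℚ, y ≠ 0 → A ((r : ℚ) / ((m : ℚ) * n)) y = A r y - (A m y + A n y) := by
      intro y hy
      have h4 : A ((r : ℚ) / ((m : ℚ) * n)) y = A r y - A ((m : ℚ) * n) y :=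
        (hl y hy).div hr0 hmn0
      have h5 : A ((m : ℚ) * n) y = A m y + A n y := (hl y hy).mul hm0 hn0
      rw [h4, h5]
    rw [key _ hq0, key _ hc0, key _ hm0, key _ hn0, ih r c hr1 hr2 hc hc2, ih m c hm hm' hc hc2,
      ih n c hn hn' hc hc2, ih r m hr1 hr2 hm hm', ih m m hm hm' hm hm', ih n m hn hn' hm hm',
      ih r n hr1 hr2 hn hn', ih m n hm hm' hn hn', ih n n hn hn' hn hn'] at h1
    linarith

theorem alt_ind {N : ℕ} {A : ℚ → ℚ → ℚ} (hl : ∀ y, y ≠ 0 → IsLog fun x => A x y)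
    (hr : ∀ x, x ≠ 0 → IsLog (A x))
    (hsw : ∀ m n : ℕ, 1 ≤ m → m < N → 1 ≤ n → n < N → A m n = - A n m)
    (hd : ∀ q : ℕ, q.Prime → q < N → ∀ m n r c : ℕ, 1 ≤ m → m < q → 1 ≤ n → n < q → 1 ≤ r →
      r < q → 1 ≤ c → c < q → m * n = r + q * c → dd A ((r : ℚ) / ((m : ℚ) * n)) = 0) :
    ∀ m n : ℕ, 1 ≤ m → m < N → 1 ≤ n → n < N → A m n = 0 := by
  have key : ∀ k : ℕ, k < N → ∀ m n : ℕ, 1 ≤ m → m ≤ k → 1 ≤ n → n ≤ k → A m n = 0 := by
    intro k
    induction k with
    | zero =>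
      intro _ m n hm hm' _ _
      omega
    | succ k ih =>
      intro hk
      have ih' := ih (by omega)
      have hlast : ∀ m : ℕ, 1 ≤ m → m ≤ k → A m ((k + 1 : ℕ) : ℚ) = 0 := by
        intro m hm hm'
        by_cases hp : (k + 1).Prime
        · exact step_q hp hl hr (fun m n h1 h2 h3 h4 => ih' m n h1 (by omega) h3 (by omega))
            (hd (k + 1) hp hk) m hm (by omega)
        · obtain ⟨a, b, ha, hb, hab⟩ :=
            (Nat.not_prime_iff_exists_mul_eq (by omega)).1 hp
          have ha0 : a ≠ 0 := by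
            rintro rfl
            rw [zero_mul] at hab
            omega
          have hb0 : b ≠ 0 := by
            rintro rfl
            rw [mul_zero] at hab
            omega
          rw [← hab, Nat.cast_mul, hr m (by exact_mod_cast (show m ≠ 0 by omega)) a b
            (by exact_mod_cast ha0) (by exact_mod_cast hb0),
            ih' m a hm hm' (by omega) (by omega), ih' m b hm hm' (by omega) (by omega), add_zero]
      intro m n hm hm' hn hn'
      rcases Nat.lt_or_ge k m with h | h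
      · obtain rfl : m = k + 1 := by omega
        rcases Nat.lt_or_ge k n with h' | h'
        · obtain rfl : n = k + 1 := by omega
          have h1 := hsw (k + 1) (k + 1) hm hk hm hk
          linarith
        · rw [hsw (k + 1) n hm hk hn (by omega), hlast n hn h', neg_zero]
      · rcases Nat.lt_or_ge k n with h' | h'
        · obtain rfl : n = k + 1 := by omega
          exact hlast m hm h
        · exact ih' m n hm h hn h'
  intro m n hm hm' hn hn'
  exact key (max m n) (max_lt hm' hn') m n hm (le_max_left _ _) hn (le_max_right _ _)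

end Pool.Agent.QGC
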