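import Pool.Agent.QGC.A4
import Pool.Agent.QGC.A7

/-!
# QGC-A8B: the values needed in the induction (paper A.8)

If `m * n < p`, then `(r, m * n)` is a point of the hexagon. Otherwise `m * n = r₂ + p c₂` with
`r₂ = m * n % p`, and the value at `r / (m * n)` is the value at `r / r₂`, a point of the hexagon.
-/

namespace Pool.Agent.QGC

private theorem A8B_hex {p a b : ℕ} (ha : 1 ≤ a) (hb : 1 ≤ b) (hap : a < p) (hbp : b < p)
    (hab : a ≠ b) : Hex p (a : ℤ) (b : ℤ) := by
  refine ⟨by omega, by omega, by exact_mod_cast hab, ?_, ?_, ?_⟩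
  · rw [abs_lt]
    constructor <;> omega
  · rw [abs_lt]
    constructor <;> omega
  · rw [abs_lt]
    constructor <;> omega

theorem star_dd {p : ℕ} (hp : p.Prime) {A : ℚ → ℚ → ℚ} {P : ℚ → ℚ} (h : Star p A P) {q : ℕ}
    (hq : q.Prime) (hqp : q < p) {m n r c : ℕ} (hm : 1 ≤ m) (hm' : m < q) (hn : 1 ≤ n)
    (hn' : n < q) (hr : 1 ≤ r) (hr' : r < q) (hc : 1 ≤ c) (hc' : c < q)
    (he : m * n = r + q * c) : dd A ((r : ℚ) / ((m : ℚ) * n)) = 0 := by
  have hq2 : 2 ≤ q := hq.two_le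
  have hqc : 1 ≤ q * c := Nat.mul_pos (by omega) (by omega)
  have hrmn : r < m * n := by omega
  rcases Nat.lt_or_ge (m * n) p with hlt | hge
  · have h1 : Hex p (r : ℤ) ((m * n : ℕ) : ℤ) :=
      A8B_hex hr (by omega) (by omega) hlt (by omega)
    have h2 := hex_zero hp h h1
    push_cast at h2
    exact h2
  · -- the general case
    set r₂ : ℕ := m * n % p with hr₂
    set c₂ : ℕ := m * n / p with hc₂
    have hpp : 0 < p := hp.pos
    have hdiv : m * n = r₂ + p * c₂ := (Nat.mod_add_div (m * n) p).symm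
    have hr₂p : r₂ < p := Nat.mod_lt _ hpp
    have hc₂1 : 1 ≤ c₂ := Nat.div_pos hge hpp
    have hmnp : m * n < p * p := by
      calc m * n < p * n := Nat.mul_lt_mul_of_pos_right (by omega) (by omega)
        _ ≤ p * p := Nat.mul_le_mul_left p (by omega)
    have hc₂p : c₂ < p := Nat.div_lt_of_lt_mul hmnp
    have hr₂0 : r₂ ≠ 0 := by
      intro h0
      have h1 : p ∣ m * n := Nat.dvd_of_mod_eq_zero h0
      rcases (Nat.Prime.dvd_mul hp).1 h1 with h2 | h2
      · exact absurd (Nat.le_of_dvd (by omega) h2) (by omega)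
      · exact absurd (Nat.le_of_dvd (by omega) h2) (by omega)
    have hr₂r : r₂ ≠ r := by
      intro h0
      have h1 : q * c = p * c₂ := by omega
      have h2 : p ∣ q * c := Dvd.intro c₂ h1.symm
      rcases (Nat.Prime.dvd_mul hp).1 h2 with h3 | h3
      · exact absurd (Nat.le_of_dvd (by omega) h3) (by omega)
      · exact absurd (Nat.le_of_dvd (by omega) h3) (by omega)
    have hmR : (m : ℚ) ≠ 0 := by
      have : m ≠ 0 := by omega
      exact_mod_cast this
    have hnR : (n : ℚ) ≠ 0 := by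
      have : n ≠ 0 := by omega
      exact_mod_cast this
    have hrR : (r₂ : ℚ) ≠ 0 := by exact_mod_cast hr₂0
    have hmnR : (m : ℚ) * n = r₂ + p * c₂ := by exact_mod_cast hdiv
    have heR : (m : ℚ) * n = r + q * c := by exact_mod_cast he
    have sm : Sm p (m : ℚ) := Sm.nat (by omega) (by omega)
    have sn : Sm p (n : ℚ) := Sm.nat (by omega) (by omega)
    have sr : Sm p (r : ℚ) := Sm.nat (by omega) (by omega)
    have sr₂ : Sm p (r₂ : ℚ) := Sm.nat hr₂0 hr₂p
    have sq : Sm p (q : ℚ) := Sm.nat (by omega) hqp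
    have sc : Sm p (c : ℚ) := Sm.nat (by omega) (by omega)
    have sc₂ : Sm p (c₂ : ℚ) := Sm.nat (by omega) hc₂p
    have hhex : Hex p (r : ℤ) (r₂ : ℤ) := A8B_hex hr (by omega) (by omega) hr₂p (Ne.symm hr₂r)
    have hsm := hhex.sm
    rw [Int.cast_natCast, Int.cast_natCast] at hsm
    have h1t : Sm p (1 - (r : ℚ) / ((m : ℚ) * n)) := by
      have e1 : 1 - (r : ℚ) / ((m : ℚ) * n) = ((q : ℚ) * c) / ((m : ℚ) * n) := by
        rw [eq_div_iff (mul_ne_zero hmR hnR), sub_mul, one_mul,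
          div_mul_cancel₀ _ (mul_ne_zero hmR hnR), heR]
        ring
      rw [e1]
      exact (sq.mul sc).div (sm.mul sn)
    have hw : Sm p (-(((r : ℚ) * c₂) / (((m : ℚ) * n) * r₂))) :=
      ((sr.mul sc₂).div ((sm.mul sn).mul sr₂)).neg
    have he' : (r : ℚ) / ((m : ℚ) * n) - (r : ℚ) / r₂ =
        p * (-(((r : ℚ) * c₂) / (((m : ℚ) * n) * r₂))) := by
      have h5 : (m : ℚ) * n ≠ 0 := mul_ne_zero hmR hnR
      rw [div_sub_div _ _ h5 hrR, mul_neg, ← mul_div_assoc, ← neg_div]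
      congr 1
      rw [hmnR]
      ring
    have h6 := loc_const hp.ne_zero h (sr.div (sm.mul sn)) hsm.1 h1t hsm.2 hw he'
    have h7 := hex_zero hp h hhex
    rw [Int.cast_natCast, Int.cast_natCast] at h7
    rw [h6, h7]

end Pool.Agent.QGC
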