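import Pool.Agent.QGC.A8
import Pool.Agent.QGC.A8B

/-!
# QGC-A8C: `A = 0` on the smooth rationals; the theorem of Tate (paper A.8, (A0))
-/

namespace Pool.Agent.QGC

theorem alt_zero {p : ℕ} (hp : p.Prime) {A : ℚ → ℚ → ℚ} {P : ℚ → ℚ} (h : Star p A P) {x y : ℚ}
    (hx : Sm p x) (hy : Sm p y) : A x y = 0 := by
  refine log_zero2 h.alt.left h.alt.right ?_ hx hy
  refine alt_ind h.alt.left h.alt.right (fun m n hm hm' hn hn' => ?_) ?_
  · exact h.alt.swap (Sm.nat (by omega) hn') (Sm.nat (by omega) hm')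
  · intro q hq hqp m n r c hm hm' hn hn' hr hr' hc hc' he
    exact star_dd hp h hq hqp hm hm' hn hn' hr hr' hc hc' he

/-- an alternating function on `ℚˣ` with `A t (1 - t) = 0` is zero -/
theorem tate {A : ℚ → ℚ → ℚ} (h : IsAlt A) (hd : ∀ t, t ≠ 0 → t ≠ 1 → A t (1 - t) = 0) {x y : ℚ}
    (hx : x ≠ 0) (hy : y ≠ 0) : A x y = 0 := by
  obtain ⟨N, hN, hN'⟩ := exists_sm2 hx hy
  refine log_zero2 h.left h.right ?_ hN hN'
  refine alt_ind h.left h.right (fun m n hm hm' hn hn' => ?_) ?_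
  · have hm0 : (m : ℚ) ≠ 0 := by positivity
    have hn0 : (n : ℚ) ≠ 0 := by positivity
    exact h.swap hn0 hm0
  · intro q hq _ m n r c hm hm' hn hn' hr hr' hc hc' he
    have hr0 : (r : ℚ) ≠ 0 := by positivity
    have hm0 : (m : ℚ) ≠ 0 := by positivity
    have hn0 : (n : ℚ) ≠ 0 := by positivity
    refine hd _ (div_ne_zero hr0 (mul_ne_zero hm0 hn0)) fun h1 => ?_
    rw [div_eq_one_iff_eq (mul_ne_zero hm0 hn0)] at h1
    have h2 : r = m * n := by exact_mod_cast h1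
    have h3 : 0 < q * c := Nat.mul_pos hq.pos hc
    omega

end Pool.Agent.QGC
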