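import Pool.Agent.QGC.A1
import Pool.Agent.QGC.AS

/-!
# QGC-A9I: the relation for `(p, v, w)` (paper A.9 (i))

`hk_q`: `T (1 - x) x x = 0` for `1 - x = p g` gives `T p x x = 0`. `hk_one`: `f u v = T p u v + T p v u` is logarithmic in both
variables; on the integers in `[1, p - 1]` it satisfies the hypothesis of `avg_group`.
-/

namespace Pool.Agent.QGC

theorem hk_q {p : ℕ} (hp : p.Prime) {T : ℚ → ℚ → ℚ → ℚ} (hT : Trl T) (hk : Hk p T) {x g : ℚ}
    (hx : Sm p x) (hg : Sm p g) (he : 1 - x = p * g) : T p x x = 0 := by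
  have hp0 : (p : ℚ) ≠ 0 := by exact_mod_cast hp.ne_zero
  have hx1 : x ≠ 1 := by
    intro h
    rw [h, sub_self] at he
    exact mul_ne_zero hp0 hg.1 he.symm
  have h1 := hT.rel x hx.1 hx1
  rw [he] at h1
  have h2 := hT.log1 x x hx.1 hx.1 p g hp0 hg.1
  simp only at h2
  have h3 := hk.self hg hx
  linarith

private theorem A9I_bil {F : ℚ → ℚ → ℚ} (h1 : ∀ y, y ≠ 0 → IsLog fun x => F x y)
    (h2 : ∀ x, x ≠ 0 → IsLog (F x)) {a b c d : ℚ} (ha : a ≠ 0) (hb : b ≠ 0) (hc : c ≠ 0)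
    (hd : d ≠ 0) (h0 : F (a * b / (c * d)) (a * b / (c * d)) = 0) :
    (F a a + F a a) + (F b b + F b b) + (F c c + F c c) + (F d d + F d d) + 2 * (F a b + F b a) +
      2 * (F c d + F d c) - 2 * (F a c + F c a) - 2 * (F a d + F d a) - 2 * (F b c + F c b) -
      2 * (F b d + F d b) = 0 := by
  have hab := mul_ne_zero ha hb
  have hcd := mul_ne_zero hc hd
  have hx := div_ne_zero hab hcd
  have e1 : ∀ y, y ≠ 0 → F (a * b / (c * d)) y = F a y + F b y - (F c y + F d y) := by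
    intro y hy
    have e2 := (h1 y hy).div hab hcd
    have e3 := (h1 y hy).mul ha hb
    have e4 := (h1 y hy).mul hc hd
    rw [e2, e3, e4]
  have e5 : ∀ x, x ≠ 0 → F x (a * b / (c * d)) = F x a + F x b - (F x c + F x d) := by
    intro x hx
    rw [(h2 x hx).div hab hcd, (h2 x hx).mul ha hb, (h2 x hx).mul hc hd]
  rw [e1 _ hx, e5 a ha, e5 b hb, e5 c hc, e5 d hd] at h0
  linarith

private theorem A9I_int {p : ℕ} (hp : p.Prime) {T : ℚ → ℚ → ℚ → ℚ} (hT : Trl T) (hk : Hk p T)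
    {a b c d : ℕ} (ha : 1 ≤ a) (hap : a < p) (hb : 1 ≤ b) (hbp : b < p) (hc : 1 ≤ c) (hcp : c < p)
    (hd : 1 ≤ d) (hdp : d < p) (h : (p : ℤ) ∣ (c : ℤ) * d - (a : ℤ) * b) :
    T p ((a : ℚ) * b / ((c : ℚ) * d)) ((a : ℚ) * b / ((c : ℚ) * d)) = 0 := by
  have hp0 : (p : ℚ) ≠ 0 := by exact_mod_cast hp.ne_zero
  have sa : Sm p (a : ℚ) := Sm.nat (by omega) hap
  have sb : Sm p (b : ℚ) := Sm.nat (by omega) hbp
  have sc : Sm p (c : ℚ) := Sm.nat (by omega) hcp
  have sd : Sm p (d : ℚ) := Sm.nat (by omega) hdp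
  have hcd := mul_ne_zero sc.1 sd.1
  obtain ⟨e, he⟩ := h
  rcases eq_or_ne e 0 with h0 | h0
  · rw [h0, mul_zero] at he
    have h1 : (c : ℚ) * d - (a : ℚ) * b = 0 := by exact_mod_cast he
    have h2 : (a : ℚ) * b / ((c : ℚ) * d) = 1 := by
      rw [div_eq_one_iff_eq hcd]
      linarith
    rw [h2]
    exact (hT.log3 p 1 hp0 one_ne_zero).one
  · have hq : (c : ℚ) * d - (a : ℚ) * b = p * e := by exact_mod_cast he
    have hsm : Sm p (e : ℚ) := by
      refine Sm.int h0 ?_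
      have h1 : |(p : ℤ) * e| < (p : ℤ) * p := by
        rw [← he, abs_lt]
        have h2 : (c : ℤ) * d < (p : ℤ) * p := by
          have : c * d < p * p := Nat.mul_lt_mul'' hcp hdp
          exact_mod_cast this
        have h3 : (a : ℤ) * b < (p : ℤ) * p := by
          have : a * b < p * p := Nat.mul_lt_mul'' hap hbp
          exact_mod_cast this
        have h4 : 0 ≤ (c : ℤ) * d := by positivity
        have h5 : 0 ≤ (a : ℤ) * b := by positivity
        constructor <;> linarith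
      have hpp : 0 < (p : ℤ) := by exact_mod_cast hp.pos
      rw [abs_mul, abs_of_pos hpp] at h1
      have h2 := lt_of_mul_lt_mul_left h1 hpp.le
      rw [Int.abs_eq_natAbs] at h2
      exact_mod_cast h2
    refine hk_q hp hT hk ((sa.mul sb).div (sc.mul sd)) (hsm.div (sc.mul sd)) ?_
    rw [← mul_div_assoc, ← hq]
    field_simp

theorem hk_one {p : ℕ} (hp : p.Prime) {T : ℚ → ℚ → ℚ → ℚ} (hT : Trl T) (hk : Hk p T) {u v : ℚ}
    (hu : Sm p u) (hv : Sm p v) : T p u v + T p v u = 0 := by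
  have := Fact.mk hp
  have hp0 : (p : ℚ) ≠ 0 := by exact_mod_cast hp.ne_zero
  have l1 : ∀ y, y ≠ 0 → IsLog fun x => T p x y := fun y hy => hT.log2 p y hp0 hy
  have l2 : ∀ x, x ≠ 0 → IsLog (T p x) := fun x hx => hT.log3 p x hp0 hx
  have hval : ∀ x : (ZMod p)ˣ, 1 ≤ (x : ZMod p).val ∧ (x : ZMod p).val < p := by
    intro x
    refine ⟨?_, ZMod.val_lt _⟩
    have h1 : (x : ZMod p).val ≠ 0 := by
      rw [Ne, ZMod.val_eq_zero]
      exact x.ne_zero
    omega
  have hn0 : ∀ x : (ZMod p)ˣ, (((x : ZMod p).val : ℕ) : ℚ) ≠ 0 := by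
    intro x
    have h1 := (hval x).1
    positivity
  have key := avg_group (G := (ZMod p)ˣ)
    (fun x y => T p ((x : ZMod p).val : ℚ) ((y : ZMod p).val : ℚ) +
      T p ((y : ZMod p).val : ℚ) ((x : ZMod p).val : ℚ)) (fun m n => add_comm _ _) ?_ ?_
  · refine log_zero2 (f := fun u v => T p u v + T p v u) ?_ ?_ ?_ hu hv
    · intro y hy a b ha hb
      have h1 := l1 y hy a b ha hb
      have h2 := l2 y hy a b ha hb
      simp only at h1 ⊢
      rw [h1, h2]
      ring
    · intro y hy a b ha hb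
      have h1 := l1 y hy a b ha hb
      have h2 := l2 y hy a b ha hb
      simp only at h1 ⊢
      rw [h1, h2]
      ring
    · intro m n hm hm' hn hn'
      have hunit : ∀ k : ℕ, 1 ≤ k → k < p → ∃ x : (ZMod p)ˣ, (x : ZMod p).val = k := by
        intro k hk1 hk2
        have h1 : (k : ZMod p) ≠ 0 := by
          rw [Ne, ZMod.natCast_eq_zero_iff]
          intro h2
          have := Nat.le_of_dvd (by omega) h2
          omega
        exact ⟨Units.mk0 _ h1, ZMod.val_cast_of_lt hk2⟩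
      obtain ⟨x, hx⟩ := hunit m hm hm'
      obtain ⟨y, hy⟩ := hunit n hn hn'
      have h1 := key x y
      rw [hx, hy] at h1
      exact h1
  · intro m
    have h1 : ((1 : (ZMod p)ˣ) : ZMod p).val = 1 := by
      rw [Units.val_one, ZMod.val_one]
    have h2 := (l1 _ (hn0 m)).one
    have h3 := (l2 _ (hn0 m)).one
    simp only [h1, Nat.cast_one]
    rw [h2, h3, add_zero]
  · intro m n m' n' hmn
    refine A9I_bil l1 l2 (hn0 m) (hn0 n) (hn0 m') (hn0 n') ?_
    refine A9I_int hp hT hk (hval m).1 (hval m).2 (hval n).1 (hval n).2 (hval m').1 (hval m').2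
      (hval n').1 (hval n').2 ?_
    rw [← ZMod.intCast_zmod_eq_zero_iff_dvd]
    push_cast
    simp only [ZMod.natCast_val, ZMod.cast_id', id_eq]
    rw [sub_eq_zero, ← Units.val_mul, ← Units.val_mul, hmn]

end Pool.Agent.QGC
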