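import Pool.Agent.QGC.A9I

/-!
# QGC-A9J: the pair `A, P` (paper A.9 (ii))

PLAN. `A x y = T p x y - T x y p`, `P x = T p x p`. `left`, `right`, `log`: `hT.log1 / log2 / log3`. `self`: `hk_one` for `u = v` gives `T p x x = 0`, and `T x x p = 0`. `st`: `1 - x = p g`: `hT.rel (1 - x)`: `T x (1 - x) (1 - x) = 0` (`1 - (1 - x) = x`); expand
`T x (p g) (p g) = T x p p + T x p g + T x g p + T x g g`; `T x p p = - T p x p`, `T x p g = - T p x g` (`Trl.swap`), `T x g g = 0` (`Hk.self`).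
-/

namespace Pool.Agent.QGC

theorem star_of {p : ℕ} (hp : p.Prime) {T : ℚ → ℚ → ℚ → ℚ} (hT : Trl T) (hk : Hk p T) :
    Star p (fun x y => T p x y - T x y p) (fun x => T p x p) := by
  have hp0 : (p : ℚ) ≠ 0 := by exact_mod_cast hp.ne_zero
  refine ⟨⟨fun y hy x x' hx hx' => ?_, fun x hx y y' hy hy' => ?_, fun x hx => ?_⟩, ?_, ?_⟩
  · have h1 := hT.log2 p y hp0 hy x x' hx hx'
    have h2 := hT.log1 y p hy hp0 x x' hx hx'
    simp only at h1 h2 ⊢
    rw [h1, h2]
    ring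
  · have h1 := hT.log3 p x hp0 hx y y' hy hy'
    have h2 := hT.log2 x p hx hp0 y y' hy hy'
    simp only at h1 h2 ⊢
    rw [h1, h2]
    ring
  · have h1 := hk_one hp hT hk hx hx
    have h2 := hT.self x p hx.1 hp0
    change T p x x - T x x p = 0
    linarith
  · exact hT.log2 p p hp0 hp0
  · intro x g hx hg he
    have hg0 := hg.1
    have hx0 := hx.1
    have h1x : 1 - x ≠ 0 := by
      rw [he]
      exact mul_ne_zero hp0 hg0
    have h1 : T x (1 - x) (1 - x) = 0 := by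
      have h2 := hT.rel (1 - x) h1x fun h => hx0 (by linarith)
      rwa [sub_sub_cancel] at h2
    rw [he] at h1
    have hpg : (p : ℚ) * g ≠ 0 := mul_ne_zero hp0 hg0
    have h2 := hT.log2 x (p * g) hx0 hpg p g hp0 hg0
    have h3 := hT.log3 x p hx0 hp0 p g hp0 hg0
    have h4 := hT.log3 x g hx0 hg0 p g hp0 hg0
    have h5 := hT.swap (z := (p : ℚ)) hx0 hp0 hp0
    have h6 := hT.swap hx0 hp0 hg0
    have h7 := hk.self hx hg
    simp only at h2 h3 h4 ⊢
    linarith

end Pool.Agent.QGC
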