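import Pool.Agent.QGC.A3
import Pool.Agent.QGC.A8C
import Pool.Agent.QGC.A9J

/-!
# QGC-A9K: `A = 0`, `P = 0` (paper A.9 (ii), (iii))

PLAN. `hk_A`: `alt_zero` for `star_of`. `hk_P`: `log_zero` for `P`, and `hom_zero` for `f m = P m`: for `m, n ∈ [1, p - 1]`, `r = m * n % p`, `c = m * n / p`, `m n = r + p c`, `r ≥ 1`, `c < p`. `c = 0`: `P (m n) = P r`. `c ≥ 1`: `x = r / (m n)`, `1 - x = p * (c / (m n))`:
`(star_of ..).st`: `P x = - A x (c / (m n)) = 0` by `hk_A`, so `P r = P m + P n`.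
-/

namespace Pool.Agent.QGC

theorem hk_A {p : ℕ} (hp : p.Prime) {T : ℚ → ℚ → ℚ → ℚ} (hT : Trl T) (hk : Hk p T) {x y : ℚ}
    (hx : Sm p x) (hy : Sm p y) : T x y p = T p x y := by
  have h := alt_zero hp (star_of hp hT hk) hx hy
  have h1 : T p x y - T x y p = 0 := h
  linarith

theorem hk_P {p : ℕ} (hp : p.Prime) {T : ℚ → ℚ → ℚ → ℚ} (hT : Trl T) (hk : Hk p T) {x : ℚ}
    (hx : Sm p x) : T p x p = 0 := by
  have hp0 : (p : ℚ) ≠ 0 := by exact_mod_cast hp.ne_zero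
  have hS := star_of hp hT hk
  have hlog : IsLog fun x => T p x p := hS.log
  refine log_zero hlog (hom_zero hp (fun m => T p m p) ?_) hx
  intro m n hm hm' hn hn'
  have hm0 : (m : ℚ) ≠ 0 := by positivity
  have hn0 : (n : ℚ) ≠ 0 := by positivity
  have h1 : T p ((m : ℚ) * n) p = T p m p + T p n p := hlog m n hm0 hn0
  have h2 : m * n % p + p * (m * n / p) = m * n := Nat.mod_add_div (m * n) p
  have hr : m * n % p ≠ 0 := by
    intro h
    rcases (Nat.Prime.dvd_mul hp).1 (Nat.dvd_of_mod_eq_zero h) with h3 | h3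
    · exact absurd (Nat.le_of_dvd (by omega) h3) (by omega)
    · exact absurd (Nat.le_of_dvd (by omega) h3) (by omega)
  have hr' : m * n % p < p := Nat.mod_lt _ hp.pos
  have hc' : m * n / p < p := by
    rw [Nat.div_lt_iff_lt_mul hp.pos]
    exact Nat.mul_lt_mul'' hm' hn'
  show T p m p + T p n p = T p ((m * n % p : ℕ) : ℚ) p
  obtain ⟨r, hrr⟩ : ∃ r, r = m * n % p := ⟨_, rfl⟩
  obtain ⟨c, hcc⟩ : ∃ c, c = m * n / p := ⟨_, rfl⟩
  rw [← hrr, ← hcc] at h2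
  rw [← hrr] at hr hr' ⊢
  rw [← hcc] at hc'
  have hr0 : (r : ℚ) ≠ 0 := by exact_mod_cast hr
  have h3 : (m : ℚ) * n = r + p * c := by exact_mod_cast h2.symm
  rcases Nat.eq_zero_or_pos c with hc | hc
  · rw [← h1, h3, hc, Nat.cast_zero, mul_zero, add_zero]
  · have hc0 : (c : ℚ) ≠ 0 := by positivity
    have hmn0 := mul_ne_zero hm0 hn0
    have hsr : Sm p (r : ℚ) := Sm.nat hr hr'
    have hsc : Sm p (c : ℚ) := Sm.nat (by omega) hc'
    have hsmn : Sm p ((m : ℚ) * n) := (Sm.nat (by omega) hm').mul (Sm.nat (by omega) hn')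
    have h4 : 1 - (r : ℚ) / ((m : ℚ) * n) = p * ((c : ℚ) / ((m : ℚ) * n)) := by
      field_simp
      rw [h3]
      ring
    have h5 := hS.st _ _ (hsr.div hsmn) (hsc.div hsmn) h4
    have h6 := hk_A hp hT hk (hsr.div hsmn) (hsc.div hsmn)
    have h7 : T p ((r : ℚ) / ((m : ℚ) * n)) p = T p r p - T p ((m : ℚ) * n) p :=
      hlog.div hr0 hmn0
    linarith

end Pool.Agent.QGC
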