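import Pool.Agent.QGC.Defs

/-!
# QGC-ADefs: functions on the smooth rationals
-/

namespace Pool.Agent.QGC

/-- logarithmic in each variable, alternating on the smooth rationals -/
structure AltOn (p : ℕ) (A : ℚ → ℚ → ℚ) : Prop where
  left : ∀ y, y ≠ 0 → IsLog fun x => A x y
  right : ∀ x, x ≠ 0 → IsLog (A x)
  self : ∀ x, Sm p x → A x x = 0

/-- `A t (1 - t)` -/
def dd (A : ℚ → ℚ → ℚ) (t : ℚ) : ℚ := A t (1 - t)

/-- the data of A.4 - A.8 -/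
structure Star (p : ℕ) (A : ℚ → ℚ → ℚ) (P : ℚ → ℚ) : Prop where
  alt : AltOn p A
  log : IsLog P
  st : ∀ x g : ℚ, Sm p x → Sm p g → 1 - x = p * g → P x = - A x g

/-- the hexagon -/
structure Hex (p : ℕ) (k l : ℤ) : Prop where
  k0 : k ≠ 0
  l0 : l ≠ 0
  ne : k ≠ l
  hk : |k| < p
  hl : |l| < p
  hkl : |k - l| < p

open Classical in
/-- the function on `ℤ/p` given by the representatives in `[2, p - 1]` -/
noncomputable def be (p : ℕ) (A : ℚ → ℚ → ℚ) (x : ZMod p) : ℚ :=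
  if x = 0 ∨ x = 1 then 0 else dd A (x.val : ℚ)

/-- `T` as in (A) -/
structure Trl (T : ℚ → ℚ → ℚ → ℚ) : Prop where
  log1 : ∀ y z, y ≠ 0 → z ≠ 0 → IsLog fun x => T x y z
  log2 : ∀ x z, x ≠ 0 → z ≠ 0 → IsLog fun y => T x y z
  log3 : ∀ x y, x ≠ 0 → y ≠ 0 → IsLog fun z => T x y z
  self : ∀ x z, x ≠ 0 → z ≠ 0 → T x x z = 0
  rel : ∀ t, t ≠ 0 → t ≠ 1 → T (1 - t) t t = 0

/-- the hook relation for the smooth rationals -/
def Hk (p : ℕ) (T : ℚ → ℚ → ℚ → ℚ) : Prop :=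
  ∀ u v w, Sm p u → Sm p v → Sm p w → T u v w + T u w v = 0

end Pool.Agent.QGC
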