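import Pool.Agent.QGC.BAv

/-!
# Assembly of the prime step

Letters `a..f` in `[1,p]`, `U = a b`, `V = c d`, `W = e f`, `U + V = W`. The cases are: none of the
products divisible by `p`, exactly one of them, all of them (then one divides by `p`).
-/

set_option autoImplicit false

namespace Pool.Agent.QGC

private theorem BAsm_letter {p x y : ℕ} (hp : p.Prime) (hx : 0 < x) (hy : 0 < y) (hxp : x ≤ p)
    (hyp : y ≤ p) (h : p ∣ x * y) : x = p ∨ y = p := by
  rcases (Nat.Prime.dvd_mul hp).1 h with h1 | h1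
  · exact Or.inl (le_antisymm hxp (Nat.le_of_dvd hx h1))
  · exact Or.inr (le_antisymm hyp (Nat.le_of_dvd hy h1))

private theorem BAsm_lt {p x y : ℕ} (hxp : x ≤ p) (h : ¬ p ∣ x * y) :
    x < p := by
  refine lt_of_le_of_ne hxp ?_
  rintro rfl
  exact h (dvd_mul_right _ _)

private theorem BAsm_ndvd {p x : ℕ} (h0 : 0 < x) (h : x < p) : ¬ p ∣ x := fun hd =>
  absurd (Nat.le_of_dvd h0 hd) (by omega)

private theorem BAsm_P {P : ℚ → ℚ} (hP : IsLog P) {x y : ℕ} (hx : 0 < x) (hy : 0 < y) :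
    P ((x * y : ℕ) : ℚ) = P x + P y := by
  rw [Nat.cast_mul]
  exact hP _ _ (by exact_mod_cast hx.ne') (by exact_mod_cast hy.ne')

variable {l P : ℚ → ℚ} {p : ℕ}

/-- nothing divisible by `p` -/
private theorem BAsm_none (hp : p.Prime) (hP : IsLog P) (hZ : ZP l (p - 1))
    {a b c d e f : ℕ} (ha : 0 < a) (hb : 0 < b) (hc : 0 < c) (hd : 0 < d) (he : 0 < e)
    (hf : 0 < f) (ap : a < p) (bp : b < p) (cp : c < p) (dp : d < p) (ep : e < p) (fp : f < p)
    (h : a * b + c * d = e * f) :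
    l (((a * b : ℕ) : ℚ) / ((e * f : ℕ) : ℚ)) =
      dA (vP p P) (((a * b : ℕ) : ℚ) / ((e * f : ℕ) : ℚ)) := by
  have nd : ∀ x y : ℕ, 0 < x → 0 < y → x < p → y < p → ¬ p ∣ x * y := by
    intro x y hx hy hxp hyp hdvd
    rcases BAsm_letter hp hx hy hxp.le hyp.le hdvd with h1 | h1 <;> omega
  rw [vP_none hp hP (Nat.mul_pos ha hb) (Nat.mul_pos hc hd) h (nd a b ha hb ap bp)
    (nd c d hc hd cp dp) (nd e f he hf ep fp)]
  have h1 := hZ a b c d e f ha hb hc hd he hf (by omega) (by omega) (by omega) (by omega)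
    (by omega) (by omega) h
  have h2 : ((a : ℚ) * b) + c * d = ((e * f : ℕ) : ℚ) := by
    rw [← h]; push_cast; ring
  rw [lam_eq h2] at h1
  rw [← h1, Nat.cast_mul a b]

/-- only `V = p d` divisible by `p` -/
private theorem BAsm_V (hp : p.Prime) (hP : IsLog P) (hpos : PosP l P p)
    {a b d e f : ℕ} (ha : 0 < a) (hb : 0 < b) (hd : 0 < d) (he : 0 < e)
    (hf : 0 < f) (ap : a < p) (bp : b < p) (ep : e < p) (fp : f < p)
    (h : a * b + p * d = e * f) :
    l (((a * b : ℕ) : ℚ) / ((e * f : ℕ) : ℚ)) = P a + P b - P e - P f ∧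
      dA (vP p P) (((a * b : ℕ) : ℚ) / ((e * f : ℕ) : ℚ)) = P a + P b - P e - P f := by
  have nd : ∀ x y : ℕ, 0 < x → 0 < y → x < p → y < p → ¬ p ∣ x * y := by
    intro x y hx hy hxp hyp hdvd
    rcases BAsm_letter hp hx hy hxp.le hyp.le hdvd with h1 | h1 <;> omega
  have hdp : d < p := by
    by_contra hlt
    have h1 : p * p ≤ p * d := Nat.mul_le_mul_left p (by omega)
    have h2 : e * f < p * p := Nat.mul_lt_mul'' ep fp
    omega
  constructor
  · have h1 := hpos a f e b ha hf he hb ap fp ep bp (by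
      rw [← h, Nat.add_mul_mod_self_left])
    rw [Nat.cast_mul, Nat.cast_mul, h1]
    ring
  · rw [vP_V hp hP (Nat.mul_pos ha hb) (Nat.mul_pos hp.pos hd) h (nd a b ha hb ap bp) rfl
      (BAsm_ndvd hd hdp) (nd e f he hf ep fp), BAsm_P hP ha hb, BAsm_P hP he hf]
    ring

/-- only `U` divisible by `p` -/
private theorem BAsm_U (hl : Five l) (hp : p.Prime) (hP : IsLog P) (hpos : PosP l P p)
    {b c d e f : ℕ} (hb : 0 < b) (hc : 0 < c) (hd : 0 < d) (he : 0 < e)
    (hf : 0 < f) (cp : c < p) (dp : d < p) (ep : e < p) (fp : f < p)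
    (h : p * b + c * d = e * f) :
    l (((p * b : ℕ) : ℚ) / ((e * f : ℕ) : ℚ)) =
      dA (vP p P) (((p * b : ℕ) : ℚ) / ((e * f : ℕ) : ℚ)) := by
  have nd : ∀ x y : ℕ, 0 < x → 0 < y → x < p → y < p → ¬ p ∣ x * y := by
    intro x y hx hy hxp hyp hdvd
    rcases BAsm_letter hp hx hy hxp.le hyp.le hdvd with h1 | h1 <;> omega
  have hbp : b < p := by
    by_contra hlt
    have h1 : p * p ≤ p * b := Nat.mul_le_mul_left p (by omega)
    have h2 : e * f < p * p := Nat.mul_lt_mul'' ep fp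
    omega
  have h1 := (BAsm_V hp hP hpos hc hd hb he hf cp dp ep fp (by omega)).1
  have hcd : 0 < c * d := Nat.mul_pos hc hd
  have hpb : 0 < p * b := Nat.mul_pos hp.pos hb
  have hc' : (0 : ℚ) < ((c * d : ℕ) : ℚ) := by exact_mod_cast hcd
  have hb' : (0 : ℚ) < ((p * b : ℕ) : ℚ) := by exact_mod_cast hpb
  have h2 := hl.lam_swap hc' hb'
  have h3 : ((c * d : ℕ) : ℚ) + ((p * b : ℕ) : ℚ) = ((e * f : ℕ) : ℚ) := by
    rw [← h, Nat.cast_add]; ring
  have h4 : ((p * b : ℕ) : ℚ) + ((c * d : ℕ) : ℚ) = ((e * f : ℕ) : ℚ) := by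
    rw [← h, Nat.cast_add]
  rw [lam_eq h3, lam_eq h4, h1] at h2
  rw [h2, vP_U hp hP hpb hcd h (nd c d hc hd cp dp) rfl
    (BAsm_ndvd hb hbp) (nd e f he hf ep fp), BAsm_P hP hc hd, BAsm_P hP he hf]
  ring

/-- only `W = p f` divisible by `p` -/
private theorem BAsm_W (hp : p.Prime) (hP : IsLog P) (hneg : NegP l P p) (hsq : SqP l P p)
    {a b c d f : ℕ} (ha : 0 < a) (hb : 0 < b) (hc : 0 < c) (hd : 0 < d)
    (hf : 0 < f) (ap : a < p) (bp : b < p) (cp : c < p) (dp : d < p) (fp : f ≤ p)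
    (h : a * b + c * d = p * f) :
    l (((a * b : ℕ) : ℚ) / ((p * f : ℕ) : ℚ)) =
      dA (vP p P) (((a * b : ℕ) : ℚ) / ((p * f : ℕ) : ℚ)) := by
  have nd : ∀ x y : ℕ, 0 < x → 0 < y → x < p → y < p → ¬ p ∣ x * y := by
    intro x y hx hy hxp hyp hdvd
    rcases BAsm_letter hp hx hy hxp.le hyp.le hdvd with h1 | h1 <;> omega
  have h4 : ((a : ℚ) * b) + (c : ℚ) * d = ((p * f : ℕ) : ℚ) := by
    rw [← h]; push_cast; ring
  rcases fp.lt_or_eq with hlt | heq
  · have h1 := hneg a b c d f ha hb hc hd hf ap bp cp dp hlt h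
    rw [lam_eq h4] at h1
    have h5 := vP_W (k := 1) hp hP (Nat.mul_pos ha hb) (Nat.mul_pos hc hd) h (nd a b ha hb ap bp)
      (nd c d hc hd cp dp) (by rw [pow_one]) (BAsm_ndvd hf hlt)
    rw [h5, BAsm_P hP ha hb, BAsm_P hP hc hd, Nat.cast_mul a b, h1]
    push_cast
    ring
  · subst heq
    have h1 := hsq a b c d ha hb hc hd ap bp cp dp h
    rw [lam_eq h4] at h1
    have h5 := vP_W (k := 2) (W' := 1) hp hP (Nat.mul_pos ha hb) (Nat.mul_pos hc hd) h
      (nd a b ha hb ap bp) (nd c d hc hd cp dp) (by rw [mul_one, sq])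
      (fun hd => hp.one_lt.ne' (Nat.dvd_one.1 hd))
    rw [h5, BAsm_P hP ha hb, BAsm_P hP hc hd, Nat.cast_mul a b, h1]
    push_cast
    ring

/-- all three divisible by `p` -/
private theorem BAsm_all (hp : p.Prime) (hP : IsLog P) (hZ : ZP l (p - 1))
    (hneg : NegP l P p) {b d f : ℕ} (hb : 0 < b) (hd : 0 < d) (fp : f ≤ p)
    (h : b + d = f) :
    l (((p * b : ℕ) : ℚ) / ((p * f : ℕ) : ℚ)) =
      dA (vP p P) (((p * b : ℕ) : ℚ) / ((p * f : ℕ) : ℚ)) := by
  have hp0 : (p : ℚ) ≠ 0 := by exact_mod_cast hp.ne_zero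
  have e1 : ((p * b : ℕ) : ℚ) / ((p * f : ℕ) : ℚ) = (b : ℚ) / f := by
    rw [Nat.cast_mul, Nat.cast_mul, mul_div_mul_left _ _ hp0]
  rw [e1]
  have h2 := hp.two_le
  have h4 : ((b : ℚ) * (1 : ℕ)) + (d : ℚ) * (1 : ℕ) = f := by
    rw [← h]; push_cast; ring
  rcases fp.lt_or_eq with hlt | heq
  · rw [vP_none hp hP hb hd h (BAsm_ndvd hb (by omega)) (BAsm_ndvd hd (by omega))
      (BAsm_ndvd (by omega) hlt)]
    have h1 := hZ b 1 d 1 f 1 hb one_pos hd one_pos (by omega) one_pos (by omega) (by omega)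
      (by omega) (by omega) (by omega) (by omega) (by omega)
    rw [lam_eq h4] at h1
    rw [← h1, Nat.cast_one, mul_one]
  · subst heq
    have h1 := hneg b 1 d 1 1 hb one_pos hd one_pos one_pos (by omega) (by omega) (by omega)
      (by omega) (by omega) (by omega)
    rw [lam_eq h4] at h1
    have h5 := vP_W (k := 1) (W' := 1) hp hP hb hd h (BAsm_ndvd hb (by omega))
      (BAsm_ndvd hd (by omega)) (by rw [pow_one, mul_one])
      (fun hd => hp.one_lt.ne' (Nat.dvd_one.1 hd))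
    rw [h5]
    rw [Nat.cast_one, mul_one] at h1
    rw [h1, Nat.cast_one]
    ring

theorem asm {l P : ℚ → ℚ} (hl : Five l) {p : ℕ} (hp : p.Prime) (hP : IsLog P)
    (hZ : ZP l (p - 1)) (hpos : PosP l P p) (hneg : NegP l P p) (hsq : SqP l P p) :
    ZP (fun t => l t - dA (vP p P) t) p := by
  intro a b c d e f ha hb hc hd he hf ap bp cp dp ep fp h
  have hs : ((a : ℚ) * b) + (c : ℚ) * d = ((e * f : ℕ) : ℚ) := by
    rw [← h]; push_cast; ring
  rw [lam_eq hs, sub_eq_zero, ← Nat.cast_mul]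
  -- the order of the letters in a product may be changed
  have swap : ∀ (Q : ℕ → ℕ → Prop), (∀ x y, Q x y → Q y x) → (∀ y, 0 < y → y ≤ p → Q p y) →
      ∀ x y, 0 < x → 0 < y → x ≤ p → y ≤ p → p ∣ x * y → Q x y := by
    intro Q hQ hQp x y hx hy hxp hyp hd
    rcases BAsm_letter hp hx hy hxp hyp hd with h1 | h1
    · subst h1; exact hQp y hy hyp
    · subst h1; exact hQ _ _ (hQp x hx hxp)
  by_cases dU : p ∣ a * b
  · by_cases dV : p ∣ c * d
    · have dW : p ∣ e * f := by rw [← h]; exact dvd_add dU dV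
      revert h
      refine swap (fun a b => a * b + c * d = e * f →
        l (((a * b : ℕ) : ℚ) / ((e * f : ℕ) : ℚ)) =
        dA (vP p P) (((a * b : ℕ) : ℚ) / ((e * f : ℕ) : ℚ)))
        (fun x y hxy h => by rw [mul_comm y x] at h ⊢; exact hxy h) ?_ a b ha hb ap bp dU
      intro b hb bp
      refine swap (fun c d => p * b + c * d = e * f →
        l (((p * b : ℕ) : ℚ) / ((e * f : ℕ) : ℚ)) =
        dA (vP p P) (((p * b : ℕ) : ℚ) / ((e * f : ℕ) : ℚ)))
        (fun x y hxy h => by rw [mul_comm y x] at h; exact hxy h) ?_ c d hc hd cp dp dV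
      intro d hd dp
      refine swap (fun e f => p * b + p * d = e * f →
        l (((p * b : ℕ) : ℚ) / ((e * f : ℕ) : ℚ)) =
        dA (vP p P) (((p * b : ℕ) : ℚ) / ((e * f : ℕ) : ℚ)))
        (fun x y hxy h => by rw [mul_comm y x] at h ⊢; exact hxy h) ?_ e f he hf ep fp dW
      intro f hf fp h
      rw [← mul_add] at h
      exact BAsm_all hp hP hZ hneg hb hd fp (Nat.eq_of_mul_eq_mul_left hp.pos h)
    · have dW : ¬ p ∣ e * f := by
        rw [← h]; exact fun h1 => dV ((Nat.dvd_add_right dU).1 h1)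
      revert h
      refine swap (fun a b => a * b + c * d = e * f →
        l (((a * b : ℕ) : ℚ) / ((e * f : ℕ) : ℚ)) =
        dA (vP p P) (((a * b : ℕ) : ℚ) / ((e * f : ℕ) : ℚ)))
        (fun x y hxy h => by rw [mul_comm y x] at h ⊢; exact hxy h) ?_ a b ha hb ap bp dU
      intro b hb bp h
      exact BAsm_U hl hp hP hpos hb hc hd he hf (BAsm_lt cp dV)
        (BAsm_lt dp (by rwa [mul_comm] at dV)) (BAsm_lt ep dW)
        (BAsm_lt fp (by rwa [mul_comm] at dW)) h
  · by_cases dV : p ∣ c * d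
    · have dW : ¬ p ∣ e * f := by
        rw [← h]; exact fun h1 => dU ((Nat.dvd_add_left dV).1 h1)
      revert h
      refine swap (fun c d => a * b + c * d = e * f →
        l (((a * b : ℕ) : ℚ) / ((e * f : ℕ) : ℚ)) =
        dA (vP p P) (((a * b : ℕ) : ℚ) / ((e * f : ℕ) : ℚ)))
        (fun x y hxy h => by rw [mul_comm y x] at h; exact hxy h) ?_ c d hc hd cp dp dV
      intro d hd dp h
      obtain ⟨h1, h2⟩ := BAsm_V hp hP hpos ha hb hd he hf (BAsm_lt ap dU)
        (BAsm_lt bp (by rwa [mul_comm] at dU)) (BAsm_lt ep dW)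
        (BAsm_lt fp (by rwa [mul_comm] at dW)) h
      rw [h1, h2]
    · by_cases dW : p ∣ e * f
      · revert h
        refine swap (fun e f => a * b + c * d = e * f →
          l (((a * b : ℕ) : ℚ) / ((e * f : ℕ) : ℚ)) =
          dA (vP p P) (((a * b : ℕ) : ℚ) / ((e * f : ℕ) : ℚ)))
          (fun x y hxy h => by rw [mul_comm y x] at h ⊢; exact hxy h) ?_ e f he hf ep fp dW
        intro f hf fp h
        exact BAsm_W hp hP hneg hsq ha hb hc hd hf (BAsm_lt ap dU)
          (BAsm_lt bp (by rwa [mul_comm] at dU)) (BAsm_lt cp dV)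
          (BAsm_lt dp (by rwa [mul_comm] at dV)) fp h
      · exact BAsm_none hp hP hZ ha hb hc hd he hf (BAsm_lt ap dU)
          (BAsm_lt bp (by rwa [mul_comm] at dU)) (BAsm_lt cp dV)
          (BAsm_lt dp (by rwa [mul_comm] at dV)) (BAsm_lt ep dW)
          (BAsm_lt fp (by rwa [mul_comm] at dW)) h

end Pool.Agent.QGC
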