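import Pool.Agent.QGC.BD2

/-!
# QGC-BAv: the alternating function `v_p(v) P(u) - v_p(u) P(v)`

PLAN. `vP p P u v := padicValRat p v * P u - padicValRat p u * P v`.  `isAlt`: `padicValRat.mul`.
The evaluations: `t = u/w`, `1 - t = v/w` with `u + v = w` natural numbers `> 0`,
`dA (vP ..) t = vP .. t (1-t)` (`t ≠ 0, 1`), `padicValRat` of a quotient is the difference
(`padicValRat.div`), and `padicValRat p (m : ℚ) = 0` for a natural `m` prime to `p`,
`padicValRat p (p * m) = 1` for `m` prime to `p`, `P` of a product is the sum, `P p = 0`.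
Stated with `U, V, W` natural numbers:
-/

set_option autoImplicit false

namespace Pool.Agent.QGC

/-- `v_p(v) P(u) - v_p(u) P(v)`. -/
noncomputable def vP (p : ℕ) (P : ℚ → ℚ) (u v : ℚ) : ℚ :=
  (padicValRat p v : ℚ) * P u - (padicValRat p u : ℚ) * P v

theorem vP_isAlt {p : ℕ} (hp : p.Prime) {P : ℚ → ℚ} (hP : IsLog P) : IsAlt (vP p P) := by
  have := Fact.mk hp
  refine ⟨?_, ?_, ?_⟩
  · intro y _ x x' hx hx'
    simp only [vP]
    rw [hP x x' hx hx', padicValRat.mul hx hx']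
    push_cast
    ring
  · intro x _ y y' hy hy'
    simp only [vP]
    rw [hP y y' hy hy', padicValRat.mul hy hy']
    push_cast
    ring
  · intro x _
    simp only [vP]
    ring

private theorem BAv_core {p : ℕ} (hp : p.Prime) {P : ℚ → ℚ} (hP : IsLog P) {U V W : ℕ}
    (hU : 0 < U) (hV : 0 < V) (h : U + V = W) :
    dA (vP p P) ((U : ℚ) / W) =
      ((padicValNat p V : ℚ) - (padicValNat p W : ℚ)) * (P U - P W) -
        ((padicValNat p U : ℚ) - (padicValNat p W : ℚ)) * (P V - P W) := by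
  have := Fact.mk hp
  have hU' : (U : ℚ) ≠ 0 := by exact_mod_cast hU.ne'
  have hV' : (V : ℚ) ≠ 0 := by exact_mod_cast hV.ne'
  have hW' : (W : ℚ) ≠ 0 := by
    have : W ≠ 0 := by omega
    exact_mod_cast this
  have hWe : (W : ℚ) = (U : ℚ) + V := by rw [← h]; push_cast; ring
  have t0 : (U : ℚ) / W ≠ 0 := div_ne_zero hU' hW'
  have e1 : 1 - (U : ℚ) / W = (V : ℚ) / W := by
    rw [eq_div_iff hW', sub_mul, div_mul_cancel₀ _ hW', hWe]
    ring
  have t1 : (U : ℚ) / W ≠ 1 := by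
    intro h1
    rw [h1, sub_self] at e1
    exact div_ne_zero hV' hW' e1.symm
  have t : ¬ ((U : ℚ) / W = 0 ∨ (U : ℚ) / W = 1) := by
    rintro (h1 | h1)
    · exact t0 h1
    · exact t1 h1
  rw [dA, if_neg t, e1, vP, hP.div hU' hW', hP.div hV' hW', padicValRat.div hU' hW',
    padicValRat.div hV' hW', padicValRat.of_nat, padicValRat.of_nat, padicValRat.of_nat,
    Int.cast_sub, Int.cast_sub, Int.cast_natCast, Int.cast_natCast, Int.cast_natCast]

private theorem BAv_zero {p m : ℕ} (h : ¬ p ∣ m) : padicValNat p m = 0 :=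
  padicValNat.eq_zero_of_not_dvd h

private theorem BAv_pow {p m k : ℕ} (hp : p.Prime) (h : ¬ p ∣ m) :
    padicValNat p (p ^ k * m) = k := by
  have := Fact.mk hp
  have hm : m ≠ 0 := by
    rintro rfl
    exact h (dvd_zero p)
  rw [padicValNat.mul (pow_ne_zero k hp.ne_zero) hm, padicValNat.prime_pow, BAv_zero h, add_zero]

private theorem BAv_one {p m : ℕ} (hp : p.Prime) (h : ¬ p ∣ m) : padicValNat p (p * m) = 1 := by
  have h1 := BAv_pow (k := 1) hp h
  rwa [pow_one] at h1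

/-- nothing divisible by `p`. -/
theorem vP_none {p : ℕ} (hp : p.Prime) {P : ℚ → ℚ} (hP : IsLog P) {U V W : ℕ} (hU : 0 < U)
    (hV : 0 < V) (h : U + V = W) (dU : ¬ p ∣ U) (dV : ¬ p ∣ V) (dW : ¬ p ∣ W) :
    dA (vP p P) ((U : ℚ) / W) = 0 := by
  rw [BAv_core hp hP hU hV h, BAv_zero dU, BAv_zero dV, BAv_zero dW]
  push_cast
  ring

/-- `V = p V'`. -/
theorem vP_V {p : ℕ} (hp : p.Prime) {P : ℚ → ℚ} (hP : IsLog P) {U V V' W : ℕ} (hU : 0 < U)
    (hV : 0 < V) (h : U + V = W) (dU : ¬ p ∣ U) (eV : V = p * V') (dV' : ¬ p ∣ V')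
    (dW : ¬ p ∣ W) : dA (vP p P) ((U : ℚ) / W) = P U - P W := by
  have h1 : padicValNat p V = 1 := by rw [eV]; exact BAv_one hp dV'
  rw [BAv_core hp hP hU hV h, BAv_zero dU, h1, BAv_zero dW]
  push_cast
  ring

/-- `U = p U'`. -/
theorem vP_U {p : ℕ} (hp : p.Prime) {P : ℚ → ℚ} (hP : IsLog P) {U V U' W : ℕ} (hU : 0 < U)
    (hV : 0 < V) (h : U + V = W) (dV : ¬ p ∣ V) (eU : U = p * U') (dU' : ¬ p ∣ U')
    (dW : ¬ p ∣ W) : dA (vP p P) ((U : ℚ) / W) = P W - P V := by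
  have h1 : padicValNat p U = 1 := by rw [eU]; exact BAv_one hp dU'
  rw [BAv_core hp hP hU hV h, BAv_zero dV, h1, BAv_zero dW]
  push_cast
  ring

/-- `W = p ^ k W'`. -/
theorem vP_W {p : ℕ} (hp : p.Prime) {P : ℚ → ℚ} (hP : IsLog P) {U V W W' k : ℕ} (hU : 0 < U)
    (hV : 0 < V) (h : U + V = W) (dU : ¬ p ∣ U) (dV : ¬ p ∣ V) (eW : W = p ^ k * W')
    (dW' : ¬ p ∣ W') : dA (vP p P) ((U : ℚ) / W) = k * (P V - P U) := by
  have h1 : padicValNat p W = k := by rw [eW]; exact BAv_pow hp dW'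
  rw [BAv_core hp hP hU hV h, BAv_zero dV, BAv_zero dU, h1]
  push_cast
  ring

end Pool.Agent.QGC
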