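import Pool.Agent.QGC.BD

/-!
# QGC-BCmp: the composite step, one product `N * d23`

PLAN (composite step of /team-store/qgc_paper.md). `d01 = N = n1 q`. `r = N d23 / (d02 d13)`,
`1 - r = d03 d12 / (d02 d13)`.
(a) If `q` divides `d02` or `d13`, it divides `d03` or `d12` (prime, `d03 d12 = d02 d13 - N d23`),
and conversely.  Then (e.g. `d02 = q x`, `d03 = q y`) `n1 d23 + y d12 = x d13`, and
`l r = - l (1 - r) = - l (y d12 / (x d13)) = 0` by `hS` (`a b = y d12`, `c = n1`).  The four
combinations are similar.  (`l (1 - r) = - l r`: `hl.sub`.)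
(b) Else `d02, d13, d03, d12` are units mod `q`.  Choose `al` in `[1, q-1]` with
`al d12 = d02 mod q`; then `al d13 = d03 mod q` (from `d02 d13 = d03 d12 mod q`).  Integers `x, y`
with `d02 - al d12 = q x`, `d03 - al d13 = q y`.  Put `d04 = n1 al`, `d14 = n1`, `d24 = x`, `d34 = y`
(so `N d24 + d04 d12 = d02 d14`, `N d34 + d04 d13 = d03 d14`, and over ℚ also
`d02 d34 + d04 d23 = d03 d24`, `d12 d34 + d14 d23 = d13 d24`: multiply by `N` and use `e`).
`|x|, |y| ≤ (N-1)(1+al)/q ≤ N - 1`.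
* `x = 0`: `d02 = al d12`; then `r = - q y / (al d13)`, `1 - r = d03 / (al d13)`: `hZ` with letters
  `q, -y, 1, d03, al, d13` (`y ≠ 0` since `d23 ≠ 0`).
* `y = 0`: `d03 = al d13`; `r = q x / d02`, `1 - r = al d12 / d02`: `hZ` (letters `q, x, al, d12, d02, 1`).
* else `Five.signed` with `d01 = N, ...`: `omit0 = l (d12 d34 / (d13 d24)) = 0` and
  `omit1 = l (d02 d34 / (d03 d24)) = 0` by `hS` (`c = d14 = n1` resp. `c = d04 = n1 al < N`),
  `omit2 = l (N d34 / (d03 n1)) = l (q y / d03) = 0` by `hZ` (`q y + al d13 = d03`),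
  `omit3 = l (N d24 / (d02 n1)) = l (q x / d02) = 0` by `hZ` (`q x + al d12 = d02`).
-/

set_option autoImplicit false

namespace Pool.Agent.QGC

private lemma one_sub_zero {l : ℚ → ℚ} (hl : Five l) {u v w : ℚ} (hu : u ≠ 0) (hv : v ≠ 0)
    (hw : w ≠ 0) (h : u + v = w) (hz : l (v / w) = 0) : l (u / w) = 0 := by
  have h1 : v / w ≠ 0 := div_ne_zero hv hw
  have h2 : v / w ≠ 1 := by
    intro h'
    rw [div_eq_one_iff_eq hw] at h'
    exact hu (by linarith)
  have h3 := hl.sub _ h1 h2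
  have h4 : 1 - v / w = u / w := by field_simp; linarith
  rw [h4, hz] at h3
  linarith

private lemma abs_le_of_mul {q x M : ℤ} (hq : 1 ≤ q) (h : |q * x| ≤ M) : |x| ≤ M := by
  rw [abs_mul, abs_of_pos (by linarith : (0 : ℤ) < q)] at h
  nlinarith [abs_nonneg x]

theorem comp_core {l : ℚ → ℚ} (hl : Five l) {N n1 q : ℕ} (hq : q.Prime) (hn1 : 2 ≤ n1)
    (hN : N = n1 * q) (hZ : ZZ l (N - 1)) (d23 d02 d13 d03 d12 : ℤ) (h23 : d23 ≠ 0)
    (h02 : d02 ≠ 0) (h13 : d13 ≠ 0) (h03 : d03 ≠ 0) (h12 : d12 ≠ 0)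
    (b02 : |d02| ≤ ((N - 1 : ℕ) : ℤ)) (b13 : |d13| ≤ ((N - 1 : ℕ) : ℤ))
    (b03 : |d03| ≤ ((N - 1 : ℕ) : ℤ)) (b12 : |d12| ≤ ((N - 1 : ℕ) : ℤ))
    (e : (N : ℤ) * d23 + d03 * d12 = d02 * d13)
    (hS : ∀ a b c e f : ℤ, a ≠ 0 → b ≠ 0 → c ≠ 0 → e ≠ 0 → f ≠ 0 → |a| ≤ ((N - 1 : ℕ) : ℤ) →
      |b| ≤ ((N - 1 : ℕ) : ℤ) → |c| ≤ ((N - 1 : ℕ) : ℤ) → |e| ≤ ((N - 1 : ℕ) : ℤ) →
      |f| ≤ ((N - 1 : ℕ) : ℤ) → a * b + c * d23 = e * f → l ((a * b : ℚ) / (e * f)) = 0) :
    l ((N * d23 : ℚ) / (d02 * d13)) = 0 := by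
  have hq2 : 2 ≤ q := hq.two_le
  have hN1 : 1 ≤ N := by rw [hN]; nlinarith
  have hM : ((N - 1 : ℕ) : ℤ) = (N : ℤ) - 1 := by push_cast [Nat.cast_sub hN1]; ring
  have hqz : (2 : ℤ) ≤ q := by exact_mod_cast hq2
  have hnz : (2 : ℤ) ≤ n1 := by exact_mod_cast hn1
  have hNz : (N : ℤ) = n1 * q := by exact_mod_cast hN
  have hNpos : (0 : ℤ) < N := by rw [hNz]; positivity
  have hn1M : |(n1 : ℤ)| ≤ ((N - 1 : ℕ) : ℤ) := by
    rw [abs_of_pos (by linarith), hM, hNz]; nlinarith
  have hqM : |(q : ℤ)| ≤ ((N - 1 : ℕ) : ℤ) := by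
    rw [abs_of_pos (by linarith), hM, hNz]; nlinarith
  have h1M : |(1 : ℤ)| ≤ ((N - 1 : ℕ) : ℤ) := by
    rw [abs_one, hM, hNz]; nlinarith
  have hqp : Prime (q : ℤ) := Nat.prime_iff_prime_int.mp hq
  have eQ : (N : ℚ) * d23 + d03 * d12 = d02 * d13 := by exact_mod_cast e
  have hNQ : (N : ℚ) = n1 * q := by exact_mod_cast hN
  have Q23 : (d23 : ℚ) ≠ 0 := by exact_mod_cast h23
  have Q02 : (d02 : ℚ) ≠ 0 := by exact_mod_cast h02
  have Q13 : (d13 : ℚ) ≠ 0 := by exact_mod_cast h13
  have Q03 : (d03 : ℚ) ≠ 0 := by exact_mod_cast h03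
  have Q12 : (d12 : ℚ) ≠ 0 := by exact_mod_cast h12
  have QN : (N : ℚ) ≠ 0 := by exact_mod_cast hNpos.ne'
  have hq0 : (q : ℚ) ≠ 0 := by
    have : (q : ℤ) ≠ 0 := by linarith
    exact_mod_cast this
  have Qn : (n1 : ℚ) ≠ 0 := by
    have : (n1 : ℤ) ≠ 0 := by linarith
    exact_mod_cast this
  have zq : (q : ℤ) ≠ 0 := by linarith
  have zn : (n1 : ℤ) ≠ 0 := by linarith
  by_cases hdiv : (q : ℤ) ∣ d02 ∨ (q : ℤ) ∣ d13
  · -- the case of cancellation
    have hdiv2 : (q : ℤ) ∣ d03 ∨ (q : ℤ) ∣ d12 := by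
      apply hqp.dvd_or_dvd
      have h1 : (q : ℤ) ∣ d02 * d13 := by
        rcases hdiv with h | h
        · exact h.mul_right _
        · exact h.mul_left _
      have h2 : d03 * d12 = d02 * d13 - q * (n1 * d23) := by
        rw [← e, hNz]; ring
      rw [h2]
      exact dvd_sub h1 (dvd_mul_right _ _)
    refine one_sub_zero hl (mul_ne_zero QN Q23) (mul_ne_zero Q03 Q12) (mul_ne_zero Q02 Q13) eQ ?_
    rcases hdiv with ⟨x, hx⟩ | ⟨x, hx⟩ <;> rcases hdiv2 with ⟨y, hy⟩ | ⟨y, hy⟩
    · have x0 : x ≠ 0 := by rintro rfl; exact h02 (by rw [hx]; ring)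
      have y0 : y ≠ 0 := by rintro rfl; exact h03 (by rw [hy]; ring)
      have bx := abs_le_of_mul (by linarith) (hx ▸ b02)
      have bY := abs_le_of_mul (by linarith) (hy ▸ b03)
      have key := hS y d12 n1 x d13 y0 h12 zn x0 h13 bY b12 hn1M bx b13 (by
        have h1 : (q : ℤ) * (y * d12 + n1 * d23) = q * (x * d13) := by
          rw [hx, hy, hNz] at e; linear_combination e
        exact mul_left_cancel₀ zq h1)
      have h2 : ((d03 : ℚ) * d12 / (d02 * d13)) = (y * d12 : ℚ) / (x * d13) := by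
        rw [hx, hy]; push_cast; rw [mul_assoc, mul_assoc, mul_div_mul_left _ _ hq0]
      rw [h2]; exact key
    · have x0 : x ≠ 0 := by rintro rfl; exact h02 (by rw [hx]; ring)
      have y0 : y ≠ 0 := by rintro rfl; exact h12 (by rw [hy]; ring)
      have bx := abs_le_of_mul (by linarith) (hx ▸ b02)
      have bY := abs_le_of_mul (by linarith) (hy ▸ b12)
      have key := hS d03 y n1 x d13 h03 y0 zn x0 h13 b03 bY hn1M bx b13 (by
        have h1 : (q : ℤ) * (d03 * y + n1 * d23) = q * (x * d13) := by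
          rw [hx, hy, hNz] at e; linear_combination e
        exact mul_left_cancel₀ zq h1)
      have h2 : ((d03 : ℚ) * d12 / (d02 * d13)) = (d03 * y : ℚ) / (x * d13) := by
        rw [hx, hy]; push_cast
        rw [mul_left_comm, mul_assoc, mul_div_mul_left _ _ hq0]
      rw [h2]; exact key
    · have x0 : x ≠ 0 := by rintro rfl; exact h13 (by rw [hx]; ring)
      have y0 : y ≠ 0 := by rintro rfl; exact h03 (by rw [hy]; ring)
      have bx := abs_le_of_mul (by linarith) (hx ▸ b13)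
      have bY := abs_le_of_mul (by linarith) (hy ▸ b03)
      have key := hS y d12 n1 d02 x y0 h12 zn h02 x0 bY b12 hn1M b02 bx (by
        have h1 : (q : ℤ) * (y * d12 + n1 * d23) = q * (d02 * x) := by
          rw [hx, hy, hNz] at e; linear_combination e
        exact mul_left_cancel₀ zq h1)
      have h2 : ((d03 : ℚ) * d12 / (d02 * d13)) = (y * d12 : ℚ) / (d02 * x) := by
        rw [hx, hy]; push_cast
        rw [mul_left_comm (d02 : ℚ), mul_assoc, mul_div_mul_left _ _ hq0]
      rw [h2]; exact key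
    · have x0 : x ≠ 0 := by rintro rfl; exact h13 (by rw [hx]; ring)
      have y0 : y ≠ 0 := by rintro rfl; exact h12 (by rw [hy]; ring)
      have bx := abs_le_of_mul (by linarith) (hx ▸ b13)
      have bY := abs_le_of_mul (by linarith) (hy ▸ b12)
      have key := hS d03 y n1 d02 x h03 y0 zn h02 x0 b03 bY hn1M b02 bx (by
        have h1 : (q : ℤ) * (d03 * y + n1 * d23) = q * (d02 * x) := by
          rw [hx, hy, hNz] at e; linear_combination e
        exact mul_left_cancel₀ zq h1)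
      have h2 : ((d03 : ℚ) * d12 / (d02 * d13)) = (d03 * y : ℚ) / (d02 * x) := by
        rw [hx, hy]; push_cast
        rw [mul_left_comm (d02 : ℚ), mul_left_comm (d03 : ℚ), mul_div_mul_left _ _ hq0]
      rw [h2]; exact key
  · -- the main case
    push Not at hdiv
    obtain ⟨n02, n13⟩ := hdiv
    have n12 : ¬ (q : ℤ) ∣ d12 := by
      intro h
      have h1 : (q : ℤ) ∣ d02 * d13 := by
        rw [← e, hNz]
        exact dvd_add ⟨n1 * d23, by ring⟩ (h.mul_left _)
      rcases hqp.dvd_or_dvd h1 with h2 | h2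
      · exact n02 h2
      · exact n13 h2
    have hcop : IsCoprime (q : ℤ) d12 := (Int.prime_iff_natAbs_prime.mpr (by simpa using hq)).coprime_iff_not_dvd.mpr n12
    obtain ⟨s, u, hsu⟩ := hcop
    -- s * q + u * d12 = 1
    set al : ℤ := (u * d02) % q with hal
    have al0 : 0 ≤ al := Int.emod_nonneg _ zq
    have al1 : al < q := Int.emod_lt_of_pos _ (by linarith)
    have hdv : (q : ℤ) ∣ d02 - al * d12 := by
      have h1 : (q : ℤ) ∣ u * d02 - al := by
        rw [hal]; exact Int.dvd_self_sub_emod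
      have h2 : d02 - al * d12 = (u * d02 - al) * d12 + q * (s * d02) := by
        linear_combination (-d02 : ℤ) * hsu
      rw [h2]
      exact dvd_add (h1.mul_right _) (dvd_mul_right _ _)
    have alne : al ≠ 0 := by
      intro h
      rw [h] at hdv
      exact n02 (by simpa using hdv)
    have hdv2 : (q : ℤ) ∣ d03 - al * d13 := by
      have h1 : (q : ℤ) ∣ d12 * (d03 - al * d13) := by
        have h2 : d12 * (d03 - al * d13) = (d02 - al * d12) * d13 - q * (n1 * d23) := by
          rw [hNz] at e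
          linear_combination e
        rw [h2]
        exact dvd_sub (hdv.mul_right _) (dvd_mul_right _ _)
      exact (hqp.dvd_or_dvd h1).resolve_left n12
    obtain ⟨x, hx⟩ := hdv
    obtain ⟨y, hy⟩ := hdv2
    have halpos : 1 ≤ al := by omega
    have halM : |al| ≤ ((N - 1 : ℕ) : ℤ) := by
      rw [abs_of_nonneg al0]
      rw [abs_of_pos (by linarith : (0 : ℤ) < q)] at hqM
      linarith
    have hbd : ∀ a b z : ℤ, |a| ≤ ((N - 1 : ℕ) : ℤ) → |b| ≤ ((N - 1 : ℕ) : ℤ) →
        a - al * b = q * z → |z| ≤ ((N - 1 : ℕ) : ℤ) := by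
      intro a b z ha hb h
      have h1 : |(q : ℤ) * z| ≤ |a| + al * |b| := by
        rw [← h]
        calc |a - al * b| ≤ |a| + |al * b| := abs_sub _ _
          _ = |a| + al * |b| := by rw [abs_mul, abs_of_nonneg al0]
      rw [abs_mul, abs_of_pos (by linarith : (0 : ℤ) < q)] at h1
      have h2 : |a| + al * |b| ≤ q * ((N - 1 : ℕ) : ℤ) := by
        nlinarith [abs_nonneg a, abs_nonneg b]
      exact le_of_mul_le_mul_left (h1.trans h2) (by linarith)
    have bx := hbd _ _ _ b02 b12 hx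
    have bY := hbd _ _ _ b03 b13 hy
    have Qal : (al : ℚ) ≠ 0 := by exact_mod_cast alne
    have hxQ : (d02 : ℚ) - al * d12 = q * x := by exact_mod_cast hx
    have hyQ : (d03 : ℚ) - al * d13 = q * y := by exact_mod_cast hy
    by_cases x0 : x = 0
    · have y0 : y ≠ 0 := by
        rintro rfl
        rw [x0] at hx
        have h1 : (N : ℤ) * d23 = 0 := by
          linear_combination e + d13 * hx - d12 * hy
        rcases mul_eq_zero.mp h1 with h | h
        · exact hNpos.ne' h
        · exact h23 h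
      have key := hZ q (-y) 1 d03 al d13 zq (neg_ne_zero.mpr y0) one_ne_zero h03 alne h13 hqM
        (by rwa [abs_neg]) h1M b03 halM b13 (by linear_combination hy)
      have h2 : ((N : ℚ) * d23 / (d02 * d13)) =
          (((q : ℤ) : ℚ) * ((-y : ℤ) : ℚ) / ((al : ℚ) * (d13 : ℚ))) := by
        rw [x0] at hxQ
        push_cast
        rw [div_eq_div_iff (mul_ne_zero Q02 Q13) (mul_ne_zero Qal Q13)]
        have h3 : (d02 : ℚ) = al * d12 := by push_cast at hxQ; linarith
        have h4 : (N : ℚ) * d23 = al * d12 * d13 - d03 * d12 := by rw [← h3]; linarith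
        rw [h4, h3]
        linear_combination (-(d12 * al * d13 : ℚ)) * hyQ
      rw [h2]; exact key
    · by_cases y0 : y = 0
      · have key := hZ q x al d12 d02 1 zq x0 alne h12 h02 one_ne_zero hqM
          bx halM b12 b02 h1M (by linear_combination (-1 : ℤ) * hx)
        have h2 : ((N : ℚ) * d23 / (d02 * d13)) =
            (((q : ℤ) : ℚ) * (x : ℚ) / ((d02 : ℚ) * ((1 : ℤ) : ℚ))) := by
          rw [y0] at hyQ
          push_cast
          rw [div_eq_div_iff (mul_ne_zero Q02 Q13) (mul_ne_zero Q02 one_ne_zero)]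
          have h3 : (d03 : ℚ) = al * d13 := by push_cast at hyQ; linarith
          have h4 : (N : ℚ) * d23 = d02 * d13 - al * d13 * d12 := by rw [← h3]; linarith
          rw [h4]
          linear_combination (d02 * d13 : ℚ) * hxQ
        rw [h2]; exact key
      · have Qx : (x : ℚ) ≠ 0 := by exact_mod_cast x0
        have Qy : (y : ℚ) ≠ 0 := by exact_mod_cast y0
        have E1234 : d12 * y + n1 * d23 = d13 * x := by
          have h1 : (q : ℤ) * (d12 * y + n1 * d23) = q * (d13 * x) := by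
            rw [hNz] at e
            linear_combination e - d12 * hy + d13 * hx
          exact mul_left_cancel₀ zq h1
        have E0234 : d02 * y + n1 * al * d23 = d03 * x := by
          have h1 : (q : ℤ) * (d02 * y + n1 * al * d23) = q * (d03 * x) := by
            rw [hNz] at e
            linear_combination al * e - d02 * hy + d03 * hx
          exact mul_left_cancel₀ zq h1
        have main := hl.signed (d01 := (N : ℚ)) (d02 := d02) (d03 := d03) (d04 := n1 * al)
          (d12 := d12) (d13 := d13) (d14 := n1) (d23 := d23) (d24 := x) (d34 := y) QN Q02 Q03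
          (mul_ne_zero Qn Qal) Q12 Q13 Qn Q23 Qx Qy eQ
          (by rw [hNQ]; linear_combination (-(n1 : ℚ)) * hxQ)
          (by rw [hNQ]; linear_combination (-(n1 : ℚ)) * hyQ)
          (by exact_mod_cast E0234) (by exact_mod_cast E1234)
        have z0 : l ((d12 * y : ℚ) / (d13 * x)) = 0 :=
          hS d12 y n1 d13 x h12 y0 zn h13 x0 b12 bY hn1M b13 bx E1234
        have z1 : l ((d02 * y : ℚ) / (d03 * x)) = 0 := by
          refine hS d02 y (n1 * al) d03 x h02 y0 (mul_ne_zero zn alne) h03 x0 b02 bY ?_ b03 bx E0234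
          rw [abs_of_nonneg (by positivity), hM, hNz]
          nlinarith
        have z2 : l ((N * y : ℚ) / (d03 * n1)) = 0 := by
          have key := hZ q y al d13 d03 1 zq y0 alne h13 h03 one_ne_zero hqM
            bY halM b13 b03 h1M (by linear_combination (-1 : ℤ) * hy)
          have h2 : ((N : ℚ) * y / (d03 * n1)) =
              (((q : ℤ) : ℚ) * (y : ℚ) / ((d03 : ℚ) * ((1 : ℤ) : ℚ))) := by
            rw [hNQ]; push_cast; field_simp
          rw [h2]; exact key
        have z3 : l ((N * x : ℚ) / (d02 * n1)) = 0 := by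
          have key := hZ q x al d12 d02 1 zq x0 alne h12 h02 one_ne_zero hqM
            bx halM b12 b02 h1M (by linear_combination (-1 : ℤ) * hx)
          have h2 : ((N : ℚ) * x / (d02 * n1)) =
              (((q : ℤ) : ℚ) * (x : ℚ) / ((d02 : ℚ) * ((1 : ℤ) : ℚ))) := by
            rw [hNQ]; push_cast; field_simp
          rw [h2]; exact key
        rw [z0, z1, z2, z3] at main
        linarith

end Pool.Agent.QGC
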