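import Pool.Agent.QGC.BCmp

/-!
# QGC-BCmpA: the composite step

PLAN. `M := N - 1`, `N = n1 q ≥ 4`.  Letters `a..f` nonzero, `|.| ≤ N`, `a b + c d = e f`.
`single`: `|a| = N`, the others `≤ M`: `l (a b / (e f)) = 0` by `comp_core` (`a = N` or
`a b = N (-b)`; `d23 = ±b`, `d02 = e`, `d13 = f`, `d03 = c`, `d12 = d`, `hS` from `hZ`).
Other positions of the letter `±N`: `l (a b/(e f)) = - l (c d/(e f))` (`hl.sub`) and
`l (a b/(e f)) = - l (e f/(a b))` with `e f + (-c) d = a b` (`hl.inv`).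
`double`: `|a| = |b| = N`, the others `≤ M`: `comp_core` with `d23 = ± b`, and `hS` from `single`
(the letter `±N` is `d23` in `a b + c d23 = e f`: `l (a b/(e f)) = - l (c d23/(e f))`).
General: if `N` divides two of `U = a b, V = c d, W = e f`, it divides all three: `U = N U'` etc.,
`U' + V' = W'`, `|U'|, |V'|, |W'| ≤ N`, `U/W = U'/W'`, at most one of `U', V', W'` is `±N` (else the
third is `0` or `±2N`): `hZ` or `single` with letters `1`.  Otherwise letters `±N` occur only in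
one of the three products: none: `hZ`, one: `single`, two: `double` (with the position change
above).
-/

set_option autoImplicit false

namespace Pool.Agent.QGC

/-- the symmetric form: `u + v + w = 0`, `l` vanishes at `- u / w`. -/
private def T3 (l : ℚ → ℚ) (u v w : ℤ) : Prop :=
  u ≠ 0 → v ≠ 0 → w ≠ 0 → u + v + w = 0 → l (-(u : ℚ) / (w : ℚ)) = 0

private lemma T3.s12 {l : ℚ → ℚ} (hl : Five l) {u v w : ℤ} (h : T3 l u v w) : T3 l v u w := by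
  intro hv hu hw h0
  have h1 := h hu hv hw (by linarith)
  have hu' : (u : ℚ) ≠ 0 := by exact_mod_cast hu
  have hv' : (v : ℚ) ≠ 0 := by exact_mod_cast hv
  have hw' : (w : ℚ) ≠ 0 := by exact_mod_cast hw
  have h0' : (v : ℚ) + u + w = 0 := by exact_mod_cast h0
  have n0 : -(u : ℚ) / (w : ℚ) ≠ 0 := div_ne_zero (neg_ne_zero.mpr hu') hw'
  have n1 : -(u : ℚ) / (w : ℚ) ≠ 1 := by
    intro h'
    rw [div_eq_one_iff_eq hw'] at h'
    exact hv' (by linarith)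
  have h3 := hl.sub _ n0 n1
  have h4 : 1 - -(u : ℚ) / (w : ℚ) = -(v : ℚ) / (w : ℚ) := by
    field_simp
    linarith
  rw [h4, h1] at h3
  linarith

private lemma T3.s13 {l : ℚ → ℚ} (hl : Five l) {u v w : ℤ} (h : T3 l u v w) : T3 l w v u := by
  intro hw hv hu h0
  have h1 := h hu hv hw (by linarith)
  have hu' : (u : ℚ) ≠ 0 := by exact_mod_cast hu
  have hv' : (v : ℚ) ≠ 0 := by exact_mod_cast hv
  have hw' : (w : ℚ) ≠ 0 := by exact_mod_cast hw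
  have h0' : (w : ℚ) + v + u = 0 := by exact_mod_cast h0
  have n0 : -(u : ℚ) / (w : ℚ) ≠ 0 := div_ne_zero (neg_ne_zero.mpr hu') hw'
  have n1 : -(u : ℚ) / (w : ℚ) ≠ 1 := by
    intro h'
    rw [div_eq_one_iff_eq hw'] at h'
    exact hv' (by linarith)
  have h3 := hl.inv _ n0 n1
  have h4 : (-(u : ℚ) / (w : ℚ))⁻¹ = -(w : ℚ) / (u : ℚ) := by
    rw [inv_div]
    field_simp
  rw [h4, h1] at h3
  linarith

private lemma T3.scale {l : ℚ → ℚ} {u v w : ℤ} (k : ℤ) (hk : k ≠ 0) (h : T3 l u v w) :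
    T3 l (k * u) (k * v) (k * w) := by
  intro hu hv hw h0
  have hk' : (k : ℚ) ≠ 0 := by exact_mod_cast hk
  have h1 := h (right_ne_zero_of_mul hu) (right_ne_zero_of_mul hv) (right_ne_zero_of_mul hw) (by
    have : k * (u + v + w) = 0 := by linarith
    exact (mul_eq_zero.mp this).resolve_left hk)
  have h2 : -((k * u : ℤ) : ℚ) / ((k * w : ℤ) : ℚ) = -(u : ℚ) / (w : ℚ) := by
    push_cast
    rw [show -((k : ℚ) * u) = k * (-u) by ring, mul_div_mul_left _ _ hk']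
  rw [h2]
  exact h1

/-- all letters small -/
private lemma T3_of_ZZ {l : ℚ → ℚ} {X : ℕ} (hZ : ZZ l X) {a b c d e f : ℤ}
    (ba : |a| ≤ X) (bb : |b| ≤ X) (bc : |c| ≤ X) (bd : |d| ≤ X) (be : |e| ≤ X) (bf : |f| ≤ X) :
    T3 l (a * b) (c * d) (e * f) := by
  intro hu hv hw h0
  have h := hZ a b c d (-e) f (left_ne_zero_of_mul hu) (right_ne_zero_of_mul hu)
    (left_ne_zero_of_mul hv) (right_ne_zero_of_mul hv) (neg_ne_zero.mpr (left_ne_zero_of_mul hw))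
    (right_ne_zero_of_mul hw) ba bb bc bd (by rw [abs_neg]; exact be) bf (by linarith)
  have h2 : -((a * b : ℤ) : ℚ) / ((e * f : ℤ) : ℚ) =
      ((a : ℚ) * b) / (((-e : ℤ) : ℚ) * f) := by
    push_cast
    rw [neg_mul, div_neg, neg_div]
  rw [h2]
  exact h

/-- comp_core in the symmetric form: the letter `a` is `±N` -/
private lemma T3_core {l : ℚ → ℚ} (hl : Five l) {N n1 q : ℕ} (hq : q.Prime) (hn1 : 2 ≤ n1)
    (hN : N = n1 * q) (hZ : ZZ l (N - 1)) {a b c d e f : ℤ} (ba : |a| = (N : ℤ))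
    (bc : |c| ≤ ((N - 1 : ℕ) : ℤ)) (bd : |d| ≤ ((N - 1 : ℕ) : ℤ)) (be : |e| ≤ ((N - 1 : ℕ) : ℤ))
    (bf : |f| ≤ ((N - 1 : ℕ) : ℤ))
    (hS : ∀ b' A B C E F : ℤ, (b' = b ∨ b' = -b) → |A| ≤ ((N - 1 : ℕ) : ℤ) →
      |B| ≤ ((N - 1 : ℕ) : ℤ) → |C| ≤ ((N - 1 : ℕ) : ℤ) → |E| ≤ ((N - 1 : ℕ) : ℤ) →
      |F| ≤ ((N - 1 : ℕ) : ℤ) → T3 l (A * B) (C * b') (E * F)) :
    T3 l (a * b) (c * d) (e * f) := by
  intro hu hv hw h0
  have hb : b ≠ 0 := right_ne_zero_of_mul hu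
  obtain ⟨b', hb', hab⟩ : ∃ b' : ℤ, (b' = b ∨ b' = -b) ∧ a * b = (N : ℤ) * b' := by
    rcases (abs_eq (by positivity : (0 : ℤ) ≤ (N : ℤ))).mp ba with h | h
    · exact ⟨b, Or.inl rfl, by rw [h]⟩
    · exact ⟨-b, Or.inr rfl, by rw [h]; ring⟩
  have hb0 : b' ≠ 0 := by
    rcases hb' with h | h
    · rw [h]; exact hb
    · rw [h]; exact neg_ne_zero.mpr hb
  have h := comp_core hl hq hn1 hN hZ b' (-e) f c d hb0
    (neg_ne_zero.mpr (left_ne_zero_of_mul hw)) (right_ne_zero_of_mul hw)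
    (left_ne_zero_of_mul hv) (right_ne_zero_of_mul hv) (by rw [abs_neg]; exact be) bf bc bd
    (by rw [← hab]; linarith) (by
      intro A B C E F hA hB hC hE hF bA bB bC bE bF hABC
      have h3 := hS b' A B C (-E) F hb' bA bB bC (by rw [abs_neg]; exact bE) bF
        (mul_ne_zero hA hB) (mul_ne_zero hC hb0) (mul_ne_zero (neg_ne_zero.mpr hE) hF)
        (by linarith)
      have h4 : -((A * B : ℤ) : ℚ) / ((-E * F : ℤ) : ℚ) = ((A : ℚ) * B) / ((E : ℚ) * F) := by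
        push_cast
        rw [neg_mul, neg_div_neg_eq]
      rw [h4] at h3
      exact h3)
  have h2 : -((a * b : ℤ) : ℚ) / ((e * f : ℤ) : ℚ) =
      ((N : ℚ) * b') / (((-e : ℤ) : ℚ) * f) := by
    rw [hab]
    push_cast
    rw [neg_mul, div_neg, neg_div]
  rw [h2]
  exact h

private lemma T3_single {l : ℚ → ℚ} (hl : Five l) {N n1 q : ℕ} (hq : q.Prime) (hn1 : 2 ≤ n1)
    (hN : N = n1 * q) (hZ : ZZ l (N - 1)) {a b c d e f : ℤ} (ba : |a| = (N : ℤ))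
    (bb : |b| ≤ ((N - 1 : ℕ) : ℤ))
    (bc : |c| ≤ ((N - 1 : ℕ) : ℤ)) (bd : |d| ≤ ((N - 1 : ℕ) : ℤ)) (be : |e| ≤ ((N - 1 : ℕ) : ℤ))
    (bf : |f| ≤ ((N - 1 : ℕ) : ℤ)) : T3 l (a * b) (c * d) (e * f) := by
  apply T3_core hl hq hn1 hN hZ ba bc bd be bf
  intro b' A B C E F hb' bA bB bC bE bF
  apply T3_of_ZZ hZ bA bB bC _ bE bF
  rcases hb' with h | h
  · rw [h]; exact bb
  · rw [h, abs_neg]; exact bb

private lemma T3_double {l : ℚ → ℚ} (hl : Five l) {N n1 q : ℕ} (hq : q.Prime) (hn1 : 2 ≤ n1)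
    (hN : N = n1 * q) (hZ : ZZ l (N - 1)) {a b c d e f : ℤ} (ba : |a| = (N : ℤ))
    (bb : |b| = (N : ℤ))
    (bc : |c| ≤ ((N - 1 : ℕ) : ℤ)) (bd : |d| ≤ ((N - 1 : ℕ) : ℤ)) (be : |e| ≤ ((N - 1 : ℕ) : ℤ))
    (bf : |f| ≤ ((N - 1 : ℕ) : ℤ)) : T3 l (a * b) (c * d) (e * f) := by
  apply T3_core hl hq hn1 hN hZ ba bc bd be bf
  intro b' A B C E F hb' bA bB bC bE bF
  have hb : |b'| = (N : ℤ) := by
    rcases hb' with h | h
    · rw [h]; exact bb
    · rw [h, abs_neg]; exact bb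
  have h := T3_single hl hq hn1 hN hZ (a := b') (b := C) (c := A) (d := B) (e := E) (f := F)
    hb bC bA bB bE bF
  rw [mul_comm b' C] at h
  exact h.s12 hl

private lemma T3_first {l : ℚ → ℚ} (hl : Five l) {N n1 q : ℕ} (hq : q.Prime) (hn1 : 2 ≤ n1)
    (hN : N = n1 * q) (hZ : ZZ l (N - 1)) {a b c d e f : ℤ} (ba : |a| ≤ (N : ℤ))
    (bb : |b| ≤ (N : ℤ))
    (bc : |c| ≤ ((N - 1 : ℕ) : ℤ)) (bd : |d| ≤ ((N - 1 : ℕ) : ℤ)) (be : |e| ≤ ((N - 1 : ℕ) : ℤ))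
    (bf : |f| ≤ ((N - 1 : ℕ) : ℤ)) : T3 l (a * b) (c * d) (e * f) := by
  have hN1 : 1 ≤ N := by rw [hN]; nlinarith [hq.two_le]
  have hM : ((N - 1 : ℕ) : ℤ) = (N : ℤ) - 1 := by push_cast [Nat.cast_sub hN1]; ring
  by_cases ha : |a| ≤ ((N - 1 : ℕ) : ℤ)
  · by_cases hb : |b| ≤ ((N - 1 : ℕ) : ℤ)
    · exact T3_of_ZZ hZ ha hb bc bd be bf
    · have hb' : |b| = (N : ℤ) := by omega
      rw [mul_comm a b]
      exact T3_single hl hq hn1 hN hZ hb' ha bc bd be bf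
  · have ha' : |a| = (N : ℤ) := by omega
    by_cases hb : |b| ≤ ((N - 1 : ℕ) : ℤ)
    · exact T3_single hl hq hn1 hN hZ ha' hb bc bd be bf
    · have hb' : |b| = (N : ℤ) := by omega
      exact T3_double hl hq hn1 hN hZ ha' hb' bc bd be bf

/-- `N` divides all three products -/
private lemma T3_dvd {l : ℚ → ℚ} (hl : Five l) {N n1 q : ℕ} (hq : q.Prime) (hn1 : 2 ≤ n1)
    (hN : N = n1 * q) (hZ : ZZ l (N - 1)) {u v w : ℤ} (bu : |u| ≤ (N : ℤ))
    (bv : |v| ≤ (N : ℤ)) (bw : |w| ≤ (N : ℤ)) : T3 l u v w := by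
  intro hu hv hw h0
  have hN4 : 4 ≤ N := by rw [hN]; nlinarith [hq.two_le]
  have hM : ((N - 1 : ℕ) : ℤ) = (N : ℤ) - 1 := by push_cast [Nat.cast_sub (by omega : 1 ≤ N)]; ring
  have b1 : |(1 : ℤ)| ≤ ((N - 1 : ℕ) : ℤ) := by rw [abs_one]; omega
  -- symmetric in the three
  have key : ∀ x y z : ℤ, |x| ≤ (N : ℤ) → |y| ≤ ((N - 1 : ℕ) : ℤ) → |z| ≤ ((N - 1 : ℕ) : ℤ) →
      T3 l x y z := by
    intro x y z bx bY bZ
    have h := T3_first hl hq hn1 hN hZ (a := x) (b := 1) (c := y) (d := 1) (e := z) (f := 1)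
      bx (le_trans b1 (by omega)) bY b1 bZ b1
    simpa using h
  by_cases cu : |u| ≤ ((N - 1 : ℕ) : ℤ)
  · by_cases cv : |v| ≤ ((N - 1 : ℕ) : ℤ)
    · exact ((key w v u bw cv cu).s13 hl) hu hv hw h0
    · by_cases cw : |w| ≤ ((N - 1 : ℕ) : ℤ)
      · exact ((key v u w bv cu cw).s12 hl) hu hv hw h0
      · exfalso
        have h1 : |v| = (N : ℤ) := by omega
        have h2 : |w| = (N : ℤ) := by omega
        rcases abs_cases v with hv1 | hv1 <;> rcases abs_cases w with hw1 | hw1 <;>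
          rcases abs_cases u with hu1 | hu1 <;> omega
  · have h1 : |u| = (N : ℤ) := by omega
    by_cases cv : |v| ≤ ((N - 1 : ℕ) : ℤ)
    · by_cases cw : |w| ≤ ((N - 1 : ℕ) : ℤ)
      · exact (key u v w bu cv cw) hu hv hw h0
      · exfalso
        have h2 : |w| = (N : ℤ) := by omega
        rcases abs_cases v with hv1 | hv1 <;> rcases abs_cases w with hw1 | hw1 <;>
          rcases abs_cases u with hu1 | hu1 <;> omega
    · exfalso
      have h2 : |v| = (N : ℤ) := by omega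
      rcases abs_cases v with hv1 | hv1 <;> rcases abs_cases w with hw1 | hw1 <;>
        rcases abs_cases u with hu1 | hu1 <;> omega

private lemma T3_all {l : ℚ → ℚ} (hl : Five l) {N n1 q : ℕ} (hq : q.Prime) (hn1 : 2 ≤ n1)
    (hN : N = n1 * q) (hZ : ZZ l (N - 1)) {a b c d e f : ℤ} (ba : |a| ≤ (N : ℤ))
    (bb : |b| ≤ (N : ℤ)) (bc : |c| ≤ (N : ℤ)) (bd : |d| ≤ (N : ℤ)) (be : |e| ≤ (N : ℤ))
    (bf : |f| ≤ (N : ℤ)) : T3 l (a * b) (c * d) (e * f) := by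
  intro hu hv hw h0
  have hN4 : 4 ≤ N := by rw [hN]; nlinarith [hq.two_le]
  have hNp : (0 : ℤ) < (N : ℤ) := by omega
  have hM : ((N - 1 : ℕ) : ℤ) = (N : ℤ) - 1 := by push_cast [Nat.cast_sub (by omega : 1 ≤ N)]; ring
  -- all divisible
  have all : (N : ℤ) ∣ a * b → (N : ℤ) ∣ c * d → (N : ℤ) ∣ e * f →
      l (-((a * b : ℤ) : ℚ) / ((e * f : ℤ) : ℚ)) = 0 := by
    rintro ⟨u, hu'⟩ ⟨v, hv'⟩ ⟨w, hw'⟩
    have bnd : ∀ x y z : ℤ, |x| ≤ (N : ℤ) → |y| ≤ (N : ℤ) → x * y = N * z → |z| ≤ (N : ℤ) := by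
      intro x y z hx hy hxy
      have h1 : |x| * |y| = (N : ℤ) * |z| := by
        rw [← abs_mul, hxy, abs_mul, abs_of_pos hNp]
      have h2 : |x| * |y| ≤ (N : ℤ) * N := mul_le_mul hx hy (abs_nonneg _) hNp.le
      have h3 : (N : ℤ) * |z| ≤ (N : ℤ) * N := by rw [← h1]; exact h2
      exact le_of_mul_le_mul_left h3 hNp
    have h := (T3_dvd hl hq hn1 hN hZ (bnd a b u ba bb hu') (bnd c d v bc bd hv')
      (bnd e f w be bf hw')).scale (N : ℤ) hNp.ne'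
    rw [hu', hw']
    rw [hu'] at hu h0
    rw [hv'] at hv h0
    rw [hw'] at hw h0
    exact h hu hv hw h0
  have big : ∀ x y : ℤ, |x| ≤ (N : ℤ) → |y| ≤ (N : ℤ) →
      ¬ (|x| ≤ ((N - 1 : ℕ) : ℤ) ∧ |y| ≤ ((N - 1 : ℕ) : ℤ)) → (N : ℤ) ∣ x * y := by
    intro x y hx hy h
    by_cases hx' : |x| ≤ ((N - 1 : ℕ) : ℤ)
    · have hy' : |y| = (N : ℤ) := by
        have : ¬ |y| ≤ ((N - 1 : ℕ) : ℤ) := fun h' => h ⟨hx', h'⟩
        omega
      have : (N : ℤ) ∣ y := (dvd_abs _ _).mp (by rw [hy'])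
      exact Dvd.dvd.mul_left this x
    · have hy' : |x| = (N : ℤ) := by omega
      have : (N : ℤ) ∣ x := (dvd_abs _ _).mp (by rw [hy'])
      exact Dvd.dvd.mul_right this y
  by_cases p1 : |a| ≤ ((N - 1 : ℕ) : ℤ) ∧ |b| ≤ ((N - 1 : ℕ) : ℤ)
  · by_cases p2 : |c| ≤ ((N - 1 : ℕ) : ℤ) ∧ |d| ≤ ((N - 1 : ℕ) : ℤ)
    · exact ((T3_first hl hq hn1 hN hZ be bf p2.1 p2.2 p1.1 p1.2).s13 hl) hu hv hw h0
    · by_cases p3 : |e| ≤ ((N - 1 : ℕ) : ℤ) ∧ |f| ≤ ((N - 1 : ℕ) : ℤ)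
      · exact ((T3_first hl hq hn1 hN hZ bc bd p1.1 p1.2 p3.1 p3.2).s12 hl) hu hv hw h0
      · have d2 := big c d bc bd p2
        have d3 := big e f be bf p3
        exact all (by
          have : a * b = -(c * d) - e * f := by linarith
          rw [this]
          exact dvd_sub ((dvd_neg).mpr d2) d3) d2 d3
  · have d1 := big a b ba bb p1
    by_cases p2 : |c| ≤ ((N - 1 : ℕ) : ℤ) ∧ |d| ≤ ((N - 1 : ℕ) : ℤ)
    · by_cases p3 : |e| ≤ ((N - 1 : ℕ) : ℤ) ∧ |f| ≤ ((N - 1 : ℕ) : ℤ)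
      · exact (T3_first hl hq hn1 hN hZ ba bb p2.1 p2.2 p3.1 p3.2) hu hv hw h0
      · have d3 := big e f be bf p3
        exact all d1 (by
          have : c * d = -(a * b) - e * f := by linarith
          rw [this]
          exact dvd_sub ((dvd_neg).mpr d1) d3) d3
    · have d2 := big c d bc bd p2
      exact all d1 d2 (by
        have : e * f = -(a * b) - c * d := by linarith
        rw [this]
        exact dvd_sub ((dvd_neg).mpr d1) d2)

theorem comp_all {l : ℚ → ℚ} (hl : Five l) {N n1 q : ℕ} (hq : q.Prime) (hn1 : 2 ≤ n1)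
    (hN : N = n1 * q) (hZ : ZZ l (N - 1)) : ZZ l N := by
  intro a b c d e f ha hb hc hd he hf ba bb bc bd be bf habc
  have h := T3_all hl hq hn1 hN hZ ba bb bc bd (e := -e) (f := f) (by rw [abs_neg]; exact be) bf
    (mul_ne_zero ha hb) (mul_ne_zero hc hd) (mul_ne_zero (neg_ne_zero.mpr he) hf) (by linarith)
  have h2 : -((a * b : ℤ) : ℚ) / ((-e * f : ℤ) : ℚ) = ((a : ℚ) * b) / ((e : ℚ) * f) := by
    push_cast
    rw [neg_mul, neg_div_neg_eq]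
  rw [h2] at h
  exact h

end Pool.Agent.QGC
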