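import Pool.Agent.QGC.Defs

/-!
# Five-term functions on the rationals: notation for block B
-/

set_option autoImplicit false

namespace Pool.Agent.QGC

/-- the value of `l` at `u / (u + v)`. -/
def Lam (l : ℚ → ℚ) (u v : ℚ) : ℚ := l (u / (u + v))

/-- `l` vanishes at `ab / (ef)` for positive letters `≤ X` with `ab + cd = ef`. -/
def ZP (l : ℚ → ℚ) (X : ℕ) : Prop := ∀ a b c d e f : ℕ, 0 < a → 0 < b → 0 < c → 0 < d → 0 < e →
  0 < f → a ≤ X → b ≤ X → c ≤ X → d ≤ X → e ≤ X → f ≤ X → a * b + c * d = e * f →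
  Lam l (a * b) (c * d) = 0

/-- `l` vanishes at `ab / (ef)` for nonzero letters of absolute value `≤ X` with
`ab + cd = ef`. -/
def ZZ (l : ℚ → ℚ) (X : ℕ) : Prop := ∀ a b c d e f : ℤ, a ≠ 0 → b ≠ 0 → c ≠ 0 → d ≠ 0 → e ≠ 0 →
  f ≠ 0 → |a| ≤ X → |b| ≤ X → |c| ≤ X → |d| ≤ X → |e| ≤ X → |f| ≤ X → a * b + c * d = e * f →
  l ((a * b : ℚ) / (e * f)) = 0

open Classical in
/-- `t ↦ A t (1 - t)`, and `0` at `t = 0, 1`. -/
noncomputable def dA (A : ℚ → ℚ → ℚ) (t : ℚ) : ℚ := if t = 0 ∨ t = 1 then 0 else A t (1 - t)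

variable {l : ℚ → ℚ}

lemma Five.lam_swap (hl : Five l) {u v : ℚ} (hu : 0 < u) (hv : 0 < v) :
    Lam l v u = - Lam l u v := by
  have hs : 0 < u + v := by positivity
  have h1 : u / (u + v) ≠ 0 := by positivity
  have h2 : u / (u + v) ≠ 1 := by
    intro h
    rw [div_eq_one_iff_eq hs.ne'] at h
    linarith
  have h3 := hl.sub _ h1 h2
  have h4 : 1 - u / (u + v) = v / (v + u) := by field_simp; ring
  rw [h4] at h3
  exact h3

lemma lam_mul (k : ℚ) (hk : k ≠ 0) (u v : ℚ) : Lam l (k * u) (k * v) = Lam l u v := by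
  rw [Lam, Lam, ← mul_add, mul_div_mul_left _ _ hk]

lemma lam_eq {u v w : ℚ} (h : u + v = w) : Lam l u v = l (u / w) := by rw [Lam, h]

/-- `l` at a quotient of positive numbers which is `> 1`. -/
lemma Five.inv_lam (hl : Five l) {u v w : ℚ} (hu : 0 < u) (hv : 0 < v) (h : u + v = w) :
    l (w / u) = - Lam l u v := by
  have hw : 0 < w := by rw [← h]; positivity
  have h1 : u / w ≠ 0 := by positivity
  have h2 : u / w ≠ 1 := by
    intro h'
    rw [div_eq_one_iff_eq hw.ne'] at h'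
    linarith
  have h3 := hl.inv _ h1 h2
  rw [inv_div] at h3
  rw [h3, lam_eq h]

/-- Signed master five-term relation, `d i j` the determinants of five vectors. -/
lemma Five.signed (hl : Five l) {d01 d02 d03 d04 d12 d13 d14 d23 d24 d34 : ℚ}
    (h01 : d01 ≠ 0) (h02 : d02 ≠ 0) (h03 : d03 ≠ 0) (h04 : d04 ≠ 0) (h12 : d12 ≠ 0)
    (h13 : d13 ≠ 0) (h14 : d14 ≠ 0) (h23 : d23 ≠ 0) (h24 : d24 ≠ 0) (h34 : d34 ≠ 0)
    (e0123 : d01 * d23 + d03 * d12 = d02 * d13) (e0124 : d01 * d24 + d04 * d12 = d02 * d14)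
    (e0134 : d01 * d34 + d04 * d13 = d03 * d14) (e0234 : d02 * d34 + d04 * d23 = d03 * d24)
    (e1234 : d12 * d34 + d14 * d23 = d13 * d24) :
    l (d12 * d34 / (d13 * d24)) - l (d02 * d34 / (d03 * d24)) + l (d01 * d34 / (d03 * d14)) -
      l (d01 * d24 / (d02 * d14)) + l (d01 * d23 / (d02 * d13)) = 0 := by
  set x := d01 * d24 / (d02 * d14) with hx
  set y := d01 * d23 / (d02 * d13) with hy
  have ax : 1 - x = d04 * d12 / (d02 * d14) := by
    rw [hx]; field_simp; linear_combination (-1 : ℚ) * e0124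
  have ay : 1 - y = d03 * d12 / (d02 * d13) := by
    rw [hy]; field_simp; linear_combination (-1 : ℚ) * e0123
  have x0 : x ≠ 0 := by rw [hx]; positivity
  have y0 : y ≠ 0 := by rw [hy]; positivity
  have x1 : x ≠ 1 := by
    intro h
    have : (1 : ℚ) - x ≠ 0 := by rw [ax]; positivity
    exact this (by rw [h]; ring)
  have y1 : y ≠ 1 := by
    intro h
    have : (1 : ℚ) - y ≠ 0 := by rw [ay]; positivity
    exact this (by rw [h]; ring)
  -- r0 = d12 d34 / (d13 d24), r1 = d02 d34 / (d03 d24), r2 = d01 d34 / (d03 d14)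
  have r0 : 1 - d12 * d34 / (d13 * d24) = d14 * d23 / (d13 * d24) := by
    field_simp; linear_combination (-1 : ℚ) * e1234
  have r1 : 1 - d02 * d34 / (d03 * d24) = d04 * d23 / (d03 * d24) := by
    field_simp; linear_combination (-1 : ℚ) * e0234
  have r2 : 1 - d01 * d34 / (d03 * d14) = d04 * d13 / (d03 * d14) := by
    field_simp; linear_combination (-1 : ℚ) * e0134
  have q0 : y / x = d14 * d23 / (d13 * d24) := by rw [hx, hy]; field_simp
  have q2 : (1 - x) / (1 - y) = d04 * d13 / (d03 * d14) := by rw [ax, ay]; field_simp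
  have q1 : (1 - x⁻¹) / (1 - y⁻¹) = d04 * d23 / (d03 * d24) := by
    have h1 : (1 - x⁻¹) / (1 - y⁻¹) = (1 - x) / (1 - y) * (y / x) := by
      have h2 : (1 : ℚ) - y ≠ 0 := by rw [ay]; positivity
      have h3 : (1 : ℚ) - x⁻¹ = - (1 - x) / x := by field_simp; ring
      have h4 : (1 : ℚ) - y⁻¹ = - (1 - y) / y := by field_simp; ring
      rw [h3, h4]
      field_simp
    rw [h1, q2, q0]; field_simp
  have xy : x ≠ y := by
    intro h
    have h1 : y / x = 1 := by rw [h]; exact div_self y0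
    have h2 : d12 * d34 / (d13 * d24) ≠ 0 := by positivity
    apply h2
    have h3 := r0
    rw [← q0, h1] at h3
    linarith
  have s0 : l (d14 * d23 / (d13 * d24)) = - l (d12 * d34 / (d13 * d24)) := by
    rw [← r0]
    refine hl.sub _ (by positivity) ?_
    intro h
    have : d14 * d23 / (d13 * d24) ≠ 0 := by positivity
    apply this; rw [← r0, h]; ring
  have s1 : l (d04 * d23 / (d03 * d24)) = - l (d02 * d34 / (d03 * d24)) := by
    rw [← r1]
    refine hl.sub _ (by positivity) ?_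
    intro h
    have : d04 * d23 / (d03 * d24) ≠ 0 := by positivity
    apply this; rw [← r1, h]; ring
  have s2 : l (d04 * d13 / (d03 * d14)) = - l (d01 * d34 / (d03 * d14)) := by
    rw [← r2]
    refine hl.sub _ (by positivity) ?_
    intro h
    have : d04 * d13 / (d03 * d14) ≠ 0 := by positivity
    apply this; rw [← r2, h]; ring
  have main := hl.five x y x0 x1 y0 y1 xy
  rw [q0, q1, q2, s0, s1, s2] at main
  linarith

/-- Positive master five-term relation. -/
lemma Five.pos (hl : Five l) {d01 d02 d03 d04 d12 d13 d14 d23 d24 d34 : ℚ}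
    (h01 : 0 < d01) (h02 : 0 < d02) (h03 : 0 < d03) (h04 : 0 < d04) (h12 : 0 < d12)
    (h13 : 0 < d13) (h14 : 0 < d14) (h23 : 0 < d23) (h24 : 0 < d24) (h34 : 0 < d34)
    (e0123 : d01 * d23 + d03 * d12 = d02 * d13) (e0124 : d01 * d24 + d04 * d12 = d02 * d14)
    (e0134 : d01 * d34 + d04 * d13 = d03 * d14) (e0234 : d02 * d34 + d04 * d23 = d03 * d24)
    (e1234 : d12 * d34 + d14 * d23 = d13 * d24) :
    Lam l (d12 * d34) (d14 * d23) - Lam l (d02 * d34) (d04 * d23) +
      Lam l (d01 * d34) (d04 * d13) - Lam l (d01 * d24) (d04 * d12) +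
      Lam l (d01 * d23) (d03 * d12) = 0 := by
  have := hl.signed h01.ne' h02.ne' h03.ne' h04.ne' h12.ne' h13.ne' h14.ne' h23.ne' h24.ne'
    h34.ne' e0123 e0124 e0134 e0234 e1234
  rw [lam_eq e1234, lam_eq e0234, lam_eq e0134, lam_eq e0124, lam_eq e0123]
  exact this

end Pool.Agent.QGC
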