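import Pool.Agent.QGC.BD

/-!
# Block B: the properties used in the prime step
-/

set_option autoImplicit false

namespace Pool.Agent.QGC

/-- additivity of `l` on quotients of congruent fractions. -/
def R2P (l : ℚ → ℚ) (p : ℕ) : Prop := ∀ k1 l1 k2 l2 k3 l3 : ℕ, 0 < k1 → 0 < l1 → 0 < k2 →
  0 < l2 → 0 < k3 → 0 < l3 → k1 < p → l1 < p → k2 < p → l2 < p → k3 < p → l3 < p →
  (k1 * l2) % p = (k2 * l1) % p → (k2 * l3) % p = (k3 * l2) % p →
  l ((k1 * l2 : ℚ) / (l1 * k2)) + l ((k2 * l3 : ℚ) / (l2 * k3)) = l ((k1 * l3 : ℚ) / (l1 * k3))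

/-- positive type. -/
def PosP (l : ℚ → ℚ) (P : ℚ → ℚ) (p : ℕ) : Prop := ∀ m n m' n' : ℕ, 0 < m → 0 < n → 0 < m' →
  0 < n' → m < p → n < p → m' < p → n' < p → (m * n') % p = (m' * n) % p →
  l ((m * n' : ℚ) / (m' * n)) = P m - P n - P m' + P n'

/-- negative type. -/
def NegP (l : ℚ → ℚ) (P : ℚ → ℚ) (p : ℕ) : Prop := ∀ c d e f a : ℕ, 0 < c → 0 < d → 0 < e →
  0 < f → 0 < a → c < p → d < p → e < p → f < p → a < p → c * d + e * f = p * a →
  Lam l (c * d) (e * f) = P e + P f - P c - P d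

/-- `p²` type. -/
def SqP (l : ℚ → ℚ) (P : ℚ → ℚ) (p : ℕ) : Prop := ∀ c d e f : ℕ, 0 < c → 0 < d → 0 < e →
  0 < f → c < p → d < p → e < p → f < p → c * d + e * f = p * p →
  Lam l (c * d) (e * f) = 2 * (P e + P f - P c - P d)

end Pool.Agent.QGC
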