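import Pool.Agent.QGC.Defs

/-!
# QGC-BLog: extension to a log function

`P`, additive on the products of positive integers which are less than `p`, is extended from the primes
less than `p` to a function which is additive on the nonzero rationals and vanishes at the other primes.
-/

set_option autoImplicit false

namespace Pool.Agent.QGC

private noncomputable def BLogPn (f : ℕ → ℚ) (m : ℕ) : ℚ := (m.primeFactorsList.map f).sum

private theorem BLogPn_one (f : ℕ → ℚ) : BLogPn f 1 = 0 := by
  simp [BLogPn]

private theorem BLogPn_prime (f : ℕ → ℚ) {q : ℕ} (hq : q.Prime) : BLogPn f q = f q := by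
  simp [BLogPn, Nat.primeFactorsList_prime hq]

private theorem BLogPn_mul (f : ℕ → ℚ) {a b : ℕ} (ha : a ≠ 0) (hb : b ≠ 0) :
    BLogPn f (a * b) = BLogPn f a + BLogPn f b := by
  unfold BLogPn
  rw [((Nat.perm_primeFactorsList_mul ha hb).map f).sum_eq, List.map_append, List.sum_append]

private noncomputable def BLogQ (f : ℕ → ℚ) (x : ℚ) : ℚ := BLogPn f x.num.natAbs - BLogPn f x.den

private theorem BLogQ_log (f : ℕ → ℚ) : IsLog (BLogQ f) := by
  intro x y hx hy
  have h1 := Rat.mul_num_den' x y
  have h2 := congrArg Int.natAbs h1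
  simp only [Int.natAbs_mul, Int.natAbs_natCast] at h2
  have hn : ∀ z : ℚ, z ≠ 0 → z.num.natAbs ≠ 0 := fun z hz => by
    rw [Int.natAbs_ne_zero]; exact Rat.num_ne_zero.2 hz
  have hxy := mul_ne_zero hx hy
  have h3 := congrArg (BLogPn f) h2
  rw [BLogPn_mul f (mul_ne_zero (hn _ hxy) x.den_nz) y.den_nz, BLogPn_mul f (hn _ hxy) x.den_nz,
    BLogPn_mul f (mul_ne_zero (hn _ hx) (hn _ hy)) (x * y).den_nz,
    BLogPn_mul f (hn _ hx) (hn _ hy)] at h3
  unfold BLogQ
  linarith

private theorem BLogQ_nat (f : ℕ → ℚ) (m : ℕ) : BLogQ f m = BLogPn f m := by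
  unfold BLogQ
  rw [Rat.num_natCast, Rat.den_natCast, Int.natAbs_natCast, BLogPn_one, sub_zero]

theorem extend_log (p : ℕ) (P : ℕ → ℚ) (h1 : P 1 = 0)
    (hm : ∀ m n : ℕ, 0 < m → 0 < n → m * n < p → P (m * n) = P m + P n) :
    ∃ Q : ℚ → ℚ, IsLog Q ∧ (∀ m : ℕ, 0 < m → m < p → Q m = P m) ∧
      ∀ q : ℕ, q.Prime → p ≤ q → Q q = 0 := by
  refine ⟨BLogQ (fun q => if q < p then P q else 0), BLogQ_log _, ?_, ?_⟩
  · intro m
    induction m using Nat.strong_induction_on with
    | _ m ih =>
      intro h0 hp
      rw [BLogQ_nat]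
      rcases Nat.eq_or_lt_of_le (Nat.succ_le_of_lt h0) with h | h
      · have h' : m = 1 := h.symm
        rw [h', BLogPn_one, h1]
      · by_cases hq : m.Prime
        · rw [BLogPn_prime _ hq, if_pos hp]
        · obtain ⟨k, hk⟩ := Nat.minFac_dvd m
          have hne : m ≠ 1 := by omega
          have hpr := Nat.minFac_prime hne
          have hk0 : 0 < k := by
            rcases Nat.eq_zero_or_pos k with h | h
            · rw [h, mul_zero] at hk; omega
            · exact h
          have hlt : m.minFac < m := (Nat.not_prime_iff_minFac_lt h).1 hq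
          have hkm : k < m := by
            have := hpr.two_le
            nlinarith
          have ha := ih m.minFac hlt hpr.pos (hlt.trans hp)
          have hb := ih k hkm hk0 (hkm.trans hp)
          rw [BLogQ_nat] at ha hb
          have h2 := hm m.minFac k hpr.pos hk0 (by rw [← hk]; exact hp)
          rw [← hk] at h2
          have h3 := BLogPn_mul (fun q => if q < p then P q else 0) hpr.pos.ne' hk0.ne'
          rw [← hk] at h3
          rw [h3, ha, hb, h2]
  · intro q hq hpq
    rw [BLogQ_nat, BLogPn_prime _ hq, if_neg (not_lt.2 hpq)]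

end Pool.Agent.QGC
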