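import Pool.Agent.QGC.BN1

/-!
# QGC-BNeg: the negative type

PLAN (B.4 of /team-store/qgc_paper.md). `ep l0 f d k := Lam l (l0 f) (d k) - (P d + P k - P l0 -
P f)`, symmetric in `l0, f` and in `d, k`, `ep d k l0 f = - ep l0 f d k` (`Five.lam_swap`).
`P 1 = 0` (`hP.one`).  By `n1` (all letters `< p`): `ep l0 f d k = ep 1 f d z` with
`z d + f = 0 mod p` `= ep f 1 d z = ep 1 1 d z'` (`z' d + 1 = 0 mod p`)
`= - ep d z' 1 1 = - ep 1 z' 1 (p - z')` (n1 with `l0 := d`, `f := z'`, `d := 1`, `k := 1`,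
new `z := p - z'`) `= - ep z' 1 1 (p - z') = - ep 1 1 1 (p - 1)` (n1 with `l0 := z'`, `f := 1`,
`d := 1`, `k := p - z'`, `z := p - 1`).  In particular (`d = 1`, `z' = p - 1`)
`ep 1 1 1 (p-1) = - ep 1 1 1 (p-1) = 0`.  The quotients `a` are always `< p` because
`d z + f <= (p-1)(p-1) + (p-1) < p * p`.  (For `p = 2` everything is `1`, same proof.)
-/

set_option autoImplicit false

namespace Pool.Agent.QGC

private def bnegEp (l P : ℚ → ℚ) (a b c d : ℕ) : ℚ :=
  Lam l (a * b) (c * d) - (P c + P d - P a - P b)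

private theorem bneg_symm (l P : ℚ → ℚ) (a b c d : ℕ) :
    bnegEp l P a b c d = bnegEp l P b a c d := by
  unfold bnegEp
  rw [mul_comm (a : ℚ) b]
  ring

private theorem bneg_swap {l : ℚ → ℚ} (hl : Five l) (P : ℚ → ℚ) {a b c d : ℕ} (ha : 0 < a)
    (hb : 0 < b) (hc : 0 < c) (hd : 0 < d) : bnegEp l P a b c d = - bnegEp l P c d a b := by
  have ha' : (0 : ℚ) < a := by exact_mod_cast ha
  have hb' : (0 : ℚ) < b := by exact_mod_cast hb
  have hc' : (0 : ℚ) < c := by exact_mod_cast hc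
  have hd' : (0 : ℚ) < d := by exact_mod_cast hd
  unfold bnegEp
  rw [hl.lam_swap (mul_pos hc' hd') (mul_pos ha' hb')]
  ring

private theorem bneg_lt {p x y z a : ℕ} (hx : x < p) (hy : y < p) (hz : z < p)
    (h : x + y * z = p * a) : a < p := by
  by_contra hle
  push Not at hle
  have h1 : y * z ≤ (p - 1) * (p - 1) := Nat.mul_le_mul (by omega) (by omega)
  have h2 : p * p ≤ p * a := Nat.mul_le_mul_left p hle
  obtain ⟨q, rfl⟩ : ∃ q, p = q + 1 := ⟨p - 1, by omega⟩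
  rw [Nat.add_sub_cancel] at h1
  nlinarith

private theorem bneg_z {p : ℕ} (hp : p.Prime) {d e : ℕ} (hd : 0 < d) (he : 0 < e) (hdp : d < p)
    (hep : e < p) : ∃ z a : ℕ, 0 < z ∧ z < p ∧ 0 < a ∧ a < p ∧ d + e * z = p * a := by
  have : Fact p.Prime := ⟨hp⟩
  have hd0 : (d : ZMod p) ≠ 0 := by
    intro h
    rw [ZMod.natCast_eq_zero_iff] at h
    exact absurd (Nat.le_of_dvd hd h) (by omega)
  have he0 : (e : ZMod p) ≠ 0 := by
    intro h
    rw [ZMod.natCast_eq_zero_iff] at h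
    exact absurd (Nat.le_of_dvd he h) (by omega)
  obtain ⟨w, hw⟩ : ∃ w : ZMod p, w = -(d : ZMod p) * (e : ZMod p)⁻¹ := ⟨_, rfl⟩
  have hw0 : w ≠ 0 := by
    rw [hw]
    exact mul_ne_zero (neg_ne_zero.2 hd0) (inv_ne_zero he0)
  have hz : ((w.val : ℕ) : ZMod p) = w := ZMod.natCast_zmod_val w
  have hdvd : p ∣ d + e * w.val := by
    rw [← ZMod.natCast_eq_zero_iff]
    push_cast
    rw [hz, hw]
    field_simp
    ring
  obtain ⟨a, ha⟩ := hdvd
  have hzp : w.val < p := ZMod.val_lt w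
  refine ⟨w.val, a, Nat.pos_of_ne_zero fun h => hw0 ((ZMod.val_eq_zero w).1 h), hzp, ?_,
    bneg_lt hdp hep hzp ha, ha⟩
  rcases Nat.eq_zero_or_pos a with h | h
  · rw [h, mul_zero] at ha
    omega
  · exact h

private theorem bneg_n1 {l P : ℚ → ℚ} (hl : Five l) {p : ℕ} (hp : p.Prime) (hP : IsLog P)
    (hZ : ZP l (p - 1)) (hpos : PosP l P p) {l0 f d k z a a' : ℕ} (hl0 : 0 < l0) (hf : 0 < f)
    (hd : 0 < d) (hk : 0 < k) (hz : 0 < z) (ha : 0 < a) (hl0' : l0 < p) (hf' : f < p)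
    (hd' : d < p) (hk' : k < p) (hz' : z < p) (ha' : a < p) (h : l0 * f + d * k = p * a)
    (h' : f + d * z = p * a') : bnegEp l P l0 f d k = bnegEp l P 1 f d z := by
  have h1 := n1 hl hp hP hZ hpos l0 f d k z a a' hl0 hf hd hk hz ha hl0' hf' hd' hk' hz' ha' h h'
  unfold bnegEp
  rw [h1, Nat.cast_one, one_mul, hP.one, sub_zero]

private theorem bneg_key {l P : ℚ → ℚ} (hl : Five l) {p : ℕ} (hp : p.Prime) (hP : IsLog P)
    (hZ : ZP l (p - 1)) (hpos : PosP l P p) {c d e f a : ℕ} (hc : 0 < c) (hd : 0 < d)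
    (he : 0 < e) (hf : 0 < f) (ha : 0 < a) (hcp : c < p) (hdp : d < p) (hep : e < p)
    (hfp : f < p) (hap : a < p) (h : c * d + e * f = p * a) :
    bnegEp l P c d e f = - bnegEp l P 1 1 1 (p - 1) := by
  have hp2 := hp.two_le
  obtain ⟨z, a1, hz, hzp, ha1, ha1p, h1⟩ := bneg_z hp hd he hdp hep
  obtain ⟨y, a2, hy, hyp, ha2, ha2p, h2⟩ := bneg_z hp (d := 1) one_pos he (by omega) hep
  rw [bneg_n1 hl hp hP hZ hpos hc hd he hf hz ha hcp hdp hep hfp hzp hap h h1, bneg_symm,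
    bneg_n1 hl hp hP hZ hpos hd one_pos he hz hy ha1 hdp (by omega) hep hzp hyp ha1p
      (by rw [mul_one]; exact h1) h2,
    bneg_swap hl P one_pos one_pos he hy,
    bneg_n1 hl hp hP hZ hpos he hy one_pos one_pos (z := p - y) (a := a2) (a' := 1) (by omega) ha2
      hep hyp (by omega) (by omega) (by omega) ha2p (by rw [← h2]; ring) (by omega),
    bneg_symm l P 1 y 1 (p - y),
    bneg_n1 hl hp hP hZ hpos hy one_pos one_pos (k := p - y) (z := p - 1) (a := 1) (a' := 1)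
      (by omega) (by omega) one_pos hyp (by omega) (by omega) (by omega) (by omega) (by omega)
      (by omega) (by omega)]

theorem negP {l P : ℚ → ℚ} (hl : Five l) {p : ℕ} (hp : p.Prime) (hP : IsLog P)
    (hZ : ZP l (p - 1)) (hpos : PosP l P p) : NegP l P p := by
  have hp2 := hp.two_le
  have h0 : bnegEp l P 1 1 1 (p - 1) = 0 := by
    have h1 := bneg_key hl hp hP hZ hpos (c := 1) (d := 1) (e := 1) (f := p - 1) (a := 1) one_pos
      one_pos one_pos (by omega) one_pos (by omega) (by omega) (by omega) (by omega) (by omega)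
      (by omega)
    linarith
  intro c d e f a hc hd he hf ha hcp hdp hep hfp hap h
  have h1 := bneg_key hl hp hP hZ hpos hc hd he hf ha hcp hdp hep hfp hap h
  rw [h0, neg_zero] at h1
  unfold bnegEp at h1
  linarith

end Pool.Agent.QGC
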