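import Mathlib

/-!
# QGC-BTr: the transposition lemma

Sums of the hypothesis over the translates `(m u, n u)`, and invariance of the sum of the
`g (m u) (n u)` under translation of `(m, n)`.
-/

set_option autoImplicit false

namespace Pool.Agent.QGC

private lemma BTr_sum {G : Type*} [CommGroup G] [Fintype G] (g : G → G → ℚ)
    (h : ∀ m n m' n' : G, m * n' = m' * n → g m n - g m' n' = g m m' - g n n') (m n : G) :
    (Fintype.card G : ℚ) * g m n - ∑ u, g (m * u) (n * u) = (∑ v, g m v) - ∑ v, g n v := by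
  have h1 : ∑ u : G, (g m n - g (m * u) (n * u)) = ∑ u : G, (g m (m * u) - g n (n * u)) :=
    Finset.sum_congr rfl fun u _ => h m n (m * u) (n * u) (by
      rw [mul_left_comm, ← mul_assoc, mul_comm n m, mul_assoc, mul_comm n u, ← mul_assoc])
  rw [Finset.sum_sub_distrib, Finset.sum_sub_distrib, Finset.sum_const, Finset.card_univ,
    nsmul_eq_mul] at h1
  rw [h1, Fintype.sum_equiv (Equiv.mulLeft m) (fun u => g m (m * u)) (fun v => g m v)
    (fun _ => rfl), Fintype.sum_equiv (Equiv.mulLeft n) (fun u => g n (n * u)) (fun v => g n v)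
    (fun _ => rfl)]

theorem transp {G : Type*} [CommGroup G] [Fintype G] (g : G → G → ℚ)
    (h : ∀ m n m' n' : G, m * n' = m' * n → g m n - g m' n' = g m m' - g n n')
    (m n m' n' : G) (e : m * n' = m' * n) :
    (Fintype.card G : ℚ) * (g m n - g m' n') =
      (∑ v, g m v) - (∑ v, g n v) - (∑ v, g m' v) + ∑ v, g n' v := by
  have h1 := BTr_sum g h m n
  have h2 := BTr_sum g h m' n'
  have e1 : m' = m * (m⁻¹ * m') := by rw [mul_inv_cancel_left]
  have e2 : n' = n * (m⁻¹ * m') := by
    rw [mul_left_comm, mul_comm n m', ← e, inv_mul_cancel_left]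
  have h3 : ∑ u, g (m' * u) (n' * u) = ∑ u, g (m * u) (n * u) := by
    refine Fintype.sum_equiv (Equiv.mulLeft (m⁻¹ * m')) _ _ fun u => ?_
    change g (m' * u) (n' * u) = g (m * (m⁻¹ * m' * u)) (n * (m⁻¹ * m' * u))
    rw [← mul_assoc m, ← mul_assoc n, ← e1, ← e2]
  rw [h3] at h2
  linear_combination h1 - h2

end Pool.Agent.QGC
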