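import Pool.Agent.QGC.BD2
import Pool.Agent.QGC.BTr

/-!
# QGC-BP: the function `P`

With `g m n = l (m / (n z))`, `z` the representative of `m / n`, the property `R2P` gives
`l (m n' / (m' n)) = g m n - g m' n'` for `m n' = m' n` in `(ZMod p)ˣ` (`BP_key`), and the
transposition lemma gives the function `P`.
-/

set_option autoImplicit false

namespace Pool.Agent.QGC

/-- the representative in `[1, p - 1]` -/
private def BP_r {p : ℕ} (x : (ZMod p)ˣ) : ℕ := (x : ZMod p).val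

private lemma BP_r_pos {p : ℕ} [Fact p.Prime] (x : (ZMod p)ˣ) : 0 < BP_r x := by
  rw [BP_r, ZMod.val_pos]
  exact x.ne_zero

private lemma BP_r_lt {p : ℕ} [Fact p.Prime] (x : (ZMod p)ˣ) : BP_r x < p := ZMod.val_lt _

private lemma BP_r_mul {p : ℕ} (x y : (ZMod p)ˣ) : (BP_r x * BP_r y) % p = BP_r (x * y) := by
  rw [BP_r, BP_r, BP_r, Units.val_mul, ZMod.val_mul]

private lemma BP_l_inv {l : ℚ → ℚ} (hl : Five l) {q : ℚ} (hq : q ≠ 0) : l q⁻¹ = - l q := by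
  by_cases h : q = 1
  · rw [h, inv_one, hl.one, neg_zero]
  · exact hl.inv q hq h

/-- the function `g` -/
private def BP_g {p : ℕ} (l : ℚ → ℚ) (m n : (ZMod p)ˣ) : ℚ :=
  l ((BP_r m : ℚ) / (BP_r n * BP_r (m * n⁻¹)))

private lemma BP_key {l : ℚ → ℚ} (hl : Five l) {p : ℕ} [Fact p.Prime] (hR : R2P l p)
    (m n m' n' : (ZMod p)ˣ) (e : m * n' = m' * n) :
    l ((BP_r m * BP_r n' : ℚ) / (BP_r m' * BP_r n)) = BP_g l m n - BP_g l m' n' := by
  have hz : m' * n'⁻¹ = m * n⁻¹ := by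
    rw [mul_inv_eq_iff_eq_mul, mul_assoc, mul_comm n⁻¹ n', ← mul_assoc, e, mul_inv_cancel_right]
  have hzn : m * n⁻¹ * n = m := by rw [inv_mul_cancel_right]
  have hzn' : m * n⁻¹ * n' = m' := by rw [← hz, inv_mul_cancel_right]
  have h1 := hR (BP_r m) (BP_r n) (BP_r (m * n⁻¹)) 1 (BP_r m') (BP_r n') (BP_r_pos _)
    (BP_r_pos _) (BP_r_pos _) one_pos (BP_r_pos _) (BP_r_pos _) (BP_r_lt _) (BP_r_lt _)
    (BP_r_lt _) (Fact.out : p.Prime).one_lt (BP_r_lt _) (BP_r_lt _)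
    (by rw [BP_r_mul, hzn, mul_one, Nat.mod_eq_of_lt (BP_r_lt _)])
    (by rw [BP_r_mul, hzn', mul_one, Nat.mod_eq_of_lt (BP_r_lt _)])
  have h2 : ((BP_r m' : ℕ) : ℚ) ≠ 0 := Nat.cast_ne_zero.2 (BP_r_pos _).ne'
  have h3 : ((BP_r n' : ℕ) : ℚ) ≠ 0 := Nat.cast_ne_zero.2 (BP_r_pos _).ne'
  have h4 : ((BP_r (m * n⁻¹) : ℕ) : ℚ) ≠ 0 := Nat.cast_ne_zero.2 (BP_r_pos _).ne'
  have h5 : (BP_r (m * n⁻¹) * BP_r n' : ℚ) / (((1 : ℕ) : ℚ) * BP_r m') =
      ((BP_r m' : ℚ) / (BP_r n' * BP_r (m' * n'⁻¹)))⁻¹ := by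
    rw [hz, inv_div, Nat.cast_one, one_mul, mul_comm (BP_r n' : ℚ)]
  rw [h5, BP_l_inv hl (by rw [hz]; exact div_ne_zero h2 (mul_ne_zero h3 h4)), Nat.cast_one,
    mul_one] at h1
  rw [mul_comm (BP_r m' : ℚ), ← h1]
  unfold BP_g
  ring

open Classical in
/-- the unit of a number -/
private noncomputable def BP_u (p : ℕ) [Fact p.Prime] (m : ℕ) : (ZMod p)ˣ :=
  if h : (m : ZMod p) ≠ 0 then Units.mk0 (m : ZMod p) h else 1

private lemma BP_u_one (p : ℕ) [Fact p.Prime] : BP_u p 1 = 1 := by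
  unfold BP_u
  split_ifs with h
  · apply Units.ext
    rw [Units.val_mk0, Nat.cast_one, Units.val_one]
  · rfl

private lemma BP_u_val {p : ℕ} [Fact p.Prime] {m : ℕ} (h0 : 0 < m) (hp : m < p) :
    ((BP_u p m : (ZMod p)ˣ) : ZMod p) = m := by
  have h : (m : ZMod p) ≠ 0 := by
    intro h
    rw [ZMod.natCast_eq_zero_iff] at h
    exact absurd (Nat.le_of_dvd h0 h) (not_le.2 hp)
  unfold BP_u
  rw [dif_pos h, Units.val_mk0]

private lemma BP_r_u {p : ℕ} [Fact p.Prime] {m : ℕ} (h0 : 0 < m) (hp : m < p) :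
    BP_r (BP_u p m) = m := by
  rw [BP_r, BP_u_val h0 hp, ZMod.val_natCast, Nat.mod_eq_of_lt hp]

theorem exists_P {l : ℚ → ℚ} (hl : Five l) {p : ℕ} (hp : p.Prime) (hR : R2P l p) :
    ∃ P : ℕ → ℚ, P 1 = 0 ∧ (∀ m n : ℕ, 0 < m → 0 < n → m * n < p → P (m * n) = P m + P n) ∧
      ∀ m n m' n' : ℕ, 0 < m → 0 < n → 0 < m' → 0 < n' → m < p → n < p → m' < p → n' < p →
        (m * n') % p = (m' * n) % p →
        l ((m * n' : ℚ) / (m' * n)) = P m - P n - P m' + P n' := by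
  have := Fact.mk hp
  have hp1 : ((p : ℚ) - 1) ≠ 0 := by
    have h1 : (1 : ℚ) < p := by exact_mod_cast hp.one_lt
    linarith
  have hcard : (Fintype.card (ZMod p)ˣ : ℚ) = p - 1 := by
    rw [ZMod.card_units p, Nat.cast_sub hp.one_lt.le, Nat.cast_one]
  set F : (ZMod p)ˣ → ℚ := fun m => ∑ v, BP_g l m v with hF
  have hmain : ∀ m n m' n' : ℕ, 0 < m → 0 < n → 0 < m' → 0 < n' → m < p → n < p → m' < p →
      n' < p → (m * n') % p = (m' * n) % p →
        l ((m * n' : ℚ) / (m' * n)) = (F (BP_u p m) - F 1) / (p - 1) -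
          (F (BP_u p n) - F 1) / (p - 1) - (F (BP_u p m') - F 1) / (p - 1) +
          (F (BP_u p n') - F 1) / (p - 1) := by
    intro m n m' n' hm hn hm' hn' hmp hnp hmp' hnp' he
    have e : BP_u p m * BP_u p n' = BP_u p m' * BP_u p n := by
      apply Units.ext
      rw [Units.val_mul, Units.val_mul, BP_u_val hm hmp, BP_u_val hn' hnp', BP_u_val hm' hmp',
        BP_u_val hn hnp]
      have h1 := (ZMod.natCast_eq_natCast_iff' (m * n') (m' * n) p).2 he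
      rwa [Nat.cast_mul, Nat.cast_mul] at h1
    have h2 := BP_key hl hR _ _ _ _ e
    rw [BP_r_u hm hmp, BP_r_u hn' hnp', BP_r_u hm' hmp', BP_r_u hn hnp] at h2
    have h3 := transp (fun m n => BP_g l m n) (fun m n m' n' e => by
      have h4 := BP_key hl hR m n m' n' e
      have h5 := BP_key hl hR m m' n n' (by rw [e, mul_comm])
      rw [← h4, ← h5, mul_comm (BP_r n : ℚ)]) _ _ _ _ e
    rw [hcard] at h3
    rw [h2]
    have h6 : (BP_g l (BP_u p m) (BP_u p n) - BP_g l (BP_u p m') (BP_u p n')) =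
        (F (BP_u p m) - F (BP_u p n) - F (BP_u p m') + F (BP_u p n')) / (p - 1) := by
      rw [eq_div_iff hp1, mul_comm]
      exact h3
    rw [h6]
    field_simp
    ring
  refine ⟨fun m => (F (BP_u p m) - F 1) / (p - 1), ?_, ?_, hmain⟩
  · simp only [BP_u_one, sub_self, zero_div]
  · intro m n hm hn hmn
    have hmn0 : 0 < m * n := Nat.mul_pos hm hn
    have hm1 : m < p := lt_of_le_of_lt (Nat.le_mul_of_pos_right m hn) hmn
    have hn1 : n < p := lt_of_le_of_lt (Nat.le_mul_of_pos_left n hm) hmn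
    have h1 := hmain m 1 (m * n) n hm one_pos hmn0 hn hm1 hp.one_lt hmn hn1
      (by rw [mul_one])
    have h2 : ((m : ℚ) * n) / (((m * n : ℕ) : ℚ) * ((1 : ℕ) : ℚ)) = 1 := by
      rw [Nat.cast_one, mul_one, Nat.cast_mul]
      exact div_self (mul_ne_zero (Nat.cast_ne_zero.2 hm.ne') (Nat.cast_ne_zero.2 hn.ne'))
    rw [h2, hl.one, BP_u_one, sub_self, zero_div] at h1
    linarith

end Pool.Agent.QGC
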