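import Pool.Agent.QGC.BD2

/-!
# QGC-BR2: additivity on congruent fractions

For three congruent fractions `t1 < t2 < t3` the positive master five-term relation, applied to the
vectors with determinants `l3, l2, l1, 1, k3 l2 - k2 l3, ...`, has two terms which vanish by
assumption; the other three are `l (t1 / t2)`, `l (t1 / t3)`, `l (t2 / t3)`. The other orders
follow from `l x⁻¹ = - l x` and `l 1 = 0`.
-/

set_option autoImplicit false

namespace Pool.Agent.QGC

variable {l : ℚ → ℚ} {p : ℕ}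

private structure BR2Ok (p : ℕ) (x : ℕ × ℕ) : Prop where
  a0 : 0 < x.1
  b0 : 0 < x.2
  a1 : x.1 < p
  b1 : x.2 < p

private def br2T (x : ℕ × ℕ) : ℚ := (x.1 : ℚ) / x.2

private def BR2R (p : ℕ) (x y : ℕ × ℕ) : Prop := x.1 * y.2 ≡ y.1 * x.2 [MOD p]

private lemma BR2R.symm {x y : ℕ × ℕ} (h : BR2R p x y) : BR2R p y x := Nat.ModEq.symm h

private lemma br2_cop (hp : p.Prime) {a : ℕ} (h0 : 0 < a) (h1 : a < p) : Nat.Coprime p a :=
  (Nat.Prime.coprime_iff_not_dvd hp).2 (Nat.not_dvd_of_pos_of_lt h0 h1)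

private lemma BR2R.trans (hp : p.Prime) {x y z : ℕ × ℕ} (hy : BR2Ok p y) (h : BR2R p x y)
    (h' : BR2R p y z) : BR2R p x z := by
  have h1 : (y.1 * y.2) * (x.1 * z.2) ≡ (y.1 * y.2) * (z.1 * x.2) [MOD p] := by
    have h2 := Nat.ModEq.mul h h'
    have e1 : x.1 * y.2 * (y.1 * z.2) = (y.1 * y.2) * (x.1 * z.2) := by ring
    have e2 : y.1 * x.2 * (z.1 * y.2) = (y.1 * y.2) * (z.1 * x.2) := by ring
    rwa [e1, e2] at h2
  exact Nat.ModEq.cancel_left_of_coprime
    (Nat.Coprime.mul_right (br2_cop hp hy.a0 hy.a1) (br2_cop hp hy.b0 hy.b1)) h1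

private lemma br2_exists (hp : p.Prime) {x y : ℕ × ℕ} (hx : BR2Ok p x) (hy : BR2Ok p y)
    (h : BR2R p x y) (hlt : br2T x < br2T y) :
    ∃ c : ℕ, 0 < c ∧ c < p ∧ y.1 * x.2 = x.1 * y.2 + p * c := by
  have hx2 : (0 : ℚ) < x.2 := by exact_mod_cast hx.b0
  have hy2 : (0 : ℚ) < y.2 := by exact_mod_cast hy.b0
  have h1 : x.1 * y.2 < y.1 * x.2 := by
    have h2 := (div_lt_div_iff₀ hx2 hy2).1 hlt
    exact_mod_cast h2
  obtain ⟨c, hc⟩ := (Nat.modEq_iff_dvd' h1.le).1 h
  have h3 : y.1 * x.2 = x.1 * y.2 + p * c := by omega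
  have hc0 : 0 < c := by
    rcases Nat.eq_zero_or_pos c with h4 | h4
    · rw [h4, mul_zero] at h3
      omega
    · exact h4
  refine ⟨c, hc0, ?_, h3⟩
  have h5 : y.1 * x.2 < p * p := Nat.mul_lt_mul'' hy.a1 hx.b1
  have h6 : p * c < p * p := by omega
  exact lt_of_mul_lt_mul_left h6 (Nat.zero_le p)

private lemma br2_core (hl : Five l) (hp : p.Prime) (hZ : ZP l (p - 1)) {x y z : ℕ × ℕ}
    (hx : BR2Ok p x) (hy : BR2Ok p y) (hz : BR2Ok p z) (hxy : BR2R p x y) (hyz : BR2R p y z)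
    (h1 : br2T x < br2T y) (h2 : br2T y < br2T z) :
    l (br2T x / br2T y) + l (br2T y / br2T z) = l (br2T x / br2T z) := by
  obtain ⟨c21, c210, c21p, e21⟩ := br2_exists hp hx hy hxy h1
  obtain ⟨c32, c320, c32p, e32⟩ := br2_exists hp hy hz hyz h2
  obtain ⟨c31, c310, c31p, e31⟩ := br2_exists hp hx hz (hxy.trans hp hy hyz) (h1.trans h2)
  obtain ⟨k1, l1⟩ := x
  obtain ⟨k2, l2⟩ := y
  obtain ⟨k3, l3⟩ := z
  obtain ⟨k10, l10, k1p, l1p⟩ := hx
  obtain ⟨k20, l20, k2p, l2p⟩ := hy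
  obtain ⟨k30, l30, k3p, l3p⟩ := hz
  simp only at k10 l10 k1p l1p k20 l20 k2p l2p k30 l30 k3p l3p e21 e32 e31
  have hp0 : 0 < p := hp.pos
  have f21 : (k2 : ℚ) * l1 = k1 * l2 + p * c21 := by exact_mod_cast e21
  have f32 : (k3 : ℚ) * l2 = k2 * l3 + p * c32 := by exact_mod_cast e32
  have f31 : (k3 : ℚ) * l1 = k1 * l3 + p * c31 := by exact_mod_cast e31
  have P0 : (0 : ℚ) < p := by exact_mod_cast hp0
  have K1 : (0 : ℚ) < k1 := by exact_mod_cast k10
  have K2 : (0 : ℚ) < k2 := by exact_mod_cast k20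
  have K3 : (0 : ℚ) < k3 := by exact_mod_cast k30
  have L1 : (0 : ℚ) < l1 := by exact_mod_cast l10
  have L2 : (0 : ℚ) < l2 := by exact_mod_cast l20
  have L3 : (0 : ℚ) < l3 := by exact_mod_cast l30
  have C21 : (0 : ℚ) < c21 := by exact_mod_cast c210
  have C32 : (0 : ℚ) < c32 := by exact_mod_cast c320
  have C31 : (0 : ℚ) < c31 := by exact_mod_cast c310
  have g1 : (l3 : ℚ) * c21 + l1 * c32 = l2 * c31 := by
    refine mul_left_cancel₀ P0.ne' ?_
    linear_combination (-(l3 : ℚ)) * f21 - (l1 : ℚ) * f32 + (l2 : ℚ) * f31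
  have g2 : (c32 : ℚ) * k1 + k3 * c21 = c31 * k2 := by
    refine mul_left_cancel₀ P0.ne' ?_
    linear_combination (-(k1 : ℚ)) * f32 - (k3 : ℚ) * f21 + (k2 : ℚ) * f31
  have n1 : l3 * c21 + l1 * c32 = l2 * c31 := by exact_mod_cast g1
  have n2 : c32 * k1 + k3 * c21 = c31 * k2 := by exact_mod_cast g2
  have z1 : Lam l ((l3 : ℚ) * c21) (l1 * c32) = 0 :=
    hZ l3 c21 l1 c32 l2 c31 l30 c210 l10 c320 l20 c310 (by omega) (by omega) (by omega)
      (by omega) (by omega) (by omega) n1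
  have z2 : Lam l ((c32 : ℚ) * k1) (k3 * c21) = 0 :=
    hZ c32 k1 k3 c21 c31 k2 c320 k10 k30 c210 c310 k20 (by omega) (by omega) (by omega)
      (by omega) (by omega) (by omega) n2
  have main := hl.pos (d01 := (l3 : ℚ)) (d02 := l2) (d03 := l1) (d04 := 1) (d12 := p * c32)
    (d13 := p * c31) (d14 := k3) (d23 := p * c21) (d24 := k2) (d34 := k1) L3 L2 L1 one_pos
    (by positivity) (by positivity) K3 (by positivity) K2 K1
    (by linear_combination (p : ℚ) * g1) (by linear_combination -f32)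
    (by linear_combination -f31) (by linear_combination -f21)
    (by linear_combination (p : ℚ) * g2)
  have w0 : Lam l ((p : ℚ) * c32 * k1) (k3 * (p * c21)) = 0 := by
    rw [show (p : ℚ) * c32 * k1 = p * (c32 * k1) by ring,
      show (k3 : ℚ) * (p * c21) = p * (k3 * c21) by ring, lam_mul _ P0.ne', z2]
  have w4 : Lam l ((l3 : ℚ) * (p * c21)) (l1 * (p * c32)) = 0 := by
    rw [show (l3 : ℚ) * (p * c21) = p * (l3 * c21) by ring,
      show (l1 : ℚ) * (p * c32) = p * (l1 * c32) by ring, lam_mul _ P0.ne', z1]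
  have w1 : Lam l ((l2 : ℚ) * k1) (1 * (p * c21)) = l (br2T (k1, l1) / br2T (k2, l2)) := by
    rw [lam_eq (w := (l1 : ℚ) * k2) (by linear_combination -f21)]
    congr 1
    unfold br2T
    field_simp
  have w2 : Lam l ((l3 : ℚ) * k1) (1 * (p * c31)) = l (br2T (k1, l1) / br2T (k3, l3)) := by
    rw [lam_eq (w := (l1 : ℚ) * k3) (by linear_combination -f31)]
    congr 1
    unfold br2T
    field_simp
  have w3 : Lam l ((l3 : ℚ) * k2) (1 * (p * c32)) = l (br2T (k2, l2) / br2T (k3, l3)) := by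
    rw [lam_eq (w := (l2 : ℚ) * k3) (by linear_combination -f32)]
    congr 1
    unfold br2T
    field_simp
  rw [w0, w1, w2, w3, w4] at main
  linarith

private lemma br2_anti (hl : Five l) {s t : ℚ} (hs : 0 < s) (ht : 0 < t) :
    l (t / s) = - l (s / t) := by
  by_cases h : s / t = 1
  · have h1 : s = t := by rwa [div_eq_one_iff_eq ht.ne'] at h
    rw [h1, div_self ht.ne', hl.one, neg_zero]
  · have h1 := hl.inv (s / t) (by positivity) h
    rwa [inv_div] at h1

private lemma br2_all (hl : Five l) (hp : p.Prime) (hZ : ZP l (p - 1)) {x y z : ℕ × ℕ}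
    (hx : BR2Ok p x) (hy : BR2Ok p y) (hz : BR2Ok p z) (hxy : BR2R p x y) (hyz : BR2R p y z) :
    l (br2T x / br2T y) + l (br2T y / br2T z) = l (br2T x / br2T z) := by
  have hpos : ∀ w : ℕ × ℕ, BR2Ok p w → 0 < br2T w := by
    intro w hw
    have h1 : (0 : ℚ) < w.1 := by exact_mod_cast hw.a0
    have h2 : (0 : ℚ) < w.2 := by exact_mod_cast hw.b0
    exact div_pos h1 h2
  have hxz := hxy.trans hp hy hyz
  have X := hpos x hx
  have Y := hpos y hy
  have Z := hpos z hz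
  have a1 := br2_anti hl X Y
  have a2 := br2_anti hl Y Z
  have a3 := br2_anti hl X Z
  rcases lt_trichotomy (br2T x) (br2T y) with h1 | h1 | h1
  · rcases lt_trichotomy (br2T y) (br2T z) with h2 | h2 | h2
    · exact br2_core hl hp hZ hx hy hz hxy hyz h1 h2
    · rw [← h2, div_self Y.ne', hl.one, add_zero]
    · rcases lt_trichotomy (br2T x) (br2T z) with h3 | h3 | h3
      · have h4 := br2_core hl hp hZ hx hz hy hxz hyz.symm h3 h2
        linarith
      · rw [← h3, div_self X.ne', hl.one, a1]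
        ring
      · have h4 := br2_core hl hp hZ hz hx hy hxz.symm hxy h3 h1
        linarith
  · rw [h1, div_self Y.ne', hl.one, zero_add]
  · rcases lt_trichotomy (br2T y) (br2T z) with h2 | h2 | h2
    · rcases lt_trichotomy (br2T x) (br2T z) with h3 | h3 | h3
      · have h4 := br2_core hl hp hZ hy hx hz hxy.symm hxz h1 h3
        linarith
      · rw [← h3, div_self X.ne', hl.one, a1]
        ring
      · have h4 := br2_core hl hp hZ hy hz hx hyz hxz.symm h2 h3
        linarith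
    · rw [← h2, div_self Y.ne', hl.one, add_zero]
    · have h4 := br2_core hl hp hZ hz hy hx hyz.symm hxy.symm h2 h1
      linarith

theorem r2 {l : ℚ → ℚ} (hl : Five l) {p : ℕ} (hp : p.Prime) (hZ : ZP l (p - 1)) : R2P l p := by
  intro k1 l1 k2 l2 k3 l3 k10 l10 k20 l20 k30 l30 k1p l1p k2p l2p k3p l3p h12 h23
  have h := br2_all hl hp hZ (x := (k1, l1)) (y := (k2, l2)) (z := (k3, l3))
    ⟨k10, l10, k1p, l1p⟩ ⟨k20, l20, k2p, l2p⟩ ⟨k30, l30, k3p, l3p⟩ h12 h23
  have K1 : (0 : ℚ) < k1 := by exact_mod_cast k10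
  have K2 : (0 : ℚ) < k2 := by exact_mod_cast k20
  have K3 : (0 : ℚ) < k3 := by exact_mod_cast k30
  have L1 : (0 : ℚ) < l1 := by exact_mod_cast l10
  have L2 : (0 : ℚ) < l2 := by exact_mod_cast l20
  have L3 : (0 : ℚ) < l3 := by exact_mod_cast l30
  have e1 : br2T (k1, l1) / br2T (k2, l2) = (k1 * l2 : ℚ) / (l1 * k2) := by
    unfold br2T
    field_simp
  have e2 : br2T (k2, l2) / br2T (k3, l3) = (k2 * l3 : ℚ) / (l2 * k3) := by
    unfold br2T
    field_simp
  have e3 : br2T (k1, l1) / br2T (k3, l3) = (k1 * l3 : ℚ) / (l1 * k3) := by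
    unfold br2T
    field_simp
  rwa [e1, e2, e3] at h

end Pool.Agent.QGC
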