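import Pool.Agent.QGC.BD

/-!
# QGC-BS3: from positive letters to signed letters

If a five-term function vanishes at all `ab / (ab + cd)` with positive letters `≤ X` and `ab + cd` a
product of two such letters, then it vanishes at all `ab / (ef)` with nonzero signed letters. This
uses that `l` at `-u / v` and at `w / u` is, up to sign, a value of `Lam`.
-/

set_option autoImplicit false

namespace Pool.Agent.QGC

theorem Five.neg_div {l : ℚ → ℚ} (hl : Five l) {u v : ℚ} (hu : 0 < u) (hv : 0 < v) :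
    l (-u / v) = - Lam l u v := by
  have hs : 0 < u + v := by positivity
  have ht0 : u / (u + v) ≠ 0 := by positivity
  have ht1 : u / (u + v) ≠ 1 := by
    intro h
    rw [div_eq_one_iff_eq hs.ne'] at h
    linarith
  have hi0 : (u / (u + v))⁻¹ ≠ 0 := inv_ne_zero ht0
  have hi1 : (u / (u + v))⁻¹ ≠ 1 := by
    intro h
    exact ht1 (inv_eq_one.1 h)
  have hk0 : 1 - (u / (u + v))⁻¹ ≠ 0 := by
    intro h
    exact hi1 (by linarith)
  have hk1 : 1 - (u / (u + v))⁻¹ ≠ 1 := by
    intro h
    exact hi0 (by linarith)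
  have e1 := hl.inv _ ht0 ht1
  have e2 := hl.sub _ hi0 hi1
  have e3 := hl.inv _ hk0 hk1
  have e4 : (1 - (u / (u + v))⁻¹)⁻¹ = -u / v := by
    rw [inv_div]
    have : 1 - (u + v) / u = -v / u := by field_simp; ring
    rw [this, inv_div, div_neg, _root_.neg_div]
  rw [e4] at e3
  rw [Lam, e3, e2, e1]
  ring

private theorem bs3_prod (a b : ℤ) (A B : ℕ) (hA : A = a.natAbs) (hB : B = b.natAbs) :
    (a * b : ℤ) = (A : ℤ) * B ∨ (a * b : ℤ) = -((A : ℤ) * B) := by
  have h := Int.natAbs_eq (a * b)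
  rw [Int.natAbs_mul, ← hA, ← hB, Nat.cast_mul] at h
  exact h

private theorem bs3_le (a : ℤ) (X : ℕ) (h : |a| ≤ X) : a.natAbs ≤ X := by
  rw [Int.abs_eq_natAbs] at h
  exact_mod_cast h

theorem ZP.signed {l : ℚ → ℚ} (hl : Five l) {X : ℕ} (h : ZP l X) : ZZ l X := by
  intro a b c d e f ha hb hc hd he hf ha' hb' hc' hd' he' hf' hs
  obtain ⟨A, hA⟩ : ∃ A : ℕ, A = a.natAbs := ⟨_, rfl⟩
  obtain ⟨B, hB⟩ : ∃ A : ℕ, A = b.natAbs := ⟨_, rfl⟩
  obtain ⟨C, hC⟩ : ∃ A : ℕ, A = c.natAbs := ⟨_, rfl⟩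
  obtain ⟨D, hD⟩ : ∃ A : ℕ, A = d.natAbs := ⟨_, rfl⟩
  obtain ⟨E, hE⟩ : ∃ A : ℕ, A = e.natAbs := ⟨_, rfl⟩
  obtain ⟨F, hF⟩ : ∃ A : ℕ, A = f.natAbs := ⟨_, rfl⟩
  have pA : 0 < A := by rw [hA]; exact Int.natAbs_pos.2 ha
  have pB : 0 < B := by rw [hB]; exact Int.natAbs_pos.2 hb
  have pC : 0 < C := by rw [hC]; exact Int.natAbs_pos.2 hc
  have pD : 0 < D := by rw [hD]; exact Int.natAbs_pos.2 hd
  have pE : 0 < E := by rw [hE]; exact Int.natAbs_pos.2 he
  have pF : 0 < F := by rw [hF]; exact Int.natAbs_pos.2 hf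
  have lA : A ≤ X := by rw [hA]; exact bs3_le a X ha'
  have lB : B ≤ X := by rw [hB]; exact bs3_le b X hb'
  have lC : C ≤ X := by rw [hC]; exact bs3_le c X hc'
  have lD : D ≤ X := by rw [hD]; exact bs3_le d X hd'
  have lE : E ≤ X := by rw [hE]; exact bs3_le e X he'
  have lF : F ≤ X := by rw [hF]; exact bs3_le f X hf'
  have qAB : (0 : ℤ) < (A : ℤ) * B := by positivity
  have qCD : (0 : ℤ) < (C : ℤ) * D := by positivity
  have qEF : (0 : ℤ) < (E : ℤ) * F := by positivity
  have rAB : (0 : ℚ) < (A : ℚ) * B := by positivity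
  have rCD : (0 : ℚ) < (C : ℚ) * D := by positivity
  have rEF : (0 : ℚ) < (E : ℚ) * F := by positivity
  -- the three identities between the natural numbers
  have k1 : A * B + C * D = E * F → l ((A * B : ℚ) / (E * F)) = 0 := by
    intro hn
    have z := h A B C D E F pA pB pC pD pE pF lA lB lC lD lE lF hn
    have hq : ((A : ℚ) * B) + (C : ℚ) * D = (E : ℚ) * F := by exact_mod_cast hn
    rw [lam_eq hq] at z
    exact z
  have k2 : E * F + C * D = A * B → l ((A * B : ℚ) / (E * F)) = 0 := by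
    intro hn
    have z := h E F C D A B pE pF pC pD pA pB lE lF lC lD lA lB hn
    have hq : ((E : ℚ) * F) + (C : ℚ) * D = (A : ℚ) * B := by exact_mod_cast hn
    rw [hl.inv_lam rEF rCD hq, z, neg_zero]
  have k3 : A * B + E * F = C * D → l (-(A * B : ℚ) / (E * F)) = 0 := by
    intro hn
    have z := h A B E F C D pA pB pE pF pC pD lA lB lE lF lC lD hn
    rw [hl.neg_div rAB rEF, z, neg_zero]
  rcases bs3_prod a b A B hA hB with u | u <;> rcases bs3_prod c d C D hC hD with v | v <;>
    rcases bs3_prod e f E F hE hF with w | w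
  · have hn : A * B + C * D = E * F := by
      have : (A : ℤ) * B + (C : ℤ) * D = (E : ℤ) * F := by rw [← u, ← v, ← w]; exact hs
      exact_mod_cast this
    have u' : (a * b : ℚ) = (A : ℚ) * B := by exact_mod_cast u
    have w' : (e * f : ℚ) = (E : ℚ) * F := by exact_mod_cast w
    rw [u', w']
    exact k1 hn
  · exfalso
    rw [u, v, w] at hs
    linarith
  · have hn : E * F + C * D = A * B := by
      have : (E : ℤ) * F + (C : ℤ) * D = (A : ℤ) * B := by rw [u, v, w] at hs; linarith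
      exact_mod_cast this
    have u' : (a * b : ℚ) = (A : ℚ) * B := by exact_mod_cast u
    have w' : (e * f : ℚ) = (E : ℚ) * F := by exact_mod_cast w
    rw [u', w']
    exact k2 hn
  · have hn : A * B + E * F = C * D := by
      have : (A : ℤ) * B + (E : ℤ) * F = (C : ℤ) * D := by rw [u, v, w] at hs; linarith
      exact_mod_cast this
    have u' : (a * b : ℚ) = (A : ℚ) * B := by exact_mod_cast u
    have w' : (e * f : ℚ) = -((E : ℚ) * F) := by exact_mod_cast w
    rw [u', w', div_neg, ← _root_.neg_div]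
    exact k3 hn
  · have hn : A * B + E * F = C * D := by
      have : (A : ℤ) * B + (E : ℤ) * F = (C : ℤ) * D := by rw [u, v, w] at hs; linarith
      exact_mod_cast this
    have u' : (a * b : ℚ) = -((A : ℚ) * B) := by exact_mod_cast u
    have w' : (e * f : ℚ) = (E : ℚ) * F := by exact_mod_cast w
    rw [u', w']
    exact k3 hn
  · have hn : E * F + C * D = A * B := by
      have : (E : ℤ) * F + (C : ℤ) * D = (A : ℤ) * B := by rw [u, v, w] at hs; linarith
      exact_mod_cast this
    have u' : (a * b : ℚ) = -((A : ℚ) * B) := by exact_mod_cast u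
    have w' : (e * f : ℚ) = -((E : ℚ) * F) := by exact_mod_cast w
    rw [u', w', neg_div_neg_eq]
    exact k2 hn
  · exfalso
    rw [u, v, w] at hs
    linarith
  · have hn : A * B + C * D = E * F := by
      have : (A : ℤ) * B + (C : ℤ) * D = (E : ℤ) * F := by rw [u, v, w] at hs; linarith
      exact_mod_cast this
    have u' : (a * b : ℚ) = -((A : ℚ) * B) := by exact_mod_cast u
    have w' : (e * f : ℚ) = -((E : ℚ) * F) := by exact_mod_cast w
    rw [u', w', neg_div_neg_eq]
    exact k1 hn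

end Pool.Agent.QGC
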