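import Pool.Agent.QGC.BD2

/-!
# QGC-BSq: the `p²` type

PLAN (B.5 of /team-store/qgc_paper.md). Given `c d + e f = p p` write `l0 f + d k = p p`
(`l0 = c`, `f = d`, `d = e`, `k = f`). `z` in `[1,p-1]` with `z d + f = p a'`, `0 < a' < p`.
The fractions `k/l0`, `z/1` are congruent mod `p` and different (`k = z l0` gives
`p p = l0 (f + d z) = l0 p a'`, so `p = l0 a'`, `l0 = 1`, `a' = p`, contradiction).
Case `k/l0 > z/1`: `(k3,l3) = (k,l0)`, `a3 = p`, `(k2,l2) = (z,1)`, `a2 = a'`; case `<`: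
`(k3,l3) = (z,1)`, `a3 = a'`, `(k2,l2) = (k,l0)`, `a2 = p`.
`Five.pos` with `d01=l3, d02=l2, d03=1, d04=d, d12=p c, d13=k3, d14=p a3, d23=k2, d24=p a2, d34=f`
(`k3 l2 - k2 l3 = p c`, `0 < c < p`):
* case `a3 = p`: omit0 `Lam (c f) (p k2)` (sum `k3 a2`) `= l (c f/(k3 a2)) = P c + P f - P k3 -
  P a2` (`hpos`), omit3 `Lam (l3 a2) (d c)` (sum `l2 p`) `= P d + P c - P l3 - P a2` (`hneg`),
  omit1 `Lam (l2 f) (d k2) = P d + P k2 - P l2 - P f` (`hneg`), omit4 `= P l3 + P k2 - P l2 - P k3`
  (`hpos`); result `Lam (l3 f) (d k3) = 2 (P d + P k3 - P l3 - P f)`.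
* case `a2 = p`: omit0 `Lam (c f) (a3 k2)` (sum `k3 p`) `= P a3 + P k2 - P c - P f` (`hneg`),
  omit3 `Lam (l3 p) (d c)` (sum `l2 a3`), so `Lam (d c) (l3 p) = l (d c / (l2 a3)) =
  P d + P c - P l2 - P a3` and omit3 is minus this; omit2 `Lam (l3 f) (d k3)` (`hneg`), omit4 as
  before.
(`hl.lam_swap`, `lam_mul`, `lam_eq`.)
-/

set_option autoImplicit false

namespace Pool.Agent.QGC

/-- the case `k / l0 < z / 1` of the plan (the other one does not occur). -/
lemma sq_aux {p c d e f : ℕ} (hp : p.Prime) (hc : 0 < c) (hd : 0 < d) (he : 0 < e)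
    (hf : 0 < f) (hcp : c < p) (hdp : d < p) (hep : e < p) (hfp : f < p)
    (h : c * d + e * f = p * p) :
    ∃ z a g : ℕ, 0 < z ∧ 0 < a ∧ 0 < g ∧ z < p ∧ a < p ∧ g < p ∧ z * e + d = p * a ∧
      z * c = f + p * g := by
  have := Fact.mk hp
  have he0 : (e : ZMod p) ≠ 0 := by
    intro h0
    rw [ZMod.natCast_eq_zero_iff] at h0
    exact absurd (Nat.le_of_dvd he h0) (by omega)
  have hdz : (d : ZMod p) ≠ 0 := by
    intro h0
    rw [ZMod.natCast_eq_zero_iff] at h0
    exact absurd (Nat.le_of_dvd hd h0) (by omega)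
  obtain ⟨z, hz, hzp⟩ : ∃ z : ℕ, (z : ZMod p) = -(d : ZMod p) / e ∧ z < p :=
    ⟨(-(d : ZMod p) / e).val, ZMod.natCast_zmod_val _, ZMod.val_lt _⟩
  have hz0 : 0 < z := by
    rcases Nat.eq_zero_or_pos z with h0 | h0
    · rw [h0, Nat.cast_zero] at hz
      have : -(d : ZMod p) / e ≠ 0 := div_ne_zero (neg_ne_zero.2 hdz) he0
      exact absurd hz.symm this
    · exact h0
  have hdiv : p ∣ z * e + d := by
    rw [← ZMod.natCast_eq_zero_iff]
    push_cast
    rw [hz, div_mul_cancel₀ _ he0, neg_add_cancel]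
  obtain ⟨a, ha⟩ := hdiv
  have ha0 : 0 < a := by
    rcases Nat.eq_zero_or_pos a with h0 | h0
    · rw [h0, mul_zero] at ha; omega
    · exact h0
  have hap : a < p := by
    have h1 : z * e ≤ (p - 1) * (p - 1) := Nat.mul_le_mul (by omega) (by omega)
    have h2 : p * a < p * p := by
      obtain ⟨q, rfl⟩ : ∃ q, p = q + 1 := ⟨p - 1, by omega⟩
      simp only [Nat.add_sub_cancel] at h1
      rw [← ha]
      nlinarith
    exact Nat.lt_of_mul_lt_mul_left h2
  have hdvd : (p : ℤ) ∣ (z : ℤ) * c - f := by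
    have h1 : (p : ℤ) ∣ (e : ℤ) * ((z : ℤ) * c - f) := by
      refine ⟨(a : ℤ) * c - p, ?_⟩
      have h2 : (z : ℤ) * e + d = p * a := by exact_mod_cast ha
      have h3 : (c : ℤ) * d + e * f = p * p := by exact_mod_cast h
      linear_combination (c : ℤ) * h2 - h3
    have h2 : IsCoprime (p : ℤ) (e : ℤ) := by
      rw [Nat.isCoprime_iff_coprime]
      exact (Nat.Prime.coprime_iff_not_dvd hp).2 fun h0 =>
        absurd (Nat.le_of_dvd he h0) (by omega)
    exact h2.dvd_of_dvd_mul_left h1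
  obtain ⟨g, hg⟩ := hdvd
  have hp0 : (0 : ℤ) < p := by exact_mod_cast hp.pos
  have hzc : (1 : ℤ) ≤ (z : ℤ) * c := by
    have : 1 ≤ z * c := Nat.mul_pos hz0 hc
    exact_mod_cast this
  have hg1 : 0 ≤ g := by
    by_contra hlt
    have h1 : g ≤ -1 := by omega
    have h2 : (p : ℤ) * g ≤ -p := by nlinarith
    have h3 : (f : ℤ) < p := by exact_mod_cast hfp
    linarith
  obtain ⟨g', rfl⟩ := Int.eq_ofNat_of_zero_le hg1
  have hgn : z * c = f + p * g' := by
    have : (z : ℤ) * c = f + p * g' := by linarith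
    exact_mod_cast this
  have hg0 : 0 < g' := by
    rcases Nat.eq_zero_or_pos g' with h0 | h0
    · exfalso
      rw [h0, mul_zero, add_zero] at hgn
      have h1 : c * a = p := by
        have h2 : p * (c * a) = p * p := by
          rw [← h]
          calc p * (c * a) = c * (p * a) := by ring
            _ = c * (z * e + d) := by rw [ha]
            _ = c * d + e * (z * c) := by ring
            _ = c * d + e * f := by rw [hgn]
        exact Nat.eq_of_mul_eq_mul_left hp.pos h2
      rcases (Nat.dvd_prime hp).1 (Dvd.intro a h1) with h2 | h2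
      · rw [h2, one_mul] at h1; omega
      · omega
    · exact h0
  have hgp : g' < p := by
    have h1 : z * c ≤ (p - 1) * (p - 1) := Nat.mul_le_mul (by omega) (by omega)
    have h2 : p * g' < p * p := by
      obtain ⟨q, rfl⟩ : ∃ q, p = q + 1 := ⟨p - 1, by omega⟩
      simp only [Nat.add_sub_cancel] at h1
      nlinarith
    exact Nat.lt_of_mul_lt_mul_left h2
  exact ⟨z, a, g', hz0, ha0, hg0, hzp, hap, hgp, ha, hgn⟩

theorem sqP {l P : ℚ → ℚ} (hl : Five l) {p : ℕ} (hp : p.Prime) (hP : IsLog P)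
    (hpos : PosP l P p) (hneg : NegP l P p) : SqP l P p := by
  intro c d e f hc hd he hf hcp hdp hep hfp h
  obtain ⟨z, a, g, hz, ha, hg, hzp, hap, hgp, h1, h2⟩ :=
    sq_aux hp hc hd he hf hcp hdp hep hfp h
  have h3 : g * d + a * f = p * z := by
    have h4 : p * (g * d + a * f) = p * (p * z) := by
      have e1 : (z : ℤ) * e + d = p * a := by exact_mod_cast h1
      have e2 : (z : ℤ) * c = f + p * g := by exact_mod_cast h2
      have e3 : (c : ℤ) * d + e * f = p * p := by exact_mod_cast h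
      have : (p : ℤ) * (g * d + a * f) = p * (p * z) := by
        linear_combination (-(f : ℤ)) * e1 - (d : ℤ) * e2 + (z : ℤ) * e3
      exact_mod_cast this
    exact Nat.eq_of_mul_eq_mul_left hp.pos h4
  have h5 : p + e * g = c * a := by
    have h4 : p * (p + e * g) = p * (c * a) := by
      have e1 : (z : ℤ) * e + d = p * a := by exact_mod_cast h1
      have e2 : (z : ℤ) * c = f + p * g := by exact_mod_cast h2
      have e3 : (c : ℤ) * d + e * f = p * p := by exact_mod_cast h
      have : (p : ℤ) * (p + e * g) = p * (c * a) := by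
        linear_combination (c : ℤ) * e1 - (e : ℤ) * e2 - e3
      exact_mod_cast this
    exact Nat.eq_of_mul_eq_mul_left hp.pos h4
  have q1 : (z : ℚ) * e + d = p * a := by exact_mod_cast h1
  have q2 : (z : ℚ) * c = f + p * g := by exact_mod_cast h2
  have q3 : (g : ℚ) * d + a * f = p * z := by exact_mod_cast h3
  have q5 : (p : ℚ) + e * g = c * a := by exact_mod_cast h5
  have qh : (c : ℚ) * d + e * f = p * p := by exact_mod_cast h
  have hp1 : 1 < p := hp.one_lt
  have cp : (0 : ℚ) < p := by exact_mod_cast hp.pos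
  have cc : (0 : ℚ) < c := by exact_mod_cast hc
  have cd : (0 : ℚ) < d := by exact_mod_cast hd
  have ce : (0 : ℚ) < e := by exact_mod_cast he
  have cf : (0 : ℚ) < f := by exact_mod_cast hf
  have cz : (0 : ℚ) < z := by exact_mod_cast hz
  have ca : (0 : ℚ) < a := by exact_mod_cast ha
  have cg : (0 : ℚ) < g := by exact_mod_cast hg
  have hP1 : P ((1 : ℕ) : ℚ) = 0 := by rw [Nat.cast_one]; exact hP.one
  -- omit 0
  have t0 : Lam l (p * g * d) (p * a * f) = P a + P f - P g - P d := by
    have e1 := hneg g d a f z hg hd ha hf hz hgp hdp hap hfp hzp h3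
    rw [← e1, mul_assoc, mul_assoc, lam_mul _ cp.ne']
  -- omit 2
  have t2 : Lam l (1 * d) (e * z) = P e + P z - P d := by
    have e1 := hneg 1 d e z a one_pos hd he hz ha hp1 hdp hep hzp hap
      (by rw [one_mul, ← h1]; ring)
    rw [hP1, Nat.cast_one] at e1
    rw [e1]; ring
  -- omit 3
  have t3 : Lam l (1 * (p * p)) (e * (p * g)) = - (P e - P a - P c + P g) := by
    have e1 := hpos e a c g he ha hc hg hep hap hcp hgp
      (by rw [← h5, Nat.add_mod_left])
    have e2 : Lam l (1 * (p * p)) (e * (p * g)) = Lam l p (e * g) := by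
      have e3 := lam_mul (l := l) (p : ℚ) cp.ne' (p : ℚ) ((e : ℚ) * g)
      rw [← e3]
      congr 1 <;> ring
    rw [e2, hl.lam_swap (by positivity) cp,
      lam_eq (w := (c : ℚ) * a) (by rw [← q5]; ring), e1]
  -- omit 4
  have t4 : Lam l (1 * f) (1 * (p * g)) = P f - P z - P c := by
    have e1 := hpos f z c 1 hf hz hc one_pos hfp hzp hcp hp1
      (by rw [mul_one, mul_comm c z, h2, Nat.add_mul_mod_self_left])
    rw [hP1, Nat.cast_one] at e1
    rw [lam_eq (w := (c : ℚ) * z) (by rw [mul_comm, mul_comm (c : ℚ) z, q2]; ring)]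
    rw [mul_one] at e1
    rw [one_mul, e1]; ring
  have main := hl.pos (d01 := 1) (d02 := c) (d03 := 1) (d04 := e) (d12 := p * g) (d13 := z)
    (d14 := p * a) (d23 := f) (d24 := p * p) (d34 := d) one_pos cc one_pos ce
    (by positivity) cz (by positivity) cf (by positivity) cd
    (by linear_combination (-1 : ℚ) * q2) (by linear_combination (p : ℚ) * q5)
    (by linear_combination q1) (by linear_combination qh)
    (by linear_combination (p : ℚ) * q3)
  rw [t0, t2, t3, t4] at main
  linarith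

end Pool.Agent.QGC
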