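import Pool.Agent.QGC.BdA
import Pool.Agent.QGC.BS3
import Pool.Agent.QGC.BR2
import Pool.Agent.QGC.BP
import Pool.Agent.QGC.BLog
import Pool.Agent.QGC.BNeg
import Pool.Agent.QGC.BSq
import Pool.Agent.QGC.BAsm
import Pool.Agent.QGC.BCmpA

/-!
# Every five-term function on the rationals is `t ↦ A t (1 - t)` on finite sets
-/

set_option autoImplicit false

namespace Pool.Agent.QGC

/-- the prime step. -/
theorem prime_step {l : ℚ → ℚ} (hl : Five l) {p : ℕ} (hp : p.Prime) (hZ : ZP l (p - 1)) :
    ∃ A, IsAlt A ∧ ZP (fun t => l t - dA A t) p := by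
  obtain ⟨P0, h1, hm, hpos⟩ := exists_P hl hp (r2 hl hp hZ)
  obtain ⟨P, hP, hPe, -⟩ := extend_log p P0 h1 hm
  have hpos' : PosP l P p := by
    intro m n m' n' hm hn hm' hn' bm bn bm' bn' e
    rw [hPe m hm bm, hPe n hn bn, hPe m' hm' bm', hPe n' hn' bn']
    exact hpos m n m' n' hm hn hm' hn' bm bn bm' bn' e
  have hneg := negP hl hp hP hZ hpos'
  have hsq := sqP hl hp hP hpos' hneg
  exact ⟨vP p P, vP_isAlt hp hP, asm hl hp hP hZ hpos' hneg hsq⟩

/-- signed letters contain the positive ones. -/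
lemma ZZ.pos {l : ℚ → ℚ} {X : ℕ} (h : ZZ l X) : ZP l X := by
  intro a b c d e f ha hb hc hd he hf ba bb bc bd be bf eq
  have h1 := h a b c d e f (by omega) (by omega) (by omega) (by omega) (by omega) (by omega)
    (by rw [abs_of_nonneg (by omega)]; omega) (by rw [abs_of_nonneg (by omega)]; omega)
    (by rw [abs_of_nonneg (by omega)]; omega) (by rw [abs_of_nonneg (by omega)]; omega)
    (by rw [abs_of_nonneg (by omega)]; omega) (by rw [abs_of_nonneg (by omega)]; omega)
    (by exact_mod_cast eq)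
  have h2 : (a : ℚ) * b + c * d = e * f := by exact_mod_cast eq
  rw [lam_eq h2]
  simpa only [Int.cast_natCast] using h1

lemma isAlt_zero : IsAlt (fun _ _ => (0 : ℚ)) :=
  ⟨fun _ _ _ _ _ _ => by simp, fun _ _ _ _ _ _ => by simp, fun _ _ => rfl⟩

/-- the induction. -/
theorem exists_alt {l : ℚ → ℚ} (hl : Five l) (X : ℕ) :
    ∃ A, IsAlt A ∧ ZP (fun t => l t - dA A t) X := by
  induction X with
  | zero =>
    refine ⟨_, isAlt_zero, ?_⟩
    intro a b c d e f ha hb hc hd he hf ba
    omega
  | succ X ih =>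
    obtain ⟨A, hA, hZ⟩ := ih
    have hl' : Five (fun t => l t - dA A t) := hl.sub_five (five_dA hA)
    rcases Nat.lt_or_ge X 1 with hX | hX
    · have hX0 : X = 0 := by omega
      subst hX0
      refine ⟨_, isAlt_zero, ?_⟩
      intro a b c d e f ha hb hc hd he hf ba bb bc bd be bf eq
      have : a = 1 := by omega
      have : b = 1 := by omega
      have : c = 1 := by omega
      have : d = 1 := by omega
      have : e = 1 := by omega
      have : f = 1 := by omega
      subst_vars
      omega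
    · by_cases hp : (X + 1).Prime
      · obtain ⟨B, hB, hZB⟩ := prime_step hl' hp (by simpa using hZ)
        refine ⟨_, hA.add hB, ?_⟩
        have h1 : (fun t => l t - dA (fun x y => A x y + B x y) t) =
            fun t => (fun t => l t - dA A t) t - dA B t := by
          funext t
          rw [dA_add]
          ring
        rw [h1]
        exact hZB
      · have hq : (X + 1).minFac.Prime := Nat.minFac_prime (by omega)
        obtain ⟨n1, hn1⟩ := Nat.minFac_dvd (X + 1)
        have hn1' : 2 ≤ n1 := by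
          rcases Nat.lt_or_ge n1 2 with h | h
          · have : n1 = 0 ∨ n1 = 1 := by omega
            rcases this with h | h
            · rw [h, mul_zero] at hn1; omega
            · rw [h, mul_one] at hn1
              exact absurd (hn1 ▸ hq) hp
          · exact h
        refine ⟨A, hA, ?_⟩
        have hZ' : ZZ (fun t => l t - dA A t) (X + 1 - 1) := by
          simpa using hZ.signed hl'
        exact (comp_all hl' hq hn1' (by rw [mul_comm]; exact hn1) hZ').pos

/-- Every five-term function is `t ↦ A t (1 - t)` on finite sets. -/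
theorem fiveAlt {l : ℚ → ℚ} (hl : Five l) (S : Finset ℚ) (hS : ∀ t ∈ S, t ≠ 0 ∧ t ≠ 1) :
    ∃ A, IsAlt A ∧ ∀ t ∈ S, l t = A t (1 - t) := by
  obtain ⟨A, hA, hZ⟩ := exists_alt hl (S.sup fun t => t.num.natAbs + t.den)
  refine ⟨A, hA, fun t ht => ?_⟩
  have hl' : Five (fun t => l t - dA A t) := hl.sub_five (five_dA hA)
  have hZ' := hZ.signed hl'
  have hb : t.num.natAbs + t.den ≤ S.sup fun t => t.num.natAbs + t.den :=
    Finset.le_sup (f := fun t : ℚ => t.num.natAbs + t.den) ht
  obtain ⟨h0, h1⟩ := hS t ht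
  have hn : t.num ≠ 0 := Rat.num_ne_zero.2 h0
  have hd : (0 : ℤ) < t.den := by exact_mod_cast t.den_pos
  have hnd : (t.den : ℤ) - t.num ≠ 0 := by
    intro h
    apply h1
    have h2 : (t.num : ℚ) = t.den := by
      have : t.num = t.den := by omega
      exact_mod_cast this
    rw [← Rat.num_div_den t, h2]
    exact div_self (by exact_mod_cast t.den_nz)
  have g1 : |t.num| ≤ ((S.sup fun t => t.num.natAbs + t.den : ℕ) : ℤ) := by
    rw [abs_le]; omega
  have g2 : |(t.den : ℤ) - t.num| ≤ ((S.sup fun t => t.num.natAbs + t.den : ℕ) : ℤ) := by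
    rw [abs_le]; omega
  have g3 : |(t.den : ℤ)| ≤ ((S.sup fun t => t.num.natAbs + t.den : ℕ) : ℤ) := by
    rw [abs_le]; omega
  have g4 : |(1 : ℤ)| ≤ ((S.sup fun t => t.num.natAbs + t.den : ℕ) : ℤ) := by
    have := t.den_pos
    rw [abs_le]; omega
  have h2 := hZ' t.num 1 (t.den - t.num) 1 t.den 1 hn one_ne_zero hnd one_ne_zero (by omega)
    one_ne_zero g1 g4 g2 g4 g3 g4 (by ring)
  have h3 : ((t.num * 1 : ℚ) / (((t.den : ℤ) : ℚ) * 1)) = t := by
    rw [mul_one, mul_one]
    exact_mod_cast Rat.num_div_den t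
  have h4 : (fun t => l t - dA A t) t = 0 := by
    rw [← h3]
    exact_mod_cast h2
  have h5 : l t = dA A t := by
    simp only at h4
    linarith
  rw [h5, dA_of h0 h1]

end Pool.Agent.QGC
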