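import Pool.Agent.QGC.BD2

/-!
# QGC-BN1: change of the positive fraction in the negative type

PLAN (B.4, N1 of /team-store/qgc_paper.md). `ep l0 f d k := Lam l (l0 f) (d k) - (P d + P k - P l0
- P f)`.  Lemma `core` for two fractions `k3/l3 > k2/l2` with
`k3 d + f l3 = p a3`, `k2 d + f l2 = p a2`, `k3 l2 - k2 l3 = p c` (all letters in `[1,p-1]`):
`Five.pos` with `d01=l3, d02=l2, d03=1, d04=d, d12=p c, d13=k3, d14=p a3, d23=k2, d24=p a2, d34=f`:
`Lam (d12 d34) (d14 d23) = Lam (c f) (a3 k2)` (sum `k3 a2`) `= 0` by `hZ`,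
`Lam (d01 d24) (d04 d12) = Lam (l3 a2) (d c)` (sum `l2 a3`) `= 0` by `hZ`,
`Lam (d01 d23) (d03 d12) = l (l3 k2 / (l2 k3)) = P l3 + P k2 - P l2 - P k3` by `hpos`
(`(l3 k2) % p = (l2 k3) % p`).  So `ep l2 f d k2 = ep l3 f d k3`.
N1: apply it to `(k, l0)` and `(z, 1)`; if `k = z l0` (equal fractions) then `Lam (l0 f) (d k) =
Lam f (d z)` by `lam_mul l0` and `P k = P z + P l0` (`hP`).  `k 1 = z l0 mod p` since
`d k = - l0 f`, `d z = - f` and `d` is invertible mod `p`.
-/

set_option autoImplicit false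

namespace Pool.Agent.QGC

/-- The comparison of two fractions of the same class. -/
private theorem n1core {l P : ℚ → ℚ} (hl : Five l) {p : ℕ} (hp : p.Prime)
    (hZ : ZP l (p - 1)) (hpos : PosP l P p) (f d k2 l2 a2 k3 l3 a3 : ℕ)
    (hf : 0 < f) (hd : 0 < d) (hk2 : 0 < k2) (hl2 : 0 < l2) (ha2 : 0 < a2)
    (hk3 : 0 < k3) (hl3 : 0 < l3) (ha3 : 0 < a3)
    (hf' : f < p) (hd' : d < p) (hk2' : k2 < p) (hl2' : l2 < p) (ha2' : a2 < p)
    (hk3' : k3 < p) (hl3' : l3 < p) (ha3' : a3 < p)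
    (h2 : l2 * f + d * k2 = p * a2) (h3 : l3 * f + d * k3 = p * a3)
    (hlt : l3 * k2 < l2 * k3) :
    Lam l (l2 * f) (d * k2) - (P k2 - P l2) = Lam l (l3 * f) (d * k3) - (P k3 - P l3) := by
  have hp0 : 0 < p := hp.pos
  -- the quotient `c`
  have hdvd : p ∣ l2 * k3 - l3 * k2 := by
    have hcop : Nat.Coprime p d := by
      rw [Nat.Prime.coprime_iff_not_dvd hp]
      intro hd2
      have := Nat.le_of_dvd hd hd2
      omega
    have h4 : p ∣ d * (l2 * k3 - l3 * k2) := by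
      have h5 : d * (l2 * k3 - l3 * k2) = p * (l2 * a3) - p * (l3 * a2) := by
        have e1 : p * (l2 * a3) = l2 * l3 * f + d * (l2 * k3) := by
          calc p * (l2 * a3) = l2 * (p * a3) := by ring
            _ = l2 * (l3 * f + d * k3) := by rw [h3]
            _ = l2 * l3 * f + d * (l2 * k3) := by ring
        have e2 : p * (l3 * a2) = l2 * l3 * f + d * (l3 * k2) := by
          calc p * (l3 * a2) = l3 * (p * a2) := by ring
            _ = l3 * (l2 * f + d * k2) := by rw [h2]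
            _ = l2 * l3 * f + d * (l3 * k2) := by ring
        rw [e1, e2, Nat.mul_sub]
        omega
      rw [h5]
      exact Nat.dvd_sub (Dvd.intro _ rfl) (Dvd.intro _ rfl)
    exact hcop.dvd_of_dvd_mul_left h4
  obtain ⟨c, hc⟩ := hdvd
  have hc1 : l3 * k2 + p * c = l2 * k3 := by omega
  have hc0 : 0 < c := by
    rcases Nat.eq_zero_or_pos c with h | h
    · rw [h, mul_zero] at hc1; omega
    · exact h
  have hcp : c < p := by
    by_contra hge
    have h5 : p * p ≤ p * c := Nat.mul_le_mul_left p (not_lt.1 hge)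
    have h6 : l2 * k3 < p * p := Nat.mul_lt_mul'' hl2' hk3'
    omega
  -- the identities over the rationals
  have q1 : (l3 : ℚ) * k2 + p * c = l2 * k3 := by exact_mod_cast hc1
  have q2 : (l2 : ℚ) * f + d * k2 = p * a2 := by exact_mod_cast h2
  have q3 : (l3 : ℚ) * f + d * k3 = p * a3 := by exact_mod_cast h3
  have pq : (p : ℚ) ≠ 0 := by exact_mod_cast hp0.ne'
  have pf : (0 : ℚ) < f := by exact_mod_cast hf
  have pd : (0 : ℚ) < d := by exact_mod_cast hd
  have pk2 : (0 : ℚ) < k2 := by exact_mod_cast hk2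
  have pl2 : (0 : ℚ) < l2 := by exact_mod_cast hl2
  have pa2 : (0 : ℚ) < a2 := by exact_mod_cast ha2
  have pk3 : (0 : ℚ) < k3 := by exact_mod_cast hk3
  have pl3 : (0 : ℚ) < l3 := by exact_mod_cast hl3
  have pa3 : (0 : ℚ) < a3 := by exact_mod_cast ha3
  have pc : (0 : ℚ) < c := by exact_mod_cast hc0
  have pp : (0 : ℚ) < p := by exact_mod_cast hp0
  have s4 : (d : ℚ) * c = l2 * a3 - l3 * a2 := by
    have : (p : ℚ) * (d * c) = p * (l2 * a3 - l3 * a2) := by
      linear_combination (d : ℚ) * q1 - (l3 : ℚ) * q2 + (l2 : ℚ) * q3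
    exact mul_left_cancel₀ pq this
  have s5 : (c : ℚ) * f + a3 * k2 = k3 * a2 := by
    have : (p : ℚ) * (c * f + a3 * k2) = p * (k3 * a2) := by
      linear_combination (f : ℚ) * q1 + (k3 : ℚ) * q2 - (k2 : ℚ) * q3
    exact mul_left_cancel₀ pq this
  have key := hl.pos (d01 := (l3 : ℚ)) (d02 := (l2 : ℚ)) (d03 := 1) (d04 := (d : ℚ))
    (d12 := (p : ℚ) * c) (d13 := (k3 : ℚ)) (d14 := (p : ℚ) * a3) (d23 := (k2 : ℚ))
    (d24 := (p : ℚ) * a2) (d34 := (f : ℚ)) pl3 pl2 one_pos pd (by positivity) pk3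
    (by positivity) pk2 (by positivity) pf (by rw [one_mul]; exact q1)
    (by linear_combination (p : ℚ) * s4) (by rw [one_mul]; exact q3) (by rw [one_mul]; exact q2)
    (by linear_combination (p : ℚ) * s5)
  -- the first term
  have t0 : Lam l ((p : ℚ) * c * f) (p * a3 * k2) = 0 := by
    have h6 : c * f + a3 * k2 = k3 * a2 := by exact_mod_cast s5
    have h7 := hZ c f a3 k2 k3 a2 hc0 hf ha3 hk2 hk3 ha2 (by omega) (by omega) (by omega)
      (by omega) (by omega) (by omega) h6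
    rw [mul_assoc, mul_assoc, lam_mul _ pq]
    exact h7
  have t3 : Lam l ((l3 : ℚ) * (p * a2)) (d * (p * c)) = 0 := by
    have h6 : l3 * a2 + d * c = l2 * a3 := by
      have : (l3 : ℚ) * a2 + d * c = l2 * a3 := by linear_combination s4
      exact_mod_cast this
    have h7 := hZ l3 a2 d c l2 a3 hl3 ha2 hd hc0 hl2 ha3 (by omega) (by omega) (by omega)
      (by omega) (by omega) (by omega) h6
    have e1 : (l3 : ℚ) * (p * a2) = p * (l3 * a2) := by ring
    have e2 : (d : ℚ) * (p * c) = p * (d * c) := by ring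
    rw [e1, e2, lam_mul _ pq]
    exact h7
  have t4 : Lam l ((l3 : ℚ) * k2) (1 * (p * c)) = P l3 - P k3 - P l2 + P k2 := by
    rw [one_mul, lam_eq q1]
    refine hpos l3 k3 l2 k2 hl3 hk3 hl2 hk2 hl3' hk3' hl2' hk2' ?_
    rw [← hc1, Nat.add_mul_mod_self_left]
  rw [t0, t3, t4] at key
  linarith

theorem n1 {l P : ℚ → ℚ} (hl : Five l) {p : ℕ} (hp : p.Prime) (hP : IsLog P)
    (hZ : ZP l (p - 1)) (hpos : PosP l P p) (l0 f d k z a a' : ℕ) (hl0 : 0 < l0) (hf : 0 < f)
    (hd : 0 < d) (hk : 0 < k) (hz : 0 < z) (ha : 0 < a) (hl0' : l0 < p) (hf' : f < p)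
    (hd' : d < p) (hk' : k < p) (hz' : z < p) (ha' : a < p) (h : l0 * f + d * k = p * a)
    (h' : f + d * z = p * a') :
    Lam l (l0 * f) (d * k) - (P d + P k - P l0 - P f) = Lam l f (d * z) - (P d + P z - P f) := by
  have hp0 : 0 < p := hp.pos
  have h1p : 1 < p := hp.one_lt
  have hb0 : 0 < a' := by
    rcases Nat.eq_zero_or_pos a' with h0 | h0
    · rw [h0, mul_zero] at h'; omega
    · exact h0
  have hbp : a' < p := by
    by_contra hge
    have h5 : p * p ≤ p * a' := Nat.mul_le_mul_left p (not_lt.1 hge)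
    have h6 : d * z ≤ (p - 1) * (p - 1) := Nat.mul_le_mul (by omega) (by omega)
    have h7 : (p - 1) * (p - 1) + p ≤ p * p := by
      obtain ⟨r, rfl⟩ : ∃ r, p = r + 1 := ⟨p - 1, by omega⟩
      simp only [Nat.add_sub_cancel]
      nlinarith
    omega
  have h1 : 1 * f + d * z = p * a' := by rw [one_mul]; exact h'
  rcases lt_trichotomy (l0 * z) (1 * k) with hlt | heq | hgt
  · -- `k / l0 > z / 1`
    have := n1core hl hp hZ hpos f d z 1 a' k l0 a hf hd hz one_pos hb0 hk hl0 ha hf' hd' hz' h1p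
      hbp hk' hl0' ha' h1 h hlt
    rw [Nat.cast_one, one_mul, hP.one] at this
    linarith
  · have hk2 : (k : ℚ) = l0 * z := by
      rw [one_mul] at heq
      exact_mod_cast heq.symm
    have e1 : (d : ℚ) * k = l0 * (d * z) := by rw [hk2]; ring
    have hl0q : (l0 : ℚ) ≠ 0 := by exact_mod_cast hl0.ne'
    have hzq : (z : ℚ) ≠ 0 := by exact_mod_cast hz.ne'
    rw [e1, lam_mul _ hl0q, hk2, hP _ _ hl0q hzq]
    ring
  · have := n1core hl hp hZ hpos f d k l0 a z 1 a' hf hd hk hl0 ha hz one_pos hb0 hf' hd' hk' hl0'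
      ha' hz' h1p hbp h h1 (by exact_mod_cast hgt)
    rw [Nat.cast_one, one_mul, hP.one] at this
    linarith

end Pool.Agent.QGC
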