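import Pool.Agent.QGC.BD

/-!
# QGC-BdA: `t ↦ A t (1 - t)` is a five-term function

For an alternating bilinear function `A` on the nonzero rationals, `t ↦ A t (1 - t)` satisfies the
five-term relation and the inversion relations (direct expansion); sums of alternating functions
and differences of five-term functions are again such.
-/

set_option autoImplicit false

namespace Pool.Agent.QGC

lemma dA_of {A : ℚ → ℚ → ℚ} {t : ℚ} (h0 : t ≠ 0) (h1 : t ≠ 1) : dA A t = A t (1 - t) := by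
  rw [dA, if_neg]
  rintro (h | h)
  · exact h0 h
  · exact h1 h

private lemma bdA_divL {A : ℚ → ℚ → ℚ} (hA : IsAlt A) {x y z : ℚ} (hx : x ≠ 0) (hy : y ≠ 0)
    (hz : z ≠ 0) : A (x / y) z = A x z - A y z := (hA.left z hz).div hx hy

private lemma bdA_mulL {A : ℚ → ℚ → ℚ} (hA : IsAlt A) {x y z : ℚ} (hx : x ≠ 0) (hy : y ≠ 0)
    (hz : z ≠ 0) : A (x * y) z = A x z + A y z := (hA.left z hz) x y hx hy

private lemma bdA_divR {A : ℚ → ℚ → ℚ} (hA : IsAlt A) {x y z : ℚ} (hx : x ≠ 0) (hy : y ≠ 0)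
    (hz : z ≠ 0) : A z (x / y) = A z x - A z y := (hA.right z hz).div hx hy

private lemma bdA_mulR {A : ℚ → ℚ → ℚ} (hA : IsAlt A) {x y z : ℚ} (hx : x ≠ 0) (hy : y ≠ 0)
    (hz : z ≠ 0) : A z (x * y) = A z x + A z y := (hA.right z hz) x y hx hy

/-- `t ↦ A t (1 - t)` is a five-term function. -/
theorem five_dA {A : ℚ → ℚ → ℚ} (hA : IsAlt A) : Five (dA A) where
  one := by rw [dA, if_pos (Or.inr rfl)]
  sub := by
    intro x h0 h1
    have h2 : (1 : ℚ) - x ≠ 0 := sub_ne_zero.2 (Ne.symm h1)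
    have h3 : (1 : ℚ) - x ≠ 1 := by
      intro h
      apply h0
      linarith
    rw [dA_of h2 h3, dA_of h0 h1, sub_sub_cancel, hA.swap h0 h2]
  inv := by
    intro x h0 h1
    have h2 : (1 : ℚ) - x ≠ 0 := sub_ne_zero.2 (Ne.symm h1)
    have h4 : x⁻¹ ≠ 1 := by
      intro h
      exact h1 (inv_eq_one.1 h)
    have h5 : (1 : ℚ) - x⁻¹ = -((1 - x) / x) := by field_simp; ring
    rw [dA_of (inv_ne_zero h0) h4, dA_of h0 h1, h5, (hA.right _ (inv_ne_zero h0)).neg,
      bdA_divR hA h2 h0 (inv_ne_zero h0)]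
    have e1 : A x⁻¹ (1 - x) = - A x (1 - x) := (hA.left _ h2).inv h0
    have e2 : A x⁻¹ x = - A x x := (hA.left _ h0).inv h0
    rw [e1, e2, hA.self x h0]
    ring
  five := by
    intro x y hx0 hx1 hy0 hy1 hxy
    have hp : (1 : ℚ) - x ≠ 0 := sub_ne_zero.2 (Ne.symm hx1)
    have hq : (1 : ℚ) - y ≠ 0 := sub_ne_zero.2 (Ne.symm hy1)
    have hd : x - y ≠ 0 := sub_ne_zero.2 hxy
    have a0 : y / x ≠ 0 := div_ne_zero hy0 hx0
    have a1 : y / x ≠ 1 := by
      intro h
      rw [div_eq_one_iff_eq hx0] at h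
      exact hxy h.symm
    have a2 : 1 - y / x = (x - y) / x := by field_simp
    have hi : (1 : ℚ) - y⁻¹ ≠ 0 := by
      intro h
      apply hy1
      have h' : y⁻¹ = 1 := by linarith
      exact inv_eq_one.1 h'
    have b : (1 - x⁻¹) / (1 - y⁻¹) = (y * (1 - x)) / (x * (1 - y)) := by
      have e1 : (1 : ℚ) - x⁻¹ = -(1 - x) / x := by field_simp; ring
      have e2 : (1 : ℚ) - y⁻¹ = -(1 - y) / y := by field_simp; ring
      rw [e1, e2]
      field_simp
    have b0 : (y * (1 - x)) / (x * (1 - y)) ≠ 0 :=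
      div_ne_zero (mul_ne_zero hy0 hp) (mul_ne_zero hx0 hq)
    have b2 : 1 - (y * (1 - x)) / (x * (1 - y)) = (x - y) / (x * (1 - y)) := by
      rw [eq_div_iff (mul_ne_zero hx0 hq), sub_mul, div_mul_cancel₀ _ (mul_ne_zero hx0 hq)]
      ring
    have b1 : (y * (1 - x)) / (x * (1 - y)) ≠ 1 := by
      intro h
      rw [h, sub_self] at b2
      exact (div_ne_zero hd (mul_ne_zero hx0 hq)) b2.symm
    have c0 : (1 - x) / (1 - y) ≠ 0 := div_ne_zero hp hq
    have c2 : 1 - (1 - x) / (1 - y) = (x - y) / (1 - y) := by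
      rw [eq_div_iff hq, sub_mul, div_mul_cancel₀ _ hq]
      ring
    have c1 : (1 - x) / (1 - y) ≠ 1 := by
      intro h
      rw [h, sub_self] at c2
      exact (div_ne_zero hd hq) c2.symm
    rw [b, dA_of hx0 hx1, dA_of hy0 hy1, dA_of a0 a1, dA_of b0 b1, dA_of c0 c1, a2, b2, c2]
    have hxq := mul_ne_zero hx0 hq
    have hyp := mul_ne_zero hy0 hp
    rw [bdA_divR hA hd hx0 a0, bdA_divR hA hd hxq b0, bdA_divR hA hd hq c0]
    rw [bdA_mulR hA hx0 hq b0]
    rw [bdA_divL hA hy0 hx0 hd, bdA_divL hA hy0 hx0 hx0]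
    rw [bdA_divL hA hyp hxq hd, bdA_divL hA hyp hxq hx0, bdA_divL hA hyp hxq hq]
    rw [bdA_mulL hA hy0 hp hd, bdA_mulL hA hy0 hp hx0, bdA_mulL hA hy0 hp hq]
    rw [bdA_mulL hA hx0 hq hd, bdA_mulL hA hx0 hq hx0, bdA_mulL hA hx0 hq hq]
    rw [bdA_divL hA hp hq hd, bdA_divL hA hp hq hq]
    have s1 := hA.self x hx0
    have s2 := hA.self (1 - y) hq
    have s3 := hA.swap hx0 hp
    have s4 := hA.swap hx0 hq
    linarith

/-- differences of five-term functions. -/
theorem Five.sub_five {l m : ℚ → ℚ} (hl : Five l) (hm : Five m) : Five (fun t => l t - m t) where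
  one := by simp only [hl.one, hm.one, sub_zero]
  sub := by
    intro x h0 h1
    have e1 := hl.sub x h0 h1
    have e2 := hm.sub x h0 h1
    simp only [e1, e2]
    ring
  inv := by
    intro x h0 h1
    have e1 := hl.inv x h0 h1
    have e2 := hm.inv x h0 h1
    simp only [e1, e2]
    ring
  five := by
    intro x y hx0 hx1 hy0 hy1 hxy
    have e1 := hl.five x y hx0 hx1 hy0 hy1 hxy
    have e2 := hm.five x y hx0 hx1 hy0 hy1 hxy
    linarith

/-- sums of alternating functions. -/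
theorem IsAlt.add {A B : ℚ → ℚ → ℚ} (hA : IsAlt A) (hB : IsAlt B) :
    IsAlt (fun x y => A x y + B x y) where
  left := by
    intro z hz x y hx hy
    have e1 := hA.left z hz x y hx hy
    have e2 := hB.left z hz x y hx hy
    simp only at e1 e2 ⊢
    linarith
  right := by
    intro z hz x y hx hy
    have e1 := hA.right z hz x y hx hy
    have e2 := hB.right z hz x y hx hy
    simp only at e1 e2 ⊢
    linarith
  self := by
    intro x hx
    simp only [hA.self x hx, hB.self x hx, add_zero]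

theorem dA_add (A B : ℚ → ℚ → ℚ) (t : ℚ) :
    dA (fun x y => A x y + B x y) t = dA A t + dA B t := by
  unfold dA
  split_ifs <;> simp

end Pool.Agent.QGC
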