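import Mathlib

/-!
# Additive, alternating and five-term functions on the rationals

`IsLog f`: `f` is additive on the multiplicative group of nonzero rationals.  `IsAlt A`: `A` is
additive in each variable and alternating.  `Five l`: `l` satisfies the five-term relation and the
inversion relations.  `Sm X x`: all prime factors of the nonzero rational `x` are `< X`.
-/

set_option autoImplicit false

namespace Pool.Agent.QGC

/-- `f` is additive on the nonzero rationals. -/
def IsLog (f : ℚ → ℚ) : Prop := ∀ x y : ℚ, x ≠ 0 → y ≠ 0 → f (x * y) = f x + f y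

/-- `A` is additive in each variable and alternating. -/
structure IsAlt (A : ℚ → ℚ → ℚ) : Prop where
  left : ∀ y : ℚ, y ≠ 0 → IsLog (fun x => A x y)
  right : ∀ x : ℚ, x ≠ 0 → IsLog (A x)
  self : ∀ x : ℚ, x ≠ 0 → A x x = 0

/-- `l` satisfies the five-term relation and the inversion relations. -/
structure Five (l : ℚ → ℚ) : Prop where
  one : l 1 = 0
  sub : ∀ x : ℚ, x ≠ 0 → x ≠ 1 → l (1 - x) = - l x
  inv : ∀ x : ℚ, x ≠ 0 → x ≠ 1 → l x⁻¹ = - l x
  five : ∀ x y : ℚ, x ≠ 0 → x ≠ 1 → y ≠ 0 → y ≠ 1 → x ≠ y →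
    l x - l y + l (y / x) - l ((1 - x⁻¹) / (1 - y⁻¹)) + l ((1 - x) / (1 - y)) = 0

/-- `x ≠ 0` and all prime factors of `x` are `< X`. -/
def Sm (X : ℕ) (x : ℚ) : Prop := x ≠ 0 ∧ ∀ q : ℕ, q.Prime → X ≤ q → padicValRat q x = 0

namespace IsLog

variable {f : ℚ → ℚ}

lemma one (h : IsLog f) : f 1 = 0 := by
  have := h 1 1 one_ne_zero one_ne_zero
  rw [mul_one] at this
  linarith

lemma neg_one (h : IsLog f) : f (-1) = 0 := by
  have := h (-1) (-1) (by norm_num) (by norm_num)
  have h1 : ((-1 : ℚ) * (-1)) = 1 := by norm_num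
  rw [h1, h.one] at this
  linarith

lemma neg (h : IsLog f) (x : ℚ) : f (-x) = f x := by
  rcases eq_or_ne x 0 with rfl | hx
  · rw [neg_zero]
  · have := h (-1) x (by norm_num) hx
    rw [h.neg_one, neg_one_mul] at this
    rw [this, zero_add]

lemma inv (h : IsLog f) {x : ℚ} (hx : x ≠ 0) : f x⁻¹ = - f x := by
  have := h x x⁻¹ hx (inv_ne_zero hx)
  rw [mul_inv_cancel₀ hx, h.one] at this
  linarith

lemma div (h : IsLog f) {x y : ℚ} (hx : x ≠ 0) (hy : y ≠ 0) : f (x / y) = f x - f y := by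
  rw [div_eq_mul_inv, h x y⁻¹ hx (inv_ne_zero hy), h.inv hy]
  ring

lemma mul (h : IsLog f) {x y : ℚ} (hx : x ≠ 0) (hy : y ≠ 0) : f (x * y) = f x + f y := h x y hx hy

/-- A log function which vanishes at the primes `< X` vanishes at the positive integers with all
prime factors `< X`. -/
lemma nat_eq_zero (h : IsLog f) {X : ℕ} (hf : ∀ q : ℕ, q.Prime → q < X → f q = 0) :
    ∀ m : ℕ, m ≠ 0 → (∀ q : ℕ, q.Prime → q ∣ m → q < X) → f m = 0 := by
  intro m
  induction m using Nat.recOnMul with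
  | zero => intro h0; exact absurd rfl h0
  | one => intro _ _; exact_mod_cast h.one
  | prime p hp => intro _ hq; exact hf p hp (hq p hp dvd_rfl)
  | mul a b ha hb =>
    intro h0 hq
    have ha0 : a ≠ 0 := fun h => h0 (by rw [h, zero_mul])
    have hb0 : b ≠ 0 := fun h => h0 (by rw [h, mul_zero])
    have h1 := ha ha0 (fun q hp hd => hq q hp (hd.mul_right b))
    have h2 := hb hb0 (fun q hp hd => hq q hp (hd.mul_left a))
    rw [Nat.cast_mul, h a b (by exact_mod_cast ha0) (by exact_mod_cast hb0), h1, h2, add_zero]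

/-- A log function which vanishes at the primes `< X` vanishes on `Sm X`. -/
lemma sm_eq_zero (h : IsLog f) {X : ℕ} (hf : ∀ q : ℕ, q.Prime → q < X → f q = 0) {x : ℚ}
    (hx : Sm X x) : f x = 0 := by
  have hx0 := hx.1
  have hnum : x.num.natAbs ≠ 0 := by
    rw [Int.natAbs_ne_zero]; exact Rat.num_ne_zero.2 hx0
  have hq : ∀ q : ℕ, q.Prime → (q ∣ x.num.natAbs ∨ q ∣ x.den) → q < X := by
    intro q hp hd
    by_contra hlt
    have h0 := hx.2 q hp (not_lt.1 hlt)
    have := Fact.mk hp
    rw [padicValRat] at h0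
    have hcop := x.reduced
    rcases hd with hd | hd
    · have h1 : padicValNat q x.den = 0 := by
        apply padicValNat.eq_zero_of_not_dvd
        intro h2
        exact hp.one_lt.ne' (Nat.eq_one_of_dvd_coprimes hcop hd h2)
      have h3 : 1 ≤ padicValNat q x.num.natAbs :=
        one_le_padicValNat_of_dvd hnum hd
      rw [padicValInt, h1] at h0
      omega
    · have h1 : padicValNat q x.num.natAbs = 0 := by
        apply padicValNat.eq_zero_of_not_dvd
        intro h2
        exact hp.one_lt.ne' (Nat.eq_one_of_dvd_coprimes hcop h2 hd)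
      have h3 : 1 ≤ padicValNat q x.den :=
        one_le_padicValNat_of_dvd x.den_nz hd
      rw [padicValInt, h1] at h0
      omega
  have h1 := h.nat_eq_zero hf x.num.natAbs hnum (fun q hp hd => hq q hp (Or.inl hd))
  have h2 := h.nat_eq_zero hf x.den x.den_nz (fun q hp hd => hq q hp (Or.inr hd))
  have h3 : f (x.num : ℚ) = 0 := by
    rcases Int.natAbs_eq x.num with h4 | h4
    · have h5 : (x.num : ℚ) = ((x.num.natAbs : ℕ) : ℚ) := by
        have := congrArg (fun z : ℤ => (z : ℚ)) h4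
        simpa only [Int.cast_natCast] using this
      rw [h5]; exact h1
    · have h5 : (x.num : ℚ) = -((x.num.natAbs : ℕ) : ℚ) := by
        have := congrArg (fun z : ℤ => (z : ℚ)) h4
        simpa only [Int.cast_neg, Int.cast_natCast] using this
      rw [h5, h.neg]; exact h1
  rw [← Rat.num_div_den x, h.div (by exact_mod_cast Rat.num_ne_zero.2 hx0)
    (by exact_mod_cast x.den_nz), h3, h2, sub_zero]

end IsLog

namespace Sm

variable {X : ℕ} {x y : ℚ}

lemma ne_zero (h : Sm X x) : x ≠ 0 := h.1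

lemma mul (hx : Sm X x) (hy : Sm X y) : Sm X (x * y) :=
  ⟨mul_ne_zero hx.1 hy.1, fun q hq hX => by
    have := Fact.mk hq
    rw [padicValRat.mul hx.1 hy.1, hx.2 q hq hX, hy.2 q hq hX, add_zero]⟩

lemma inv (hx : Sm X x) : Sm X x⁻¹ :=
  ⟨inv_ne_zero hx.1, fun q hq hX => by
    have := Fact.mk hq
    rw [padicValRat.inv, hx.2 q hq hX, neg_zero]⟩

lemma div (hx : Sm X x) (hy : Sm X y) : Sm X (x / y) := by
  rw [div_eq_mul_inv]; exact hx.mul hy.inv

lemma neg (hx : Sm X x) : Sm X (-x) :=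
  ⟨neg_ne_zero.2 hx.1, fun q hq hX => by rw [padicValRat.neg, hx.2 q hq hX]⟩

lemma one (X : ℕ) : Sm X 1 := ⟨one_ne_zero, fun _ _ _ => padicValRat.one⟩

lemma mono {Y : ℕ} (h : X ≤ Y) (hx : Sm X x) : Sm Y x :=
  ⟨hx.1, fun q hq hY => hx.2 q hq (h.trans hY)⟩

/-- Nonzero integers of absolute value `< X`. -/
lemma int {m : ℤ} (h0 : m ≠ 0) (h : m.natAbs < X) : Sm X m := by
  refine ⟨by exact_mod_cast h0, fun q hq hX => ?_⟩
  have := Fact.mk hq
  rw [padicValRat.of_int, padicValInt]
  have : padicValNat q m.natAbs = 0 := by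
    apply padicValNat.eq_zero_of_not_dvd
    intro h2
    have := Nat.le_of_dvd (Int.natAbs_pos.2 h0) h2
    omega
  rw [this]; rfl

/-- Nonzero natural numbers `< X`. -/
lemma nat {m : ℕ} (h0 : m ≠ 0) (h : m < X) : Sm X m := by
  have := Sm.int (X := X) (m := (m : ℤ)) (by exact_mod_cast h0) (by simpa using h)
  simpa using this

end Sm

namespace IsAlt

variable {A : ℚ → ℚ → ℚ}

lemma swap (h : IsAlt A) {x y : ℚ} (hx : x ≠ 0) (hy : y ≠ 0) : A y x = - A x y := by
  have hxy := mul_ne_zero hx hy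
  have h1 := h.self (x * y) hxy
  have h2 := h.left (x * y) hxy x y hx hy
  have h3 := h.right x hx x y hx hy
  have h4 := h.right y hy x y hx hy
  simp only at h2
  rw [h.self x hx] at h3
  rw [h.self y hy] at h4
  rw [h2, h3, h4] at h1
  linarith

end IsAlt

end Pool.Agent.QGC
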