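import Pool.Agent.QGC.Glu
import Pool.Agent.QGC.Defs

set_option autoImplicit false

/-!
# Assembly over `ℚ`

From the statements on additive, alternating and five-term functions of rational numbers to
`H^n(Γ(ℚ, n) ⊗ ℚ) = H^{n-1}(Γ(ℚ, n) ⊗ ℚ) = 0` for `n ≥ 2`.
-/

namespace QGC

open scoped TensorProduct
open TensorProduct Pool.Agent.Helper91.Gon
open Helper14.Gon (P1 ZP br MU LM lgm elx ely BB CC TT clb gn tp dd dl RR br_zero_mem br_inf_mem)
open Helper14.Loc (HC HT ZC BC BT)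
open Pool.Agent.QGC (IsLog IsAlt Five)

universe u

section field

variable {F : Type u} [Field F]

private theorem bim_swap {A : Fˣ → Fˣ → ℚ} (hA : Bim F A) (h0 : ∀ x, A x x = 0) (x y : Fˣ) :
    A x y + A y x = 0 := by
  have h := h0 (x * y)
  rw [hA.m1, hA.m2, hA.m2, h0, h0] at h
  linarith

/-- An alternating function gives a functional on `Λ²`. -/
theorem exists_fun {A : Fˣ → Fˣ → ℚ} (hA : Bim F A) (h0 : ∀ x, A x x = 0) :
    ∃ ψ : Lam (Glue.Vq F) 2 →ₗ[ℚ] ℚ, ∀ x y, ψ (ww (Glue.Vq F) (lq x) (lq y)) = A x y := by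
  let B1 : Fˣ → (Glue.Vq F →ₗ[ℚ] ℚ) := fun x =>
    BC.ext1 (AddMonoidHom.mk' (fun m : Additive Fˣ => A x (Additive.toMul m))
      (fun a b => hA.m2 _ _ _))
  have hB1 : ∀ x y, B1 x (lq y) = A x y := by
    intro x y
    have := BC.ext1_tmul (AddMonoidHom.mk' (fun m : Additive Fˣ => A x (Additive.toMul m))
      (fun a b => hA.m2 _ _ _)) 1 (Additive.ofMul y)
    rw [one_smul] at this
    exact this
  let B2 : Glue.Vq F →ₗ[ℚ] (Glue.Vq F →ₗ[ℚ] ℚ) :=
    BC.ext1 (AddMonoidHom.mk' (fun m : Additive Fˣ => B1 (Additive.toMul m)) (by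
      intro a b
      refine vq_ext fun y => ?_
      rw [LinearMap.add_apply, hB1, hB1, hB1]
      exact hA.m1 _ _ _))
  have hB : ∀ x y, B2 (lq x) (lq y) = A x y := by
    intro x y
    have : B2 (lq x) = (1 : ℚ) • B1 x := rfl
    rw [this, one_smul, hB1]
  have hB3 : B2 + B2.flip = 0 := by
    refine vq_ext fun x => vq_ext fun y => ?_
    rw [LinearMap.add_apply, LinearMap.add_apply, LinearMap.flip_apply, hB, hB]
    exact bim_swap hA h0 x y
  have hB0 : ∀ v, B2 v v = 0 := by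
    intro v
    have h := LinearMap.congr_fun (LinearMap.congr_fun hB3 v) v
    rw [LinearMap.add_apply, LinearMap.add_apply, LinearMap.flip_apply] at h
    have h1 : B2 v v + B2 v v = 0 := h
    linarith
  refine ⟨lift2 B2 hB0, fun x y => ?_⟩
  exact (lift2_w2 B2 hB0 (lq x) (lq y)).trans (hB x y)

theorem sq_zero' : (Glue.sq 0 (some (0 : F)) : Glue.Bq 0 F) = 0 := by
  have h : (clb 0 (some (0 : F)) : BB 0 F) = 0 :=
    (QuotientAddGroup.eq_zero_iff _).2 (br_zero_mem (F := F) 1)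
  rw [Glue.sq, h, TensorProduct.tmul_zero]

theorem sq_inf' : (Glue.sq 0 (none : P1 F) : Glue.Bq 0 F) = 0 := by
  have h : (clb 0 (none : P1 F) : BB 0 F) = 0 :=
    (QuotientAddGroup.eq_zero_iff _).2 (br_inf_mem (F := F) 1)
  rw [Glue.sq, h, TensorProduct.tmul_zero]

/-- Injectivity of `δ_2` from the local structure of five-term functions. -/
theorem inj_d2q (hB : ∀ (φ : Glue.Bq 0 F →ₗ[ℚ] ℚ) (S : Finset F),
      φ (Glue.sq 0 (some (1 : F))) = 0 ∧
      ((∀ t ∈ S, t ≠ 0 ∧ t ≠ 1) → ∃ A : Fˣ → Fˣ → ℚ, Bim F A ∧ (∀ x, A x x = 0) ∧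
        ∀ x y : Fˣ, (x : F) ∈ S → (x : F) + y = 1 → φ (Glue.sq 0 (some (x : F))) = A x y)) :
    Function.Injective (Glue.d2q : Glue.Bq 0 F →ₗ[ℚ] _) := by
  classical
  rw [← LinearMap.ker_eq_bot, LinearMap.ker_eq_bot']
  intro z hz
  refine (Module.forall_dual_apply_eq_zero_iff ℚ z).1 fun φ => ?_
  have hz1 : z ∈ Submodule.span ℚ (Set.range (Glue.sq 0 : P1 F → Glue.Bq 0 F)) := by
    rw [Glue.sq_span]
    exact Submodule.mem_top
  obtain ⟨c, hc⟩ := Finsupp.mem_span_range_iff_exists_finsupp.1 hz1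
  let S : Finset F := (c.support.image (fun x : P1 F => Option.getD x 0)).filter
    (fun t => t ≠ 0 ∧ t ≠ 1)
  obtain ⟨h1, h2⟩ := hB φ S
  obtain ⟨A, hA, hA0, hAφ⟩ := h2 (fun t ht => (Finset.mem_filter.1 ht).2)
  obtain ⟨ψ, hψ⟩ := exists_fun hA hA0
  have key : ∀ x ∈ c.support, φ (Glue.sq 0 x) = - ψ (Glue.d2q (Glue.sq 0 x)) := by
    intro x hx
    rcases x with _ | t
    · have h3 : (Glue.sq 0 (Option.none : P1 F) : Glue.Bq 0 F) = 0 := sq_inf'
      rw [h3, map_zero, map_zero, map_zero, neg_zero]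
    · by_cases ht0 : t = 0
      · subst ht0
        have h3 : (Glue.sq 0 (Option.some (0 : F)) : Glue.Bq 0 F) = 0 := sq_zero'
        rw [h3, map_zero, map_zero, map_zero, neg_zero]
      · by_cases ht1 : t = 1
        · subst ht1
          have h3 : φ (Glue.sq 0 (Option.some (1 : F))) = 0 := h1
          have h4 : Glue.aq (Option.some (1 : F)) = lq (1 : Fˣ) := aq_eq (1 : Fˣ)
          have h5 : (lq (1 : Fˣ) : Glue.Vq F) = 0 := by
            have := lq_mul (1 : Fˣ) 1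
            rw [mul_one] at this
            exact left_eq_add.mp this
          rw [h3, Glue.d2q_sq, h4, h5, map_zero, map_zero, neg_zero]
        · have hne : 1 - t ≠ 0 := sub_ne_zero.2 (Ne.symm ht1)
          let a : Fˣ := Units.mk0 t ht0
          let b : Fˣ := Units.mk0 (1 - t) hne
          have hab : (a : F) + b = 1 := by
            change t + (1 - t) = 1
            ring
          have hba : (b : F) + a = 1 := by
            rw [add_comm]
            exact hab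
          have hS : (a : F) ∈ S := by
            refine Finset.mem_filter.2 ⟨Finset.mem_image.2 ⟨_, hx, rfl⟩, ht0, ht1⟩
          have h3 : φ (Glue.sq 0 (Option.some t)) = A a b := hAφ a b hS hab
          have h4 : Glue.d2q (Glue.sq 0 (Option.some t)) = ww (Glue.Vq F) (lq b) (lq a) := by
            rw [Glue.d2q_sq]
            have h5 : Glue.aq (Option.some t) = lq a := aq_eq a
            have h6 : Glue.bq (Option.some t) = lq b := bq_eq hba
            rw [h5, h6]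
          rw [h3, h4, hψ]
          have := bim_swap hA hA0 a b
          linarith
  have h3 : φ z = - ψ (Glue.d2q z) := by
    rw [← hc, Finsupp.sum, map_sum, map_sum, map_sum, ← Finset.sum_neg_distrib]
    refine Finset.sum_congr rfl fun x hx => ?_
    rw [map_smul, map_smul, map_smul, key x hx, smul_neg]
  rw [h3, hz, map_zero, neg_zero]

/-- injectivity for the form used in the glue -/
theorem inj_dl (h : Function.Injective (Glue.d2q : Glue.Bq 0 F →ₗ[ℚ] _)) :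
    Function.Injective (dl 0 F) := by
  have h1 : (dl 0 F : CC 0 0 F → TT 2 F) =
      fun z => (Glue.Psi 2 F).symm (Glue.d2q ((Glue.eps (Glue.Bq 0 F) (Glue.Vq F)).symm
        (Glue.Phi 0 0 F z))) := by
    funext z
    rw [Glue.d2q, LinearMap.comp_apply, LinearMap.comp_apply, LinearMap.comp_apply,
      LinearEquiv.coe_coe, LinearEquiv.coe_coe, LinearEquiv.coe_coe,
      LinearEquiv.apply_symm_apply, LinearEquiv.symm_apply_apply, LinearEquiv.symm_apply_apply]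
  rw [h1]
  exact (LinearEquiv.injective _).comp (h.comp ((LinearEquiv.injective _).comp
    (LinearEquiv.injective _)))

end field

section rat

/-- From a function on units to a function on `ℚ`. -/
noncomputable def uq (x : ℚ) : ℚˣ := if h : x = 0 then 1 else Units.mk0 x h

theorem uq_coe (x : ℚˣ) : uq (x : ℚ) = x := by
  rw [uq, dif_neg x.ne_zero]
  ext
  rfl

theorem coe_uq {x : ℚ} (hx : x ≠ 0) : ((uq x : ℚˣ) : ℚ) = x := by
  rw [uq, dif_neg hx]
  rfl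

theorem uq_mul {x y : ℚ} (hx : x ≠ 0) (hy : y ≠ 0) : uq (x * y) = uq x * uq y := by
  ext
  rw [coe_uq (mul_ne_zero hx hy), Units.val_mul, coe_uq hx, coe_uq hy]

/-- `HypA ℚ` from the statement for functions on `ℚ`. -/
theorem hypA (hook : ∀ T : ℚ → ℚ → ℚ → ℚ,
      (∀ y z : ℚ, y ≠ 0 → z ≠ 0 → IsLog (fun x => T x y z)) →
      (∀ x z : ℚ, x ≠ 0 → z ≠ 0 → IsLog (fun y => T x y z)) →
      (∀ x y : ℚ, x ≠ 0 → y ≠ 0 → IsLog (T x y)) →
      (∀ x z : ℚ, x ≠ 0 → z ≠ 0 → T x x z = 0) →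
      (∀ t : ℚ, t ≠ 0 → t ≠ 1 → T (1 - t) t t = 0) →
      ∀ u v : ℚ, u ≠ 0 → v ≠ 0 → T u v v = 0) : HypA ℚ := by
  intro T hT h1 h2 x y
  have h := hook (fun a b c => T (uq a) (uq b) (uq c))
    (fun b c hb hc a a' ha ha' => by simp only [uq_mul ha ha']; exact hT.m1 _ _ _ _)
    (fun a c ha hc b b' hb hb' => by simp only [uq_mul hb hb']; exact hT.m2 _ _ _ _)
    (fun a b ha hb c c' hc hc' => by simp only [uq_mul hc hc']; exact hT.m3 _ _ _ _)
    (fun a c ha hc => h1 _ _)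
    (fun t ht0 ht1 => h2 _ _ (by
      rw [coe_uq ht0, coe_uq (sub_ne_zero.2 (Ne.symm ht1))]
      ring)) x y x.ne_zero y.ne_zero
  simpa only [uq_coe] using h

/-- `HypK ℚ` from the statement for functions on `ℚ`. -/
theorem hypK (tate : ∀ A : ℚ → ℚ → ℚ, IsAlt A → (∀ t : ℚ, t ≠ 0 → t ≠ 1 → A t (1 - t) = 0) →
      ∀ x y : ℚ, x ≠ 0 → y ≠ 0 → A x y = 0) : HypK ℚ := by
  intro T hT h1 x y
  have hl : ∀ b : ℚ, IsLog (fun a => T (uq a) (uq b)) := fun b a a' ha ha' => by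
    simp only [uq_mul ha ha']
    exact hT.m1 _ _ _
  have hr : ∀ a : ℚ, IsLog (fun b => T (uq a) (uq b)) := fun a b b' hb hb' => by
    simp only [uq_mul hb hb']
    exact hT.m2 _ _ _
  have hst : ∀ t : ℚ, t ≠ 0 → t ≠ 1 → T (uq t) (uq (1 - t)) = 0 := fun t ht0 ht1 =>
    h1 _ _ (by
      rw [coe_uq ht0, coe_uq (sub_ne_zero.2 (Ne.symm ht1))]
      ring)
  have hself : ∀ a : ℚ, a ≠ 0 → T (uq a) (uq a) = 0 := by
    intro a ha
    by_cases ha1 : a = 1
    · rw [ha1]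
      exact (hl 1).one
    · have ha2 : a⁻¹ ≠ 1 := fun h => ha1 (inv_eq_one.1 h)
      have h2 := hst a ha ha1
      have h3 := hst a⁻¹ (inv_ne_zero ha) ha2
      have h4 : (1 : ℚ) - a⁻¹ = - ((1 - a) / a) := by
        field_simp
        ring
      have hne : (1 : ℚ) - a ≠ 0 := sub_ne_zero.2 (Ne.symm ha1)
      have h5 : T (uq a⁻¹) (uq (1 - a⁻¹)) = - T (uq a) (uq (1 - a⁻¹)) := (hl (1 - a⁻¹)).inv ha
      rw [h5, h4] at h3
      have h6 : T (uq a) (uq (-((1 - a) / a))) = T (uq a) (uq ((1 - a) / a)) :=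
        (hr a).neg ((1 - a) / a)
      have h7 : T (uq a) (uq ((1 - a) / a)) = T (uq a) (uq (1 - a)) - T (uq a) (uq a) :=
        (hr a).div hne ha
      rw [h6, h7, h2] at h3
      linarith
  have h := tate (fun a b => T (uq a) (uq b))
    ⟨fun b hb => hl b, fun a ha => hr a, hself⟩ hst x y x.ne_zero y.ne_zero
  simpa only [uq_coe] using h

/-- Injectivity of `δ_2` over `ℚ` from the statement on five-term functions. -/
theorem hypB
    (flib : ∀ φ : Glue.Bq 0 ℚ →ₗ[ℚ] ℚ, Five (fun x : ℚ => φ (Glue.sq 0 (some x))))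
    (hB : ∀ l : ℚ → ℚ, Five l → ∀ S : Finset ℚ, (∀ t ∈ S, t ≠ 0 ∧ t ≠ 1) →
      ∃ A : ℚ → ℚ → ℚ, IsAlt A ∧ ∀ t ∈ S, l t = A t (1 - t)) :
    Function.Injective (dl 0 ℚ) := by
  refine inj_dl (inj_d2q fun φ S => ⟨(flib φ).one, fun hS => ?_⟩)
  obtain ⟨A, hA, hAS⟩ := hB _ (flib φ) S hS
  refine ⟨fun x y => A x y, ⟨fun x x' y => ?_, fun x y y' => ?_⟩, fun x => hA.self _ x.ne_zero,
    fun x y hx hxy => ?_⟩
  · rw [Units.val_mul]
    exact hA.left _ y.ne_zero _ _ x.ne_zero x'.ne_zero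
  · rw [Units.val_mul]
    exact hA.right _ x.ne_zero _ _ y.ne_zero y'.ne_zero
  · rw [hAS _ hx]
    congr 1
    rw [← hxy]
    ring

/-- **The assembly over `ℚ`.** -/
theorem fin_rat
    (flib : ∀ φ : Glue.Bq 0 ℚ →ₗ[ℚ] ℚ, Five (fun x : ℚ => φ (Glue.sq 0 (some x))))
    (hB : ∀ l : ℚ → ℚ, Five l → ∀ S : Finset ℚ, (∀ t ∈ S, t ≠ 0 ∧ t ≠ 1) →
      ∃ A : ℚ → ℚ → ℚ, IsAlt A ∧ ∀ t ∈ S, l t = A t (1 - t))
    (tate : ∀ A : ℚ → ℚ → ℚ, IsAlt A → (∀ t : ℚ, t ≠ 0 → t ≠ 1 → A t (1 - t) = 0) →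
      ∀ x y : ℚ, x ≠ 0 → y ≠ 0 → A x y = 0)
    (hook : ∀ T : ℚ → ℚ → ℚ → ℚ,
      (∀ y z : ℚ, y ≠ 0 → z ≠ 0 → IsLog (fun x => T x y z)) →
      (∀ x z : ℚ, x ≠ 0 → z ≠ 0 → IsLog (fun y => T x y z)) →
      (∀ x y : ℚ, x ≠ 0 → y ≠ 0 → IsLog (T x y)) →
      (∀ x z : ℚ, x ≠ 0 → z ≠ 0 → T x x z = 0) →
      (∀ t : ℚ, t ≠ 0 → t ≠ 1 → T (1 - t) t t = 0) →
      ∀ u v : ℚ, u ≠ 0 → v ≠ 0 → T u v v = 0) :
    (∀ n : ℕ, 2 ≤ n → Subsingleton (HT ℚ n)) ∧ (∀ j : ℕ, Subsingleton (HC ℚ 0 j)) :=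
  glue (hypB flib hB) (hypK tate) (hypA hook)

end rat

end QGC
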