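import Pool.Agent.Helper91.Gon.Glue
import Pool.Agent.Helper14.Loc.Defs

set_option autoImplicit false

/-!
# Exactness of `Γ(F, n) ⊗ ℚ` in degrees `n - 1`, `n` from two statements on multiplicative functions

If `δ_2` is injective on `B_2(F) ⊗ ℚ`, if a bimultiplicative rational function `T` on `F^*` with
`T (1 - t) t = 0` is zero and if a trimultiplicative one, alternating in the first two variables,
with `T (1 - t) t t = 0` has `T x y y = 0`, then `H^n(Γ(F, n) ⊗ ℚ) = H^{n-1}(Γ(F, n) ⊗ ℚ) = 0`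
for all `n ≥ 2`.
-/

namespace QGC

open scoped TensorProduct
open TensorProduct Pool.Agent.Helper91.Gon
open Helper14.Gon (P1 ZP br MU LM lgm elx ely BB CC TT clb gn tp dd dl)
open Helper14.Loc (HC HT ZC BC BT)

universe u v w

/-- bimultiplicative functions with rational values -/
structure Bim (F : Type u) [Field F] (T : Fˣ → Fˣ → ℚ) : Prop where
  m1 : ∀ x x' y, T (x * x') y = T x y + T x' y
  m2 : ∀ x y y', T x (y * y') = T x y + T x y'

/-- trimultiplicative functions with rational values -/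
structure Trm (F : Type u) [Field F] (T : Fˣ → Fˣ → Fˣ → ℚ) : Prop where
  m1 : ∀ x x' y z, T (x * x') y z = T x y z + T x' y z
  m2 : ∀ x y y' z, T x (y * y') z = T x y z + T x y' z
  m3 : ∀ x y z z', T x y (z * z') = T x y z + T x y z'

/-- the bimultiplicative Steinberg symbols are zero -/
def HypK (F : Type u) [Field F] : Prop :=
  ∀ T : Fˣ → Fˣ → ℚ, Bim F T → (∀ x y : Fˣ, (x : F) + y = 1 → T x y = 0) → ∀ x y, T x y = 0

/-- the weight three analogue -/
def HypA (F : Type u) [Field F] : Prop :=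
  ∀ T : Fˣ → Fˣ → Fˣ → ℚ, Trm F T → (∀ x z, T x x z = 0) →
    (∀ x y : Fˣ, (x : F) + y = 1 → T x y y = 0) → ∀ x y, T x y y = 0

section abs

variable {V : Type u} [AddCommGroup V] [Module ℚ V] {X : Type w} {a b : X → V}
  {B : ℕ → Type v} [∀ n, AddCommGroup (B n)] [∀ n, Module ℚ (B n)]
  {s : ∀ n, X → B n}
  {d2 : B 0 →ₗ[ℚ] Lam V 2}
  {dS : ∀ n, B (n + 1) →ₗ[ℚ] B n ⊗[ℚ] V}

/-- all symbols of weight `m + 2` are in the image -/
def SymB (V : Type u) [AddCommGroup V] [Module ℚ V] {B : ℕ → Type v} [∀ n, AddCommGroup (B n)]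
    [∀ n, Module ℚ (B n)] (d2 : B 0 →ₗ[ℚ] Lam V 2) (dS : ∀ n, B (n + 1) →ₗ[ℚ] B n ⊗[ℚ] V)
    (m : ℕ) : Prop :=
  ∀ u v : V, ∃ y, Abs.kap (polyModel V) d2 dS m y = ((polyModel V).l v ^ m) ⊗ₜ[ℚ] ww V u v

theorem kapL_surj (m j : ℕ) (h0 : SymB V d2 dS m)
    {x : PolyRing V ⊗[ℚ] (V ⊗[ℚ] Lam V j)}
    (hx : x ∈ (polyModel V).KK (m + 1) (V ⊗[ℚ] Lam V j)) :
    ∃ z : B m ⊗[ℚ] Lam V j, Abs.kapL (polyModel V) d2 dS m j z =
      (polyModel V).Dop (ext11 V j) x := by
  have h : (polyModel V).Dop (ext11 V j) x ∈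
      LinearMap.range (Abs.kapL (polyModel V) d2 dS m j) := by
    refine (polyModel V).KK_map_le
      (N := LinearMap.range (Abs.kapL (polyModel V) d2 dS m j)) (fun v y => ?_) hx
    rw [PolyModel.Dop_pow]
    apply Submodule.smul_mem
    induction y using TensorProduct.induction_on with
    | zero => simp
    | tmul u ω =>
      obtain ⟨y, hy⟩ := h0 u v
      exact ⟨-(y ⊗ₜ ω), by rw [map_neg, Abs.kapL_tmul_of (polyModel V) m j y _ _ ω hy,
        ext11_tmul, ww_swap v u, TensorProduct.neg_tmul, TensorProduct.tmul_neg]⟩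
    | add a b ha hb =>
      rw [map_add, TensorProduct.tmul_add]
      exact Submodule.add_mem _ ha hb
  exact h

theorem exact_two (hs : ∀ n, Submodule.span ℚ (Set.range (s n)) = ⊤)
    (hd2 : ∀ x, d2 (s 0 x) = ww V (b x) (a x))
    (hdS : ∀ n x, dS n (s (n + 1) x) = s n x ⊗ₜ[ℚ] a x) (id2 : Function.Injective d2)
    (h0 : SymB V d2 dS 1) (j : ℕ) (z : B 0 ⊗[ℚ] Lam V (j + 1))
    (hz : Abs.diff2 d2 (j + 1) z = 0) : ∃ z', Abs.diffS dS 0 j z' = z := by
  obtain ⟨x, hx, hx2⟩ := Abs.kapL_exists hs hd2 hdS (polyModel V) 0 (j + 1) z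
  have h1 := Abs.kapL_diff2 hs hd2 hdS (polyModel V) (j + 1) z
  rw [hz, TensorProduct.tmul_zero, ← hx2] at h1
  obtain ⟨x', hx', h3⟩ := (polyModel V).exact_zero_succ j hx h1
  obtain ⟨z', hz'⟩ := kapL_surj (B := B) (d2 := d2) (dS := dS) 1 j h0 hx'
  have h4 := Abs.kapL_diffS hs hd2 hdS (polyModel V) 0 j z'
  have h5 : Abs.kapL (polyModel V) d2 dS 0 (j + 1) z =
      Abs.kapL (polyModel V) d2 dS 0 (j + 1) (Abs.diffS dS 0 j z') := by
    have h7 : (((0 : ℕ) : ℚ) + 1) = 1 := by norm_num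
    rw [h7, one_smul] at h4
    rw [← h4, hz', ← h3, hx2]
  have h6 : Function.Injective (Abs.kap (polyModel V) d2 dS 0) := by
    rw [← LinearMap.ker_eq_bot, LinearMap.ker_eq_bot']
    intro z hz
    have h1 : d2 z = 0 := Abs.one_tmul_inj (S := PolyRing V) _ hz
    exact id2 (h1.trans (map_zero _).symm)
  have h7 : Function.Injective (Abs.kapL (polyModel V) d2 dS 0 (j + 1)) := by
    rw [Abs.kapL, LinearMap.coe_comp]
    exact (LinearEquiv.injective _).comp
      (Module.Flat.rTensor_preserves_injective_linearMap (M := Lam V (j + 1)) _ h6)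
  exact ⟨z', (h7 h5).symm⟩

theorem surj_2 (h0 : SymB V d2 dS 0) (j : ℕ) : Function.Surjective (Abs.diff2 d2 j) := by
  rw [← LinearMap.range_eq_top, eq_top_iff]
  intro ω _
  refine Abs.Lam_span (j + 2) (LinearMap.range (Abs.diff2 d2 j)) (fun w => ?_) ω
  obtain ⟨y, hy⟩ := h0 (w 0) (w 1)
  have h1 : Abs.kap (polyModel V) d2 dS 0 y = (1 : PolyRing V) ⊗ₜ[ℚ] d2 y := rfl
  rw [h1, pow_zero] at hy
  have h2 : (1 : PolyRing V) ⊗ₜ[ℚ] (d2 y - ww V (w 0) (w 1)) = 0 := by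
    rw [TensorProduct.tmul_sub, hy, sub_self]
  have h3 := sub_eq_zero.mp (Abs.one_tmul_inj (Lam V 2) h2)
  refine ⟨y ⊗ₜ Abs.iota j (fun i => w i.succ.succ), ?_⟩
  rw [Abs.diff2, LinearMap.comp_apply, LinearMap.rTensor_tmul, h3, TensorProduct.lift.tmul,
    wdg2_ww, Abs.wdg_iota, Abs.wdg_iota]
  congr 1
  funext i
  refine Fin.cases ?_ (fun i => ?_) i
  · rfl
  · refine Fin.cases ?_ (fun i => ?_) i
    · rfl
    · rfl

end abs

section field

variable {F : Type u} [Field F]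

/-- `1 ⊗ x` -/
noncomputable def lq (x : Fˣ) : Glue.Vq F := (1 : ℚ) ⊗ₜ[ℤ] Additive.ofMul x

theorem lq_mul (x y : Fˣ) : lq (x * y) = lq x + lq y := by
  rw [lq, ofMul_mul, TensorProduct.tmul_add]
  rfl

theorem vq_ext {M : Type*} [AddCommGroup M] [Module ℚ M] {f g : Glue.Vq F →ₗ[ℚ] M}
    (h : ∀ x : Fˣ, f (lq x) = g (lq x)) : f = g := by
  refine LinearMap.ext fun z => ?_
  induction z using TensorProduct.induction_on with
  | zero => rw [map_zero, map_zero]
  | tmul q b =>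
    have h1 : q ⊗ₜ[ℤ] b = q • (lq (Additive.toMul b) : Glue.Vq F) := by
      rw [lq, TensorProduct.smul_tmul', smul_eq_mul, mul_one]
      rfl
    rw [h1, map_smul, map_smul, h]
  | add a b ha hb => rw [map_add, map_add, ha, hb]

theorem aq_eq (y : Fˣ) : Glue.aq (some (y : F)) = lq y := by
  have : elx (some (y : F)) = Additive.ofMul y := by
    simp only [elx, Option.elim, lgm]
    rw [dif_neg y.ne_zero]
    congr 1
    ext
    rfl
  rw [Glue.aq, this]
  rfl

theorem bq_eq {x y : Fˣ} (h : (x : F) + y = 1) : Glue.bq (some (y : F)) = lq x := by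
  have h3 : (1 : F) - y = x := by
    rw [← h]
    ring
  have : ely (some (y : F)) = Additive.ofMul x := by
    simp only [ely, Option.elim, lgm]
    rw [h3, dif_neg x.ne_zero]
    congr 1
    ext
    rfl
  rw [Glue.bq, this]
  rfl

theorem sym0 (hK : HypK F) : SymB (Glue.Vq F) (B := fun n => Glue.Bq n F) Glue.d2q Glue.dSq 0 := by
  intro u v
  have h : ((polyModel (Glue.Vq F)).l v ^ 0) ⊗ₜ[ℚ] ww (Glue.Vq F) u v ∈
      LinearMap.range (Abs.kap (polyModel (Glue.Vq F)) (B := fun n => Glue.Bq n F)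
        Glue.d2q Glue.dSq 0) := by
    by_contra hmem
    obtain ⟨φ, hφ, hN⟩ := Submodule.exists_le_ker_of_notMem hmem
    apply hφ
    let G : Glue.Vq F →ₗ[ℚ] Glue.Vq F →ₗ[ℚ] ℚ :=
      (ww (Glue.Vq F)).compr₂ (φ ∘ₗ TensorProduct.mk ℚ (PolyRing (Glue.Vq F)) _ 1)
    have hG : ∀ u v, G u v = φ ((1 : PolyRing (Glue.Vq F)) ⊗ₜ[ℚ] ww (Glue.Vq F) u v) :=
      fun u v => rfl
    have h1 : G = 0 := by
      refine vq_ext fun x => vq_ext fun y => ?_
      rw [LinearMap.zero_apply, LinearMap.zero_apply]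
      refine hK (fun x y => G (lq x) (lq y)) ⟨fun x x' y => ?_, fun x y y' => ?_⟩
        (fun x y hxy => ?_) x y
      · rw [lq_mul, map_add, LinearMap.add_apply]
      · rw [lq_mul, map_add]
      · have h2 := hN ⟨Glue.sq 0 (some (y : F)), rfl⟩
        rw [LinearMap.mem_ker, Abs.kap_s (s := fun n => Glue.sq n) Glue.d2q_sq Glue.dSq_sq,
          aq_eq, bq_eq hxy, pow_zero] at h2
        rw [hG]
        exact h2
    rw [pow_zero, ← hG, h1]
    rfl
  exact h

theorem sym1 (hA : HypA F) : SymB (Glue.Vq F) (B := fun n => Glue.Bq n F) Glue.d2q Glue.dSq 1 := by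
  intro u v
  have h : ((polyModel (Glue.Vq F)).l v ^ 1) ⊗ₜ[ℚ] ww (Glue.Vq F) u v ∈
      LinearMap.range (Abs.kap (polyModel (Glue.Vq F)) (B := fun n => Glue.Bq n F)
        Glue.d2q Glue.dSq 1) := by
    by_contra hmem
    obtain ⟨φ, hφ, hN⟩ := Submodule.exists_le_ker_of_notMem hmem
    apply hφ
    let H : Glue.Vq F →ₗ[ℚ] Glue.Vq F →ₗ[ℚ] Glue.Vq F →ₗ[ℚ] ℚ :=
      (ww (Glue.Vq F)).compr₂ (((TensorProduct.mk ℚ (PolyRing (Glue.Vq F))
        (Lam (Glue.Vq F) 2)).compr₂ φ ∘ₗ (polyModel (Glue.Vq F)).l).flip)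
    have hH : ∀ u v w, H u v w = φ ((polyModel (Glue.Vq F)).l w ⊗ₜ[ℚ] ww (Glue.Vq F) u v) :=
      fun u v w => rfl
    have key : ∀ x y : Fˣ, H (lq x) (lq y) (lq y) = 0 := by
      intro x y
      refine hA (fun x y z => H (lq x) (lq y) (lq z)) ⟨fun x x' y z => ?_, fun x y y' z => ?_,
        fun x y z z' => ?_⟩ (fun x z => ?_) (fun x y hxy => ?_) x y
      · rw [lq_mul, map_add, LinearMap.add_apply, LinearMap.add_apply]
      · rw [lq_mul, map_add, LinearMap.add_apply]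
      · rw [lq_mul, map_add]
      · rw [hH, ww_self, TensorProduct.tmul_zero, map_zero]
      · have h2 := hN ⟨Glue.sq 1 (some (y : F)), rfl⟩
        rw [LinearMap.mem_ker, Abs.kap_s (s := fun n => Glue.sq n) Glue.d2q_sq Glue.dSq_sq,
          aq_eq, bq_eq hxy, pow_one] at h2
        rw [hH]
        exact h2
    have h1 : ∀ u v w, H u v w + H u w v = 0 := by
      let fl : (Glue.Vq F →ₗ[ℚ] Glue.Vq F →ₗ[ℚ] ℚ) →ₗ[ℚ] Glue.Vq F →ₗ[ℚ] Glue.Vq F →ₗ[ℚ] ℚ :=
        { toFun := LinearMap.flip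
          map_add' := fun _ _ => rfl
          map_smul' := fun _ _ => rfl }
      have h2 : H + (fl ∘ₗ H) = 0 := by
        refine vq_ext fun x => vq_ext fun y => vq_ext fun z => ?_
        have h3 := key x (y * z)
        simp only [lq_mul, map_add, LinearMap.add_apply, key, zero_add, add_zero] at h3
        have h4 : (H + (fl ∘ₗ H)) (lq x) (lq y) (lq z) =
          H (lq x) (lq y) (lq z) + H (lq x) (lq z) (lq y) := rfl
        rw [h4, LinearMap.zero_apply, LinearMap.zero_apply, LinearMap.zero_apply]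
        linarith
      intro u v w
      have h3 := LinearMap.congr_fun (LinearMap.congr_fun (LinearMap.congr_fun h2 u) v) w
      exact h3
    have h5 := h1 u v v
    have h6 : H u v v = 0 := by linarith
    rw [pow_one, ← hH]
    exact h6
  exact h

theorem d2q_inj (hinj : Function.Injective (dl 0 F)) :
    Function.Injective (Glue.d2q : Glue.Bq 0 F →ₗ[ℚ] _) := by
  rw [Glue.d2q, LinearMap.coe_comp, LinearMap.coe_comp, LinearMap.coe_comp]
  exact (LinearEquiv.injective _).comp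
    (hinj.comp ((LinearEquiv.injective _).comp (LinearEquiv.injective _)))

/-- Exactness at `B_2 ⊗ Λ^{j+1}`. -/
theorem exact_dl (hinj : Function.Injective (dl 0 F)) (hA : HypA F) (j : ℕ)
    (z : CC 0 (j + 1) F) (hz : dl (j + 1) F z = 0) : ∃ y, dd 0 j F y = z := by
  have h1 := Glue.Psi_dl (j + 1) z
  rw [hz, map_zero] at h1
  obtain ⟨y, hy⟩ := exact_two (V := Glue.Vq F) (B := fun n => Glue.Bq n F)
    (s := fun n => Glue.sq n) (a := Glue.aq) (b := Glue.bq) (d2 := Glue.d2q) (dS := Glue.dSq)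
    Glue.sq_span Glue.d2q_sq Glue.dSq_sq (d2q_inj hinj) (sym1 hA) j _ h1.symm
  refine ⟨(Glue.Phi 1 j F).symm y, ?_⟩
  apply (Glue.Phi 0 (j + 1) F).injective
  rw [Glue.Phi_dd, LinearEquiv.apply_symm_apply]
  exact hy

/-- Surjectivity at the last place. -/
theorem surj_dl (hK : HypK F) (j : ℕ) (z : TT (j + 2) F) : ∃ y, dl j F y = z := by
  obtain ⟨y, hy⟩ := surj_2 (V := Glue.Vq F) (B := fun n => Glue.Bq n F)
    (d2 := Glue.d2q) (dS := Glue.dSq) (sym0 hK) j (Glue.Psi (j + 2) F z)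
  refine ⟨(Glue.Phi 0 j F).symm y, ?_⟩
  apply (Glue.Psi (j + 2) F).injective
  rw [Glue.Psi_dl, LinearEquiv.apply_symm_apply]
  exact hy

private theorem subs {M : Type u} [AddCommGroup M] [Module ℚ M] {p : Submodule ℚ M} (h : p = ⊤) :
    Subsingleton (M ⧸ p) := by
  refine ⟨fun a b => ?_⟩
  obtain ⟨a, rfl⟩ := Submodule.Quotient.mk_surjective p a
  obtain ⟨b, rfl⟩ := Submodule.Quotient.mk_surjective p b
  rw [Submodule.Quotient.eq, h]
  exact Submodule.mem_top

/-- `H^{j+1}(Γ(F, j + 2) ⊗ ℚ) = 0` -/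
theorem hc_zero (hinj : Function.Injective (dl 0 F)) (hA : HypA F) (j : ℕ) :
    Subsingleton (HC F 0 j) := by
  refine subs ?_
  rw [Submodule.submoduleOf_eq_top]
  intro z hz
  cases j with
  | zero =>
    have h1 : dl 0 F z = 0 := hz
    have h2 : z = 0 := hinj (h1.trans (map_zero _).symm)
    rw [h2]
    exact Submodule.zero_mem _
  | succ j =>
    obtain ⟨y, hy⟩ := exact_dl hinj hA j z hz
    exact ⟨y, hy⟩

/-- `H^n(Γ(F, n) ⊗ ℚ) = 0` -/
theorem ht_zero (hK : HypK F) (n : ℕ) (hn : 2 ≤ n) : Subsingleton (HT F n) := by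
  obtain ⟨j, rfl⟩ := Nat.exists_eq_add_of_le' hn
  refine subs ?_
  rw [eq_top_iff]
  intro z _
  obtain ⟨y, hy⟩ := surj_dl hK j z
  exact ⟨y, hy⟩

/-- **The glue.** -/
theorem glue (hinj : Function.Injective (dl 0 F)) (hK : HypK F) (hA : HypA F) :
    (∀ n : ℕ, 2 ≤ n → Subsingleton (HT F n)) ∧ (∀ j : ℕ, Subsingleton (HC F 0 j)) :=
  ⟨ht_zero hK, hc_zero hinj hA⟩

end field

end QGC
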