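import Pool.Agent.QGC.A9K

/-!
# QGC-Hook: the main step and the hook theorem (paper A.9 (iv))

PLAN. `hk_step`: the function `(u, v, w) ↦ T u v w + T u w v` is logarithmic in each variable, so by `log_zero` (three times) it is enough that it vanishes for naturals `u, v, w ∈ [1, p]`. Cases (`u = p` or `u < p`, ...), see the paper: `hk`, `hk_one`, `hk_A`, `hk_P`, `hT.self`, `Trl.swap`.
`hook`: `Hk n T` for all `n` by induction: `Hk 0` by `log_zero` (no integers in `[1, -1]`); the step is `hk_step` if `n` is prime, otherwise `Sm.of_not_prime`. `exists_sm2` for `u`, `v`; `Hk.self`.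
-/

namespace Pool.Agent.QGC

theorem hk_step {p : ℕ} (hp : p.Prime) {T : ℚ → ℚ → ℚ → ℚ} (hT : Trl T) (hk : Hk p T) :
    Hk (p + 1) T := by
  have hp0 : (p : ℚ) ≠ 0 := by exact_mod_cast hp.ne_zero
  have key : ∀ u v w : ℕ, 1 ≤ u → u < p + 1 → 1 ≤ v → v < p + 1 → 1 ≤ w → w < p + 1 →
      T (u : ℚ) (v : ℚ) (w : ℚ) + T (u : ℚ) (w : ℚ) (v : ℚ) = 0 := by
    intro u v w hu hu' hv hv' hw hw'
    have hu0 : (u : ℚ) ≠ 0 := by positivity
    have hv0 : (v : ℚ) ≠ 0 := by positivity
    have hw0 : (w : ℚ) ≠ 0 := by positivity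
    rcases Nat.lt_or_ge u p with hup | hup
    · have su : Sm p (u : ℚ) := Sm.nat (by omega) hup
      rcases Nat.lt_or_ge v p with hvp | hvp
      · have sv : Sm p (v : ℚ) := Sm.nat (by omega) hvp
        rcases Nat.lt_or_ge w p with hwp | hwp
        · exact hk _ _ _ su sv (Sm.nat (by omega) hwp)
        · obtain rfl : w = p := by omega
          have h1 := hk_A hp hT hk su sv
          have h2 := hT.swap hu0 hw0 hv0
          linarith
      · obtain rfl : v = p := by omega
        rcases Nat.lt_or_ge w v with hwp | hwp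
        · have h1 := hk_A hp hT hk su (Sm.nat (by omega) hwp)
          have h2 := hT.swap hu0 hv0 hw0
          linarith
        · obtain rfl : w = v := by omega
          have h1 := hk_P hp hT hk su
          have h2 := hT.swap hu0 hw0 hw0
          linarith
    · obtain rfl : u = p := by omega
      rcases Nat.lt_or_ge v u with hvp | hvp
      · have sv : Sm u (v : ℚ) := Sm.nat (by omega) hvp
        rcases Nat.lt_or_ge w u with hwp | hwp
        · exact hk_one hp hT hk sv (Sm.nat (by omega) hwp)
        · obtain rfl : w = u := by omega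
          have h1 := hk_P hp hT hk sv
          have h2 := hT.self _ _ hw0 hv0
          linarith
      · obtain rfl : v = u := by omega
        rcases Nat.lt_or_ge w v with hwp | hwp
        · have h1 := hk_P hp hT hk (Sm.nat (by omega) hwp)
          have h2 := hT.self _ _ hv0 hw0
          linarith
        · obtain rfl : w = v := by omega
          have h2 := hT.self _ _ hw0 hw0
          linarith
  have l1 : ∀ v w : ℚ, v ≠ 0 → w ≠ 0 → IsLog fun u => T u v w + T u w v := by
    intro v w hv hw x y hx hy
    have h1 := hT.log1 v w hv hw x y hx hy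
    have h2 := hT.log1 w v hw hv x y hx hy
    simp only at h1 h2 ⊢
    rw [h1, h2]
    ring
  have l2 : ∀ u w : ℚ, u ≠ 0 → w ≠ 0 → IsLog fun v => T u v w + T u w v := by
    intro u w hu hw x y hx hy
    have h1 := hT.log2 u w hu hw x y hx hy
    have h2 := hT.log3 u w hu hw x y hx hy
    simp only at h1 h2 ⊢
    rw [h1, h2]
    ring
  have l3 : ∀ u v : ℚ, u ≠ 0 → v ≠ 0 → IsLog fun w => T u v w + T u w v := by
    intro u v hu hv x y hx hy
    have h1 := hT.log3 u v hu hv x y hx hy
    have h2 := hT.log2 u v hu hv x y hx hy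
    simp only at h1 h2 ⊢
    rw [h1, h2]
    ring
  intro u v w hu hv hw
  refine log_zero (l1 v w hv.1 hw.1) (fun a ha ha' => ?_) hu
  have ha0 : (a : ℚ) ≠ 0 := by positivity
  refine log_zero (l2 a w ha0 hw.1) (fun b hb hb' => ?_) hv
  have hb0 : (b : ℚ) ≠ 0 := by positivity
  exact log_zero (l3 a b ha0 hb0) (fun c hc hc' => key a b c ha ha' hb hb' hc hc') hw

theorem hook {T : ℚ → ℚ → ℚ → ℚ} (hT : Trl T) {u v : ℚ} (hu : u ≠ 0) (hv : v ≠ 0) :
    T u v v = 0 := by
  have key : ∀ n, Hk n T := by
    intro n
    induction n with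
    | zero =>
      intro u v w hu hv hw
      have l1 : ∀ v w : ℚ, v ≠ 0 → w ≠ 0 → IsLog fun u => T u v w + T u w v := by
        intro v w hv hw x y hx hy
        have h1 := hT.log1 v w hv hw x y hx hy
        have h2 := hT.log1 w v hw hv x y hx hy
        simp only at h1 h2 ⊢
        rw [h1, h2]
        ring
      exact log_zero (l1 v w hv.1 hw.1) (fun a ha ha' => absurd ha' (by omega)) hu
    | succ n ih =>
      by_cases hn : n.Prime
      · exact hk_step hn hT ih
      · intro u v w hu hv hw
        exact ih u v w (hu.of_not_prime hn) (hv.of_not_prime hn) (hw.of_not_prime hn)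
  obtain ⟨n, h1, h2⟩ := exists_sm2 hu hv
  exact (key n).self h1 h2

end Pool.Agent.QGC
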