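import Pool.Agent.QGC.Fin
import Pool.Agent.QGC.Flib
import Pool.Agent.QGC.Hook
import Pool.Agent.QGC.A8C
import Pool.Agent.QGC.BMain

set_option autoImplicit false

/-!
# `H^n(Γ(ℚ, n) ⊗ ℚ) = H^{n-1}(Γ(ℚ, n) ⊗ ℚ) = 0` for all `n ≥ 2`
-/

namespace QGC

open Helper14.Loc (HC HT)

theorem main : (∀ n : ℕ, 2 ≤ n → Subsingleton (HT ℚ n)) ∧ (∀ j : ℕ, Subsingleton (HC ℚ 0 j)) :=
  fin_rat (fun φ => Pool.Agent.QGC.flib φ)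
    (fun _ hl S hS => Pool.Agent.QGC.fiveAlt hl S hS)
    (fun _ hA hd _ _ hx hy => Pool.Agent.QGC.tate hA hd hx hy)
    (fun _ h1 h2 h3 h4 h5 _ _ hu hv => Pool.Agent.QGC.hook ⟨h1, h2, h3, h4, h5⟩ hu hv)

end QGC
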